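import Pool.Agent.Work.MP_db9399_og_helper35.ANT
import Pool.Agent.Work.MP_db9399_og_helper89.A1T
import Pool.Agent.Work.MP_db9399_sg_helper68.ANF

/-! # MP_db9399, ANT, unconditional (helper35) -/

set_option autoImplicit false

namespace Pool.Agent.Work.MP_db9399_og.helper35

universe u

theorem ant_hold : Stmt_ANT.{u} :=
  stmt_ANT Pool.Agent.Work.MP_db9399_og.helper89.stmt_A1T
    (Pool.Agent.Work.MP_db9399_cg.helper68.stmt_A34 Pool.Agent.Work.MP_db9399_cg.helper75.stmt_A3
      Pool.Agent.Work.MP_db9399_cg.helper46.stmt_A4)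
    Pool.Agent.Work.MP_db9399_sg.helper68.stmt_A5N

end Pool.Agent.Work.MP_db9399_og.helper35
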