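import Pool.Agent.Work.MP_db9399_og_helper35.OWNU
import Pool.Agent.Work.MP_db9399_owc.Interface

/-!
# MP_db9399: own colours of a set `U` of vertices, with conflict edges and caps (helper35)
-/

set_option autoImplicit false

namespace Pool.Agent.Work.MP_db9399_og.helper35

open Finset Classical
open Pool.Agent.Work.MP_db9399_all (nb mis)
open Pool.Agent.Work.MP_db9399_ow (Sig Upt)
open Pool.Agent.Work.MP_db9399_owc (Cap Stmt_OWN2)
open Pool.Agent.Work.MP_db9399_as.helper6

universe u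

/-- own colours of the vertices of `U`; all edges of `G` are inside `U` -/
def Stmt_OWNU2 : Prop :=
  ∀ (C K1 K : ℕ), 1 ≤ K1 → ∃ (C' N x0 : ℕ),
    ∀ {V : Type u} [Fintype V] (G : SimpleGraph V) (U : Finset V) (d x P : ℕ) (J R Y : Type u)
      [Fintype J] [Fintype R] [Fintype Y] (S : J → Finset V) (g : J → Fin P → V → ℝ) (e : J → ℝ)
      (Q : R → Finset (Fin P × V)) (Z : Y → Finset V), x0 ≤ x → Real.log d ≤ x →
      x ^ N ≤ d → P ≤ 2 * d → (d : ℝ) - d / (x : ℝ) ^ (C + 2 * K1 + 8) ≤ P →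
      (∀ v, (nb G v).card ≤ d) → (∀ v w, G.Adj v w → v ∈ U) →
      (∀ v ∈ U, (d : ℝ) ^ 2 / (x : ℝ) ^ K1 ≤
        (((mis G (nb G v)).card + (d - (nb G v).card) * (d - 1) : ℕ) : ℝ)) →
      Sig ((x : ℝ) ^ K / d) (Real.exp ((x : ℝ) ^ C)) S g (fun j => e j / d) →
      Upt (d * (x : ℝ) ^ K) (Real.exp ((x : ℝ) ^ C)) Q → Cap d Z →
      ∃ c : V → Fin P, (∀ v w, G.Adj v w → c v ≠ c w) ∧
        (∀ j, ∑ b, |∑ v ∈ U.filter (fun v => c v = b), g j b v| ≤
          1 / (d : ℝ) * ∑ b, |∑ v ∈ U, g j b v| + (130 * Real.sqrt (e j) + 1 / x)) ∧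
        (∀ j, ∑ v ∈ U, |g j (c v) v| ≤ 1 / (d : ℝ) * ∑ b, ∑ v ∈ U, |g j b v| + 1 / x) ∧
        (∀ q, (((Q q).filter (fun y => y.2 ∈ U ∧ c y.2 = y.1)).card : ℝ) ≤ (x : ℝ) ^ C') ∧
        ∀ y b, (((Z y).filter (fun v => c v = b)).card : ℝ) ≤
          Real.log d ^ 4 * (1 + ((Z y).card : ℝ) / d)

theorem cap_of {V W Y : Type u} [Fintype V] [Fintype W] [Fintype Y] {d : ℕ} {Z : Y → Finset V}
    (hZ : Cap d Z) (f : W → V) (Z' : Y → Finset W) (h1 : ∀ y, (Z' y).card ≤ (Z y).card)
    (h2 : ∀ y a, a ∈ Z' y → f a ∈ Z y) : Cap d Z' := by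
  constructor
  · intro y
    exact (h1 y).trans (hZ.card y)
  · intro a
    refine le_trans (Finset.card_le_card ?_) (hZ.mul (f a))
    intro y hy
    exact Finset.mem_filter.mpr ⟨Finset.mem_univ _, h2 y a (Finset.mem_filter.mp hy).2⟩

theorem ownu2 (hOWN : Stmt_OWN2.{u}) : Stmt_OWNU2.{u} := by
  intro C K1 K hK1
  obtain ⟨C', N0, N, x0, H⟩ := hOWN C K1 K
  refine ⟨C', max N 2, max x0 5, ?_⟩
  intro V _ G U d x P J R Y _ _ _ S g e Q Z hx hlog hxd hP hP' hdeg hGU hmis hSig hUpt hZ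
  have hx0 : x0 ≤ x := le_trans (le_max_left _ _) hx
  have hx5 : 5 ≤ x := le_trans (le_max_right _ _) hx
  have hx1 : 1 ≤ x := by omega
  have hx5r : (5 : ℝ) ≤ x := by exact_mod_cast hx5
  have hxN : x ^ N ≤ d := (Nat.pow_le_pow_right hx1 (le_max_left _ _)).trans hxd
  have hd2 : 2 ≤ d := by
    have h1 : x ^ 2 ≤ d := (Nat.pow_le_pow_right hx1 (le_max_right _ _)).trans hxd
    nlinarith
  have hxp : (0 : ℝ) < (x : ℝ) ^ K1 := by positivity
  obtain ⟨q, hq1, hq2⟩ := Nat.exists_infinite_primes d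
  have hqf : Fact q.Prime := ⟨hq2⟩
  have hne : NeZero q := ⟨hq2.ne_zero⟩
  obtain ⟨c0, -⟩ : ∃ c0 : EMB.Cp q, c0 = (true, 0, 0) := ⟨_, rfl⟩
  set Gx := EMB.ext G d q with hGx
  obtain ⟨g', hg'⟩ : ∃ g' : J → Fin P → V × EMB.Cp q → ℝ, ∀ j b a, g' j b a =
      if a.2 = c0 ∧ a.1 ∈ U then g j b a.1 else 0 := ⟨_, fun _ _ _ => rfl⟩
  obtain ⟨S', hS'⟩ : ∃ S' : J → Finset (V × EMB.Cp q), ∀ j a, a ∈ S' j ↔ a.2 = c0 ∧ a.1 ∈ S j :=
    ⟨fun j => univ.filter fun a => a.2 = c0 ∧ a.1 ∈ S j, fun j a => by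
      rw [Finset.mem_filter]
      exact ⟨fun h => h.2, fun h => ⟨Finset.mem_univ _, h⟩⟩⟩
  obtain ⟨Q', hQ'⟩ : ∃ Q' : R → Finset (Fin P × (V × EMB.Cp q)), ∀ t z, z ∈ Q' t ↔
      z.2.2 = c0 ∧ z.2.1 ∈ U ∧ (z.1, z.2.1) ∈ Q t :=
    ⟨fun t => univ.filter fun z => z.2.2 = c0 ∧ z.2.1 ∈ U ∧ (z.1, z.2.1) ∈ Q t, fun t z => by
      rw [Finset.mem_filter]
      exact ⟨fun h => h.2, fun h => ⟨Finset.mem_univ _, h⟩⟩⟩
  have hg0 : ∀ j b a, a.2 ≠ c0 → g' j b a = 0 := fun j b a h => by
    rw [hg', if_neg (fun h' => h h'.1)]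
  have hg1 : ∀ j b v, g' j b (v, c0) = if v ∈ U then g j b v else 0 := by
    intro j b v
    rw [hg']
    simp
  have hgabs : ∀ j b v, |g' j b (v, c0)| ≤ |g j b v| := by
    intro j b v
    rw [hg1]
    split_ifs
    · exact le_rfl
    · rw [abs_zero]
      exact abs_nonneg _
  have hreg : ∀ a, (nb Gx a).card = d := fun a =>
    (nb_deg Gx a).trans (EMB.ext_regular G d (fun w => by
      rw [← nb_deg]; exact hdeg w) hq1 a)
  have hsum : ∀ (f : V × EMB.Cp q → ℝ), (∀ a, a.2 ≠ c0 → f a = 0) → ∑ a, f a = ∑ v, f (v, c0) :=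
    fun f hf => sum_cp (q := q) c0 hf
  have hSig' : Sig ((x : ℝ) ^ K / d) (Real.exp ((x : ℝ) ^ C)) S' g' (fun j => e j / d) := by
    refine ⟨?_, ?_, ?_, ?_, hSig.e0, ?_, ?_⟩
    · intro j b a ha
      rw [hg']
      split_ifs with h
      · apply hSig.sup
        intro h'
        exact ha ((hS' j a).mpr ⟨h.1, h'⟩)
      · rfl
    · intro j b a
      rw [hg']
      split_ifs with h
      · exact hSig.le j b a.1
      · rw [abs_zero]
        exact (abs_nonneg _).trans (hSig.le j b a.1)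
    · intro j b
      rw [hsum (fun a => |g' j b a|) (fun a ha => by rw [hg0 j b a ha, abs_zero])]
      exact (Finset.sum_le_sum fun v _ => hgabs j b v).trans (hSig.sum j b)
    · intro j b
      rw [hsum (fun a => g' j b a ^ 2) (fun a ha => by rw [hg0 j b a ha]; ring)]
      refine (Finset.sum_le_sum fun v _ => ?_).trans (hSig.sq j b)
      exact sq_le_sq.mpr (hgabs j b v)
    · intro j
      refine le_trans ?_ (hSig.card j)
      have : (S' j).card ≤ (S j).card := by
        apply Finset.card_le_card_of_injOn (fun a => a.1)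
        · intro a ha
          exact ((hS' j a).mp ha).2
        · intro a ha b hb hab
          exact Prod.ext hab (((hS' j a).mp ha).1.trans ((hS' j b).mp hb).1.symm)
      exact_mod_cast this
    · intro a
      refine le_trans (Nat.cast_le.mpr (Finset.card_le_card ?_)) (hSig.mul a.1)
      intro j hj
      simp only [Finset.mem_filter, Finset.mem_univ, true_and] at hj ⊢
      exact ((hS' j a).mp hj).2
  have hUpt' : Upt (d * (x : ℝ) ^ K) (Real.exp ((x : ℝ) ^ C)) Q' := by
    constructor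
    · intro t
      refine le_trans ?_ (hUpt.card t)
      have : (Q' t).card ≤ (Q t).card := by
        apply Finset.card_le_card_of_injOn (fun z => (z.1, z.2.1))
        · intro z hz
          exact ((hQ' t z).mp hz).2.2
        · intro z hz z' hz' hzz
          have h1 := Prod.mk.inj hzz
          exact Prod.ext h1.1 (Prod.ext h1.2
            (((hQ' t z).mp hz).1.trans ((hQ' t z').mp hz').1.symm))
      exact_mod_cast this
    · intro a
      refine le_trans (Nat.cast_le.mpr (Finset.card_le_card ?_)) (hUpt.mul a.1)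
      intro t ht
      simp only [Finset.mem_filter, Finset.mem_univ, true_and] at ht ⊢
      obtain ⟨b, hb⟩ := ht
      exact ⟨b, ((hQ' t _).mp hb).2.2⟩
  obtain ⟨Z', hZ'⟩ : ∃ Z' : Y → Finset (V × EMB.Cp q), ∀ y a, a ∈ Z' y ↔ a.2 = c0 ∧ a.1 ∈ Z y :=
    ⟨fun y => univ.filter fun a => a.2 = c0 ∧ a.1 ∈ Z y, fun y a => by
      rw [Finset.mem_filter]
      exact ⟨fun h => h.2, fun h => ⟨Finset.mem_univ _, h⟩⟩⟩
  have hZc : ∀ y, (Z' y).card = (Z y).card := by
    intro y
    apply Finset.card_bij (fun a _ => a.1)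
    · intro a ha
      exact ((hZ' y a).mp ha).2
    · intro a ha b hb hab
      exact Prod.ext hab (((hZ' y a).mp ha).1.trans ((hZ' y b).mp hb).1.symm)
    · intro v hv
      exact ⟨(v, c0), (hZ' y _).mpr ⟨rfl, hv⟩, rfl⟩
  have hCap : Cap d Z' := cap_of (hZ := hZ) (f := fun a => a.1) Z' (fun y => (hZc y).le)
    fun y a ha => ((hZ' y a).mp ha).2
  obtain ⟨Fb, hFb⟩ : ∃ Fb : V × EMB.Cp q → Finset (Fin P), ∀ v, Fb v = ∅ :=
    ⟨fun _ => ∅, fun _ => rfl⟩
  obtain ⟨c, hc1, -, hc3, hc4, hc5, hc6⟩ := H Gx d x P J R Y S' g' e Q' Z' Fb hx0 hlog hxN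
    hP hP' (fun a => by
      rw [hreg a, sub_self, abs_zero]
      positivity)
    (fun a => by
      have h1 := mis_ext G d hdeg hq1 a
      have h2 : (((mis G (nb G a.1)).card + (d - (nb G a.1).card) * (d - 1) : ℕ) : ℝ) ≤
          ((mis Gx (nb Gx a)).card : ℝ) := by exact_mod_cast h1
      refine le_trans ?_ h2
      by_cases hv : a.1 ∈ U
      · exact hmis a.1 hv
      · have h5 : nb G a.1 = ∅ := by
          rw [Finset.eq_empty_iff_forall_notMem]
          intro w hw
          exact hv (hGU _ _ (mem_nb.mp hw))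
        rw [h5, Finset.card_empty, Nat.sub_zero, div_le_iff₀ hxp]
        have h6 : (d : ℝ) * d ≤ 2 * ((d * (d - 1) : ℕ) : ℝ) := by
          have h7 : d * d ≤ 2 * (d * (d - 1)) := by
            have h8 : d ≤ 2 * (d - 1) := by omega
            calc d * d ≤ d * (2 * (d - 1)) := Nat.mul_le_mul_left _ h8
              _ = 2 * (d * (d - 1)) := by ring
          exact_mod_cast h7
        have h7 : (x : ℝ) ≤ (x : ℝ) ^ K1 := le_self_pow₀ (by linarith) (by omega)
        have h8 : ((d * (d - 1) : ℕ) : ℝ) ≤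
            (((mis G ∅).card + d * (d - 1) : ℕ) : ℝ) := by
          exact_mod_cast Nat.le_add_left _ _
        have h9 : (0 : ℝ) ≤ ((d * (d - 1) : ℕ) : ℝ) := Nat.cast_nonneg _
        have h10 : (2 : ℝ) ≤ (x : ℝ) ^ K1 := by linarith
        calc (d : ℝ) ^ 2 = d * d := by ring
          _ ≤ ((d * (d - 1) : ℕ) : ℝ) * 2 := by linarith
          _ ≤ _ := mul_le_mul h8 h10 (by norm_num) (h9.trans h8))
    hSig' hUpt' hCap (fun a => by
      rw [hFb, Finset.card_empty]
      push_cast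
      positivity)
  have hU : ∀ (p : V → Prop) [DecidablePred p] (f : V → ℝ),
      ∑ v, (if p v then (if v ∈ U then f v else 0) else 0) = ∑ v ∈ U.filter (fun v => p v), f v := by
    intro p _ f
    rw [Finset.sum_filter, ← Finset.sum_filter_add_sum_filter_not univ (fun v => v ∈ U)]
    have h1 : ∑ v ∈ univ.filter (fun v => v ∉ U),
        (if p v then (if v ∈ U then f v else 0) else 0) = 0 := by
      apply Finset.sum_eq_zero
      intro v hv
      rw [Finset.mem_filter] at hv
      simp [hv.2]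
    have h2 : univ.filter (fun v => v ∈ U) = U := by
      ext v
      simp
    rw [h1, add_zero, h2]
    apply Finset.sum_congr rfl
    intro v hv
    simp [hv]
  have hU' : ∀ f : V → ℝ, ∑ v, (if v ∈ U then f v else 0) = ∑ v ∈ U, f v := by
    intro f
    rw [← Finset.sum_filter]
    congr 1
    ext v
    simp
  have e1 : ∀ j b, ∑ a ∈ univ.filter (fun a => c a = b), g' j b a =
      ∑ v ∈ U.filter (fun v => c (v, c0) = b), g j b v := by
    intro j b
    rw [Finset.sum_filter, hsum (fun a => if c a = b then g' j b a else 0)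
      (fun a ha => by rw [hg0 j b a ha, ite_self]), ← hU (fun v => c (v, c0) = b) (fun v => g j b v)]
    apply Finset.sum_congr rfl
    intro v _
    rw [hg1]
  have e2 : ∀ j b, ∑ a, g' j b a = ∑ v ∈ U, g j b v := by
    intro j b
    rw [hsum (fun a => g' j b a) (fun a ha => hg0 j b a ha), ← hU']
    apply Finset.sum_congr rfl
    intro v _
    rw [hg1]
  have habs : ∀ j b v, |g' j b (v, c0)| = if v ∈ U then |g j b v| else 0 := by
    intro j b v
    rw [hg1]
    split_ifs
    · rfl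
    · exact abs_zero
  have e3 : ∀ j b, ∑ a ∈ univ.filter (fun a : V × EMB.Cp q => b ∈ Fb a), |g' j b a| = 0 := by
    intro j b
    apply Finset.sum_eq_zero
    intro a ha
    have := (Finset.mem_filter.mp ha).2
    rw [hFb] at this
    exact absurd this (Finset.notMem_empty _)
  have e4 : ∀ j b, ∑ a, |g' j b a| = ∑ v ∈ U, |g j b v| := by
    intro j b
    rw [hsum (fun a => |g' j b a|) (fun a ha => by rw [hg0 j b a ha, abs_zero]), ← hU']
    apply Finset.sum_congr rfl
    intro v _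
    rw [habs]
  have e5 : ∀ j, ∑ a, |g' j (c a) a| = ∑ v ∈ U, |g j (c (v, c0)) v| := by
    intro j
    rw [hsum (fun a => |g' j (c a) a|) (fun a ha => by rw [hg0 j _ a ha, abs_zero]), ← hU']
    apply Finset.sum_congr rfl
    intro v _
    rw [habs]
  refine ⟨fun v => c (v, c0), ?_, ?_, ?_, ?_, ?_⟩
  · intro v w hvw
    exact hc1 (v, c0) (w, c0) (Or.inl ⟨rfl, hvw⟩)
  · intro j
    have h1 := hc3 j
    simp_rw [e1, e2, e3, add_zero] at h1
    linarith
  · intro j
    have h1 := hc4 j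
    rw [e5] at h1
    simp_rw [e4] at h1
    exact h1
  · intro t
    refine le_trans ?_ (hc5 t)
    have : ((Q t).filter fun y => y.2 ∈ U ∧ c (y.2, c0) = y.1).card ≤
        ((Q' t).filter fun y => c y.2 = y.1).card := by
      apply Finset.card_le_card_of_injOn (fun y => (y.1, (y.2, c0)))
      · intro y hy
        have hy' := Finset.mem_filter.mp (Finset.mem_coe.mp hy)
        apply Finset.mem_coe.mpr
        rw [Finset.mem_filter, hQ']
        exact ⟨⟨rfl, hy'.2.1, hy'.1⟩, hy'.2.2⟩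
      · intro y _ y' _ hyy
        have h1 := Prod.mk.inj hyy
        exact Prod.ext h1.1 (Prod.mk.inj h1.2).1
    exact_mod_cast this
  · intro y b
    have h1 := hc6 y b
    rw [hZc] at h1
    refine le_trans (Nat.cast_le.mpr ?_) h1
    apply Finset.card_le_card_of_injOn (fun v => (v, c0))
    · intro v hv
      obtain ⟨h2, h3⟩ := Finset.mem_filter.mp (Finset.mem_coe.mp hv)
      exact Finset.mem_coe.mpr (Finset.mem_filter.mpr ⟨(hZ' y _).mpr ⟨rfl, h2⟩, h3⟩)
    · intro v _ w _ hvw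
      exact (Prod.mk.inj hvw).1

/-! ### the conflict edges do not destroy the sparsity -/

/-- the graph inside `U` with the conflict edges -/
def rC {V : Type u} (E Cf : SimpleGraph V) (U : Finset V) : SimpleGraph V where
  Adj v w := (E.Adj v w ∨ Cf.Adj v w) ∧ v ∈ U ∧ w ∈ U
  symm := ⟨fun _ _ h => ⟨h.1.imp (fun h => h.symm) (fun h => h.symm), h.2.2, h.2.1⟩⟩
  loopless := ⟨fun v h => h.1.elim (fun h => E.loopless.irrefl v h) fun h =>
    Cf.loopless.irrefl v h⟩

/-- number of the non-neighbours in `A` -/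
noncomputable def ms {V : Type u} (G : SimpleGraph V) (A : Finset V) (x : V) : ℕ :=
  (A.filter fun y => y ≠ x ∧ ¬ G.Adj x y).card

theorem mis_sum {V : Type u} (G : SimpleGraph V) (A : Finset V) :
    (mis G A).card = ∑ x ∈ A, ms G A x := by
  have h := Finset.card_eq_sum_card_fiberwise (f := fun p : V × V => p.1) (s := mis G A) (t := A)
    (fun p hp => (mem_mis.mp hp).1)
  rw [h]
  apply Finset.sum_congr rfl
  intro x hx
  unfold ms
  apply Finset.card_bij (fun p _ => p.2)
  · intro p hp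
    obtain ⟨h1, h2⟩ := Finset.mem_filter.mp hp
    obtain ⟨h3, h4, h5, h6⟩ := mem_mis.mp h1
    have h2' : p.1 = x := h2
    rw [h2'] at h5 h6
    exact Finset.mem_filter.mpr ⟨h4, fun h => h5 h.symm, h6⟩
  · intro p hp p' hp' hpp
    have h1 : p.1 = x := (Finset.mem_filter.mp hp).2
    have h2 : p'.1 = x := (Finset.mem_filter.mp hp').2
    exact Prod.ext (h1.trans h2.symm) hpp
  · intro y hy
    obtain ⟨h1, h2, h3⟩ := Finset.mem_filter.mp hy
    exact ⟨(x, y), Finset.mem_filter.mpr ⟨mem_mis.mpr ⟨hx, h1, fun h => h2 h.symm, h3⟩, rfl⟩, rfl⟩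

theorem mis_cf {V : Type u} [Fintype V] (E Cf : SimpleGraph V) (U : Finset V) (d : ℕ) (v : V)
    (hv : v ∈ U) (hd2 : 2 ≤ d) (hdU : ∀ w ∈ U, (nb E w).card = d)
    (hCU : ∀ v w, Cf.Adj v w → v ∈ U) (hC2 : ∀ w, 2 * (nb Cf w).card ≤ (nb E w \ U).card) :
    (nb (rC E Cf U) v).card ≤ d ∧
    (mis E (nb E v)).card ≤ 16 * ((mis (rC E Cf U) (nb (rC E Cf U) v)).card +
      (d - (nb (rC E Cf U) v).card) * (d - 1)) + d := by
  set G' := rC E Cf U with hG'
  set s := (nb E v \ U).card with hs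
  set A := nb E v ∩ U with hA
  have hsA : s + A.card = d := by
    rw [hs, hA, ← hdU v hv]
    exact Finset.card_sdiff_add_card_inter _ _
  have hnb : nb G' v ⊆ A ∪ nb Cf v := by
    intro w hw
    obtain ⟨h1, -, h3⟩ := mem_nb.mp hw
    rcases h1 with h1 | h1
    · exact Finset.mem_union_left _ (Finset.mem_inter.mpr ⟨mem_nb.mpr h1, h3⟩)
    · exact Finset.mem_union_right _ (mem_nb.mpr h1)
  have hAn : A ⊆ nb G' v := by
    intro w hw
    obtain ⟨h1, h2⟩ := Finset.mem_inter.mp hw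
    exact mem_nb.mpr ⟨Or.inl (mem_nb.mp h1), hv, h2⟩
  have hk1 := (Finset.card_le_card hnb).trans (Finset.card_union_le _ _)
  have hC2v := hC2 v
  rw [← hs] at hC2v
  obtain ⟨k, hk⟩ : ∃ k : ℕ, k = (nb G' v).card := ⟨_, rfl⟩
  rw [← hk] at hk1
  have hkd : k ≤ d := by omega
  have hks : s ≤ 2 * (d - k) := by omega
  refine ⟨by rw [← hk]; exact hkd, ?_⟩
  rw [← hk]
  -- the missing pairs in the neighbourhood
  have h1 : (mis E (nb E v)).card ≤ (mis E A).card + 2 * (s * d) := by
    have hsub : mis E (nb E v) ⊆ mis E A ∪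
        (((nb E v \ U) ×ˢ nb E v) ∪ (nb E v ×ˢ (nb E v \ U))) := by
      intro p hp
      rw [mem_mis] at hp
      obtain ⟨h1, h2, h3, h4⟩ := hp
      rw [Finset.mem_union, Finset.mem_union, Finset.mem_product, Finset.mem_product, mem_mis, hA,
        Finset.mem_inter, Finset.mem_inter, Finset.mem_sdiff, Finset.mem_sdiff]
      by_cases h5 : p.1 ∈ U
      · by_cases h6 : p.2 ∈ U
        · exact Or.inl ⟨⟨h1, h5⟩, ⟨h2, h6⟩, h3, h4⟩
        · exact Or.inr (Or.inr ⟨h1, h2, h6⟩)
      · exact Or.inr (Or.inl ⟨⟨h1, h5⟩, h2⟩)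
    have h1 := Finset.card_le_card hsub
    have h2 := Finset.card_union_le (mis E A) (((nb E v \ U) ×ˢ nb E v) ∪ (nb E v ×ˢ (nb E v \ U)))
    have h3 := Finset.card_union_le ((nb E v \ U) ×ˢ nb E v) (nb E v ×ˢ (nb E v \ U))
    rw [Finset.card_product, Finset.card_product, hdU v hv, ← hs] at h3
    have h5 : d * s = s * d := mul_comm _ _
    omega
  have h2 : ∀ x ∈ A, ms E A x ≤ 2 * ms G' A x + (2 * s + 1) := by
    intro x hx
    obtain ⟨hx1, hxU⟩ := Finset.mem_inter.mp hx
    set F := (nb E x \ U).card with hF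
    -- neighbours of `x` outside `U` which are not neighbours of `v`
    have e1 : (nb E x ∩ nb E v).card + F ≤ d + s := by
      have e2 : (nb E x ∩ nb E v ∩ U).card + F ≤ d := by
        have e3 : (nb E x ∩ nb E v ∩ U) ∪ (nb E x \ U) ⊆ nb E x := by
          intro y hy
          rcases Finset.mem_union.mp hy with hy | hy
          · exact (Finset.mem_inter.mp (Finset.mem_inter.mp hy).1).1
          · exact (Finset.mem_sdiff.mp hy).1
        have e4 : Disjoint (nb E x ∩ nb E v ∩ U) (nb E x \ U) := by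
          rw [Finset.disjoint_left]
          intro y hy hy'
          exact (Finset.mem_sdiff.mp hy').2 (Finset.mem_inter.mp hy).2
        have e5 := Finset.card_le_card e3
        rw [Finset.card_union_of_disjoint e4, hdU x hxU] at e5
        exact e5
      have e3 : (nb E x ∩ nb E v).card ≤ (nb E x ∩ nb E v ∩ U).card + s := by
        have e4 : nb E x ∩ nb E v ⊆ (nb E x ∩ nb E v ∩ U) ∪ (nb E v \ U) := by
          intro y hy
          by_cases hyU : y ∈ U
          · exact Finset.mem_union_left _ (Finset.mem_inter.mpr ⟨hy, hyU⟩)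
          · exact Finset.mem_union_right _ (Finset.mem_sdiff.mpr
              ⟨(Finset.mem_inter.mp hy).2, hyU⟩)
        exact (Finset.card_le_card e4).trans (Finset.card_union_le _ _)
      omega
    -- non-neighbours in `A`
    have e2 : d ≤ ms E A x + (nb E x ∩ nb E v).card + s + 1 := by
      have e3 : nb E v ⊆ (((A.filter fun y => y ≠ x ∧ ¬ E.Adj x y) ∪ (nb E x ∩ nb E v)) ∪
          (nb E v \ U)) ∪ {x} := by
        intro y hy
        by_cases h3 : y = x
        · exact Finset.mem_union_right _ (Finset.mem_singleton.mpr h3)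
        · apply Finset.mem_union_left
          by_cases h4 : y ∈ U
          · apply Finset.mem_union_left
            by_cases h5 : E.Adj x y
            · exact Finset.mem_union_right _ (Finset.mem_inter.mpr ⟨mem_nb.mpr h5, hy⟩)
            · exact Finset.mem_union_left _ (Finset.mem_filter.mpr
                ⟨Finset.mem_inter.mpr ⟨hy, h4⟩, h3, h5⟩)
          · exact Finset.mem_union_right _ (Finset.mem_sdiff.mpr ⟨hy, h4⟩)
      have e4 := Finset.card_le_card e3
      have e5 := Finset.card_union_le ((((A.filter fun y => y ≠ x ∧ ¬ E.Adj x y) ∪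
        (nb E x ∩ nb E v)) ∪ (nb E v \ U))) {x}
      have e6 := Finset.card_union_le (((A.filter fun y => y ≠ x ∧ ¬ E.Adj x y) ∪
        (nb E x ∩ nb E v))) (nb E v \ U)
      have e7 := Finset.card_union_le (A.filter fun y => y ≠ x ∧ ¬ E.Adj x y)
        (nb E x ∩ nb E v)
      rw [Finset.card_singleton] at e5
      rw [hdU v hv] at e4
      rw [← hs] at e6
      have e8 : ms E A x = (A.filter fun y => y ≠ x ∧ ¬ E.Adj x y).card := rfl
      omega
    -- conflict edges
    have e3 : ms E A x ≤ ms G' A x + (nb Cf x).card := by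
      have e4 : (A.filter fun y => y ≠ x ∧ ¬ E.Adj x y) ⊆
          (A.filter fun y => y ≠ x ∧ ¬ G'.Adj x y) ∪ nb Cf x := by
        intro y hy
        obtain ⟨h3, h4, h5⟩ := Finset.mem_filter.mp hy
        by_cases h6 : Cf.Adj x y
        · exact Finset.mem_union_right _ (mem_nb.mpr h6)
        · refine Finset.mem_union_left _ (Finset.mem_filter.mpr ⟨h3, h4, ?_⟩)
          rintro ⟨h7 | h7, -⟩
          · exact h5 h7
          · exact h6 h7
      exact (Finset.card_le_card e4).trans (Finset.card_union_le _ _)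
    have e4 := hC2 x
    rw [← hF] at e4
    omega
  have h3 : (mis E A).card ≤ 2 * (mis G' A).card + (2 * s + 1) * d := by
    rw [mis_sum, mis_sum]
    calc ∑ x ∈ A, ms E A x ≤ ∑ x ∈ A, (2 * ms G' A x + (2 * s + 1)) :=
          Finset.sum_le_sum fun x hx => h2 x hx
      _ = 2 * ∑ x ∈ A, ms G' A x + A.card * (2 * s + 1) := by
          rw [Finset.sum_add_distrib, ← Finset.mul_sum, Finset.sum_const, smul_eq_mul]
      _ ≤ _ := by
          have : A.card * (2 * s + 1) ≤ (2 * s + 1) * d := by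
            rw [mul_comm]
            exact Nat.mul_le_mul_left _ (by omega)
          omega
  have h4 : (mis G' A).card ≤ (mis G' (nb G' v)).card := by
    apply Finset.card_le_card
    intro p hp
    obtain ⟨h5, h6, h7, h8⟩ := mem_mis.mp hp
    exact mem_mis.mpr ⟨hAn h5, hAn h6, h7, h8⟩
  have h5 : s * d ≤ 4 * ((d - k) * (d - 1)) := by
    calc s * d ≤ (2 * (d - k)) * (2 * (d - 1)) := Nat.mul_le_mul hks (by omega)
      _ = 4 * ((d - k) * (d - 1)) := by ring
  have h6 : (2 * s + 1) * d = 2 * (s * d) + d := by ring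
  omega

end Pool.Agent.Work.MP_db9399_og.helper35
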