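import Pool.Agent.Work.MP_db9399_og_helper35.OWNG
import Pool.Agent.Work.MP_db9399_og_helper35.OWNU2
import Pool.Agent.Work.MP_db9399_og.Interface2

/-!
# MP_db9399, OWNG2 (helper35): own colours of `U`, with conflict graph and caps
-/

set_option autoImplicit false

namespace Pool.Agent.Work.MP_db9399_og.helper35

open Finset Classical
open Pool.Agent.Work.MP_db9399_all (nb mis)
open Pool.Agent.Work.MP_db9399_ow (Sig Upt)
open Pool.Agent.Work.MP_db9399_owc (Cap Stmt_OWN2)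
open Pool.Agent.Work.MP_db9399_cg (sx sp pk)
open Pool.Agent.Work.MP_db9399_sg
open Pool.Agent.Work.MP_db9399_ox

universe u

theorem owng2 (hOWN : Stmt_OWN2.{u}) : Stmt_OWNG2.{u} := by
  obtain ⟨n', Nn, x0, hown⟩ := ownu2 hOWN 3 1 40 (by norm_num)
  refine ⟨(n' : ℝ) / 40 + 1, 20 / (Nn + 1), ?_, by positivity, ?_⟩
  · have : (0 : ℝ) ≤ n' := Nat.cast_nonneg _
    linarith
  intro a C C1 e2 ha haN ha1 hC hC1 he2
  obtain ⟨e, he, hee, hCe, hse⟩ := exE C e2 hC he2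
  refine ⟨e, he, ?_⟩
  intro MS δ β c1 C' ρ0 ρ2 hρ0
  obtain ⟨C2, hC2, hC'2⟩ : ∃ C2 : ℝ, 1 ≤ C2 ∧ C' ≤ C2 := ⟨max C' 1, le_max_right _ _, le_max_left _ _⟩
  have hC0 : 0 < C := by linarith
  have hCC2 : 0 < C * C2 := by positivity
  obtain ⟨Q1, q1, q2, q3, q4, q5, q6, q7, q8, q9⟩ : ∃ Q1 : ℝ, (x0 : ℝ) ≤ Q1 ∧ 200 ≤ Q1 ∧
      72 / e2 ≤ Q1 ∧ 2 * C2 / e2 ≤ Q1 ∧ C * C1 ≤ Q1 ∧ (C * C1) ^ 2 ≤ Q1 ∧ 2 * C2 ≤ Q1 ∧
      15 * (C * C2) ≤ Q1 ∧ 2 * (2 : ℝ) ^ n' + 3 * C + 2 ≤ Q1 := by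
    have p1 : (0 : ℝ) ≤ x0 := Nat.cast_nonneg _
    have p2 : 0 < 72 / e2 := by positivity
    have p3 : 0 < 2 * C2 / e2 := by positivity
    have p4 : 0 < C * C1 := by positivity
    have p5 : 0 < (C * C1) ^ 2 := by positivity
    have p6 : 0 < 2 * (2 : ℝ) ^ n' + 3 * C + 2 := by positivity
    refine ⟨x0 + 200 + 72 / e2 + 2 * C2 / e2 + C * C1 + (C * C1) ^ 2 + 2 * C2 +
      15 * (C * C2) + (2 * (2 : ℝ) ^ n' + 3 * C + 2), ?_, ?_, ?_, ?_, ?_, ?_, ?_, ?_, ?_⟩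
    all_goals linarith
  obtain ⟨d0, hd0⟩ := largeG a C Q1 Nn ha
  refine ⟨d0, ?_⟩
  intro V I I' J Y _ _ _ _ _ P cl E Cf H Gh S O W U K A Ex Exc nd pr d D r g L N0 N Z hd hCls hcr
    hsum hUO hEd hEdU hEW hHE hmis hCfU hCf2 hZ hS hK hfl h0 h1
  obtain ⟨h100, hQd, hlog, hNn, h8⟩ := hd0 d hd
  have haN' : a * (Nn + 1) ≤ 20 := by
    have : (0 : ℝ) < (Nn : ℝ) + 1 := by positivity
    rwa [le_div_iff₀ this] at haN
  obtain ⟨x, hx1, hx2, hx3, hx4, hx5, hx6, hx7, hx8, hx9⟩ :=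
    xnum a C Q1 Nn n' d ha ha1 hC haN' q2 h100 hQd hlog hNn h8
  have hd1 : 1 ≤ d := by omega
  have hd' : (0 : ℝ) < d := by exact_mod_cast (show 0 < d by omega)
  have hd1' : (1 : ℝ) ≤ d := by exact_mod_cast hd1
  have hxx : (200 : ℝ) ≤ x := by linarith
  have hxp : (0 : ℝ) < x := by linarith
  obtain ⟨hP, hP2⟩ := P_bd cl D r d C a ha ha1 hd1 hcr hsum hCls.Jc (fun j => (hCls.Dd j).1)
    (fun j => (hCls.rr j).2.2)
  have hF : Fct E H S cl O U nd N := Fct.of hCls hS h0 h1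
  have hS2 : ∀ j v, (nb (S j) v).card ≤ r j + 2 := fun j v => (hS j).cl.hi v
  have hrD : ∀ j, r j ≤ d := fun j => by
    have := hcr j
    have := (hCls.Dd j).1
    omega
  have hnd : ∀ j, ∀ y ∈ O, nd j y = none := fun j y hy =>
    ((hCls.wld j).cov y ((hCls.wld j).OA hy)).mp hy
  have hnO : ∀ j i, ∀ y ∈ nod (nd j) i, y ∉ O := by
    intro j i y hy hyO
    obtain ⟨-, s, hs⟩ := Finset.mem_filter.mp hy
    rw [hnd j y hyO] at hs
    exact absurd hs (by simp)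
  have hn : ∀ j i, ((nod (nd j) i).card : ℝ) ≤ 2 * C2 * d := by
    intro j i
    have h2 : nod (nd j) i ⊆ nsd (nd j) i false ∪ nsd (nd j) i true := by
      intro y hy
      obtain ⟨-, s, hs⟩ := Finset.mem_filter.mp hy
      cases s
      · exact Finset.mem_union_left _ (Finset.mem_filter.mpr ⟨Finset.mem_univ _, hs⟩)
      · exact Finset.mem_union_right _ (Finset.mem_filter.mpr ⟨Finset.mem_univ _, hs⟩)
    have h3 : ((nod (nd j) i).card : ℝ) ≤
        ((nsd (nd j) i false).card : ℝ) + ((nsd (nd j) i true).card : ℝ) := by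
      exact_mod_cast (Finset.card_le_card h2).trans (Finset.card_union_le _ _)
    have h4 := (hCls.wld j).sz2 i false
    have h5 := (hCls.wld j).sz2 i true
    have h6 : C' * (D j : ℝ) ≤ C2 * d :=
      mul_le_mul hC'2 (by exact_mod_cast (hCls.Dd j).1) (Nat.cast_nonneg _) (by linarith)
    linarith
  have hx8' : (d : ℝ) - d / (x : ℝ) ^ (3 + 2 * 1 + 8) ≤ P := by
    refine le_trans ?_ hP2
    have h2 : (3 + 2 * 1 + 8 : ℕ) = 13 := by norm_num
    rw [h2]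
    have h3 : C * (d : ℝ) ^ (1 - a / 3) ≤ d / (x : ℝ) ^ 13 := by
      rw [le_div_iff₀ (by positivity)]
      exact hx7
    linarith
  have hmc := fun v hv => mis_cf E Cf U d v hv (by omega) hEdU hCfU hCf2
  have hdegC : ∀ v, (nb (rC E Cf U) v).card ≤ d := by
    intro v
    by_cases hv : v ∈ U
    · exact (hmc v hv).1
    · have h5 : nb (rC E Cf U) v = ∅ := by
        rw [Finset.eq_empty_iff_forall_notMem]
        intro w hw
        exact hv (mem_nb.mp hw).2.1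
      rw [h5, Finset.card_empty]
      omega
  have hmis' : ∀ v ∈ U, (d : ℝ) ^ 2 / (x : ℝ) ^ 1 ≤
      (((mis (rC E Cf U) (nb (rC E Cf U) v)).card +
        (d - (nb (rC E Cf U) v).card) * (d - 1) : ℕ) : ℝ) := by
    intro v hv
    obtain ⟨X, hX⟩ : ∃ X : ℕ, X = (mis (rC E Cf U) (nb (rC E Cf U) v)).card +
        (d - (nb (rC E Cf U) v).card) * (d - 1) := ⟨_, rfl⟩
    have h2 := (hmc v hv).2
    rw [← hX] at h2
    have h3 : ((mis E (nb E v)).card : ℝ) ≤ 16 * X + d := by exact_mod_cast h2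
    have h4 := hmis v hv
    have h5 : 2 * (d : ℝ) ≤ (d : ℝ) ^ (2 - a / 100) := by
      have h6 : (d : ℝ) ^ (1 + 1 / 2 : ℝ) ≤ (d : ℝ) ^ (2 - a / 100) :=
        Real.rpow_le_rpow_of_exponent_le hd1' (by linarith)
      have h7 : (2 : ℝ) ≤ (d : ℝ) ^ (1 / 2 : ℝ) := by
        rw [← Real.sqrt_eq_rpow]
        apply Real.le_sqrt_of_sq_le
        have : (100 : ℝ) ≤ d := by exact_mod_cast h100
        linarith
      rw [Real.rpow_add hd', Real.rpow_one] at h6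
      nlinarith
    rw [← hX]
    have h8 : (d : ℝ) ^ 2 = (d : ℝ) ^ (2 - a / 100) * (d : ℝ) ^ (a / 100) := by
      rw [← Real.rpow_add hd', ← Real.rpow_natCast]
      congr 1
      push_cast
      ring
    rw [pow_one, div_le_iff₀ hxp, h8]
    have h9 : (d : ℝ) ^ (2 - a / 100) ≤ 32 * X := by linarith
    have h10 : (0 : ℝ) ≤ (d : ℝ) ^ (a / 100) := by positivity
    calc (d : ℝ) ^ (2 - a / 100) * (d : ℝ) ^ (a / 100)
        ≤ 32 * X * (d : ℝ) ^ (a / 100) := mul_le_mul_of_nonneg_right h9 h10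
      _ = X * ((d : ℝ) ^ (a / 100) * 32) := by ring
      _ ≤ X * x := mul_le_mul_of_nonneg_left hx5 (Nat.cast_nonneg _)
  have hsig := sig_all (P := P) (r := r) (D := D) (L := L) (d := d) (a := a) (x := (x : ℝ)) hF hUO hHE
    hEd hK ha hC hC2 hC1 he hCe hd1 hCls.Dd hCls.Jc hS2 hrD hCls.rd hn (by linarith)
    (q5.trans hx1) (q6.trans hx1) hx6
  have hupt := upt_all (a := a) (x := (x : ℝ)) hF hP hd1 hS2 hrD hn (by linarith) (q7.trans hx1)
  have hsx1 := one_le_sx d a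
  have hsxd : 0 ≤ sx d a * (d : ℝ) ^ 2 := by positivity
  have hsig' := Sig.mono hsig le_rfl
    ((mul_le_mul_of_nonneg_right q8 hsxd).trans hx9)
    (fun _ => le_rfl)
  have hupt' := Upt.mono hupt le_rfl
    ((mul_le_mul_of_nonneg_right (show (8 : ℝ) ≤ Q1 by linarith) hsxd).trans hx9)
  have hx0 : x0 ≤ x := by
    exact_mod_cast q1.trans hx1
  obtain ⟨c, hcC, hs, hm, hu, hcap⟩ := hown (rC E Cf U) U d x P _ _ Y _ _ _ _ Z
    hx0 hx2 hx4 (by omega) hx8' hdegC (fun v w h => h.2.1) hmis' hsig' hupt' hZ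
  clear hsig' hupt' hsig hupt hown hd0 hmis' hmc hdegC
  have hc : ∀ v ∈ U, ∀ w ∈ U, E.Adj v w → c v ≠ c w := fun v hv w hw h =>
    hcC v w ⟨Or.inl h, hv, hw⟩
  have hxi : (0 : ℝ) ≤ 1 / x := by positivity
  have hx13 : 1 / (x : ℝ) ≤ e2 / 72 := by
    rw [div_le_div_iff₀ hxp (by norm_num), one_mul]
    have := q3.trans hx1
    rwa [div_le_iff₀ he2, mul_comm] at this
  have hd72 : 18 / (d : ℝ) ≤ e2 / 4 := by
    rw [div_le_div_iff₀ hd' (by norm_num)]
    have := (q3.trans hx1).trans hx3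
    rw [div_le_iff₀ he2] at this
    linarith
  have h2C2 : 2 * C2 ≤ e2 * x := by
    have := q4.trans hx1
    rw [div_le_iff₀ he2] at this
    linarith
  -- upper tests
  have hA : ∀ y, ((univ.filter fun b => N b y ≠ y ∧ cU U c (N b y) = some b).card : ℝ) ≤
      (x : ℝ) ^ n' := fun y =>
    le_trans (Nat.cast_le.mpr (cntA hF.NN y)) (hu (Sum.inl y))
  have hB : ∀ b y, (((nb (S (cl b)) y).filter fun z => N b z ≠ z ∧
      cU U c (N b z) = some b).card : ℝ) ≤ (x : ℝ) ^ n' := fun b y =>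
    le_trans (Nat.cast_le.mpr (cntN (τ := Fin P × V) hF.NN Prod.fst
      (fun t => nb (S (cl t.1)) t.2) (b, y))) (hu (Sum.inr (Sum.inl (b, y))))
  have hI : ∀ b y, (((nb (S (cl b)) y).filter fun z => cU U c z = some b).card : ℝ) ≤
      (x : ℝ) ^ n' := fun b y =>
    le_trans (Nat.cast_le.mpr (cntI (τ := Fin P × V) Prod.fst
      (fun t => nb (S (cl t.1)) t.2) (b, y))) (hu (Sum.inr (Sum.inr (Sum.inl (b, y)))))
  have hNo : ∀ b i, (((nod (nd (cl b)) i).filter fun z => N b z ≠ z ∧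
      cU U c (N b z) = some b).card : ℝ) ≤ (x : ℝ) ^ n' := fun b i =>
    le_trans (Nat.cast_le.mpr (cntN (τ := Fin P × I) hF.NN Prod.fst
      (fun t => nod (nd (cl t.1)) t.2) (b, i))) (hu (Sum.inr (Sum.inr (Sum.inr (b, i)))))
  obtain ⟨hsp1, hsp2⟩ := sp_num a C ((x : ℝ) ^ n') n' d ha hd1 (q9.trans hQd) hC0.le hx8
  have hX0 : (0 : ℝ) ≤ (x : ℝ) ^ n' := by positivity
  have hNN : ∀ b, ∀ z ∈ O, N b z = z → N0 b z = z := by
    intro b z _ h2
    by_contra h3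
    have h4 := h1.ext b z h3
    rw [h2] at h4
    exact h3 h4.symm
  have hr2 : ∀ j, (2 : ℝ) ≤ r j := by
    intro j
    have h2 := hCls.rd j
    have h3 : (2 : ℝ) ≤ (d : ℝ) ^ (1 - a) := by
      have h4 : (d : ℝ) ^ (1 / 2 : ℝ) ≤ (d : ℝ) ^ (1 - a) :=
        Real.rpow_le_rpow_of_exponent_le hd1' (by linarith)
      have h5 : (2 : ℝ) ≤ (d : ℝ) ^ (1 / 2 : ℝ) := by
        rw [← Real.sqrt_eq_rpow]
        apply Real.le_sqrt_of_sq_le
        have : (100 : ℝ) ≤ d := by exact_mod_cast h100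
        linarith
      linarith
    linarith
  refine ⟨cU U c, ?_, ?_, ?_⟩
  rotate_left
  · intro v w hvw hcc
    have hv := hCfU v w hvw
    have hw := hCfU w v hvw.symm
    unfold cU at hcc
    rw [if_pos hv, if_pos hw] at hcc
    exact hcC v w ⟨Or.inr hvw, hv, hw⟩ (Option.some.inj hcc)
  · intro y b
    refine le_trans (Nat.cast_le.mpr (Finset.card_le_card ?_)) (hcap y b)
    intro v hv
    obtain ⟨h2, h3⟩ := Finset.mem_filter.mp hv
    exact Finset.mem_filter.mpr ⟨h2, (cU_eq.mp h3).2⟩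
  refine ⟨hUO, ?_, ?_, ⟨?_, ?_, ?_⟩, ?_, ?_, ?_, ?_, ?_, ?_⟩
  · intro v
    unfold cU
    split_ifs with h
    · simp [h]
    · simp [h]
  · intro v w hvw hcv hcw
    unfold cU at hcv hcw
    split_ifs at hcv hcw with h2 h3
    · exact hc v h2 w h3 hvw (Option.some.inj hcw)
    · exact hcv rfl
  · intro y
    refine (t1_cnt hF hCls.Jc y (hA y)).trans ?_
    linarith
  · intro b y
    refine (t2_cnt b y (hNN b) (h0.tok b y) (hB b y)).trans ?_
    linarith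
  · intro j y
    refine (out3 hF hP hd1 hS2 j y (1 / x) (hm (Sum.inr (Sum.inr (Sum.inl (j, y)))))).trans ?_
    have h2 := hr2 j
    have h3 : (1 : ℝ) / x ≤ 1 := by
      rw [div_le_one hxp]
      linarith
    nlinarith
  · intro b y
    refine (ow_cnt hUO b y (hB b y) (hI b y)).trans ?_
    linarith
  · intro j v
    have h2 : ∑ b, |∑ y ∈ U.filter (fun y => c y = b),
        gS U N (Ac cl) (f1 S O r L) (j, v) b y| ≤
        1 / (d : ℝ) * ∑ b, |∑ y ∈ U, gS U N (Ac cl) (f1 S O r L) (j, v) b y| +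
          (130 * Real.sqrt (C * e) + 1 / x) := hs (Sum.inl (j, v))
    refine (out1 hF hUO hHE hc hK he hP hd1 j v (hfl j) _ h2).trans ?_
    apply add_le_add le_rfl
    have h4 : 8 * e ≤ e2 := by nlinarith
    linarith
  · intro j v
    refine (out2 hF hUO hHE hEd hK hC0 he hd1 (fun j => (hCls.Dd j).2) j v (1 / x)
      (hm (Sum.inr (Sum.inl (j, v))))).trans ?_
    apply div_le_div_of_nonneg_right _ hd'.le
    linarith
  · intro v
    refine (vdc_cnt v (hA v)).trans ?_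
    linarith
  · intro b i
    refine (ndc_cnt hUO hnO b i (hNo b i)).trans ?_
    linarith
  · intro j i
    have h2q : 0 < 2 * C2 * d := by positivity
    refine (out4 hF hUO hd1 hnO h2q j i (1 / x)
      (hm (Sum.inr (Sum.inr (Sum.inr (j, i)))))).trans ?_
    have h3 : 0 ≤ (∑ v ∈ nod (nd j) i, ((nb (H j) v).card : ℝ)) / d :=
      div_nonneg (Finset.sum_nonneg fun _ _ => Nat.cast_nonneg _) hd'.le
    have h4 : 2 * C2 * d * (1 / (x : ℝ)) ≤ e2 * d := by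
      rw [mul_one_div, div_le_iff₀ hxp]
      have := mul_le_mul_of_nonneg_right h2C2 hd'.le
      linarith
    linarith

end Pool.Agent.Work.MP_db9399_og.helper35
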