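import Pool.Agent.Work.MP_db9399_og_helper35.AXT

/-! # MP_db9399, ANT (helper35): the reserves of all classes, with lower tests -/

set_option autoImplicit false

namespace Pool.Agent.Work.MP_db9399_og.helper35

open Finset Classical
open Pool.Agent.Work.MP_db9399_all (nb)
open Pool.Agent.Work.MP_db9399_cg
open Pool.Agent.Work.MP_db9399_sg
open Pool.Agent.Work.MP_db9399_sg.helper35 (ResX DV dbl cop rst rst_le card_rst card_rst' card_rst_eq
  card_rst_le cut_rst numN reg_dbl dbl_ff dbl_ft card_cop Stmt_A5N)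

universe u

/-- fewer tests, larger `ρ` -/
theorem resX_res {V : Type u} [Fintype V] {G S : SimpleGraph V} {d f q q' : ℕ} {a ρ ρ' MS : ℝ}
    {K Exc : Finset V} {X : Fin q → V → V → Prop} {X' : Fin q' → V → V → Prop}
    (R : ResX G S d f q a ρ MS K Exc X) (hρ : ρ ≤ ρ') (ι : Fin q' → Fin q)
    (hX : ∀ j v w, X' j v w ↔ X (ι j) v w) : ResX G S d f q' a ρ' MS K Exc X' := by
  have hf : (0 : ℝ) ≤ 2 * f := by positivity
  refine ⟨R.sub, R.rlo, R.rhi, R.lo, R.hi, R.off, fun v => (R.exc v).trans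
    (mul_le_mul_of_nonneg_right hρ hf), R.K1, R.K2, R.K3, ?_, R.cmp⟩
  intro j v B hB0 hB1 h
  have e : ∀ Y : Finset V, (Y.filter fun w => X' j v w).card =
      (Y.filter fun w => X (ι j) v w).card := by
    intro Y
    apply le_antisymm
    · apply Finset.card_le_card
      intro w hw
      obtain ⟨h1, h2⟩ := Finset.mem_filter.mp hw
      exact Finset.mem_filter.mpr ⟨h1, (hX j v w).mp h2⟩
    · apply Finset.card_le_card
      intro w hw
      obtain ⟨h1, h2⟩ := Finset.mem_filter.mp hw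
      exact Finset.mem_filter.mpr ⟨h1, (hX j v w).mpr h2⟩
  rw [e] at h ⊢
  exact (R.tst (ι j) v B hB0 hB1 h).trans (mul_le_mul_of_nonneg_right (by linarith) hf)

attribute [-instance] Subtype.instDecidableEq instDecidableEqProd

theorem mem_nb' {V : Type u} [Fintype V] {G : SimpleGraph V} {v w : V} :
    w ∈ nb G v ↔ G.Adj v w := by simp [nb]

/-- the reserve of the class `j` -/
theorem resN_of (a ρ0 ρ2 MS C δ β c1 : ℝ) (ha : 0 < a) (ha1 : a ≤ 1 / 100) (hρ2 : 0 < ρ2)
    (hρ02 : ρ2 ≤ ρ0) (hρ1 : ρ0 ≤ 1) (hMS : 1 ≤ MS) (hC : 1 ≤ C) (hδ : 0 < δ) (hβ : 0 < β)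
    (hc1 : 0 < c1) (hc11 : c1 ≤ 1) (DN : ℕ)
    (HN : ∀ D : ℕ, DN ≤ D → 2 ≤ D ∧ 20000 ≤ (D : ℝ) ^ (1 - a) ∧
      3 / ρ2 ≤ (D : ℝ) ^ (1 - a) ∧ 5 * (D : ℝ) ^ (-a) ≤ c1 / 25 ∧
      2 ≤ (D : ℝ) ^ (1 - a) * (D : ℝ) ^ (-a) ∧
      125 * MS * C * (D : ℝ) ^ (-a) ≤ (D : ℝ) ^ (-(a / 200)))
    {V I J : Type u} [Fintype V] [Fintype I] (H Gh : J → SimpleGraph V)
    (O : Finset V) (A Ex : J → Finset V)
    (nd : J → V → Option (I × Bool)) (d : ℕ) (D r : J → ℕ) (g : ℝ)
    (hD : ∀ j, D j ≤ d ∧ (d : ℝ) ≤ C * D j)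
    (hg : (d : ℝ) ^ (-(a / 200)) ≤ g) (hg1 : g ≤ 1)
    (hW : ∀ j, Wld (H j) (Gh j) O (A j) (Ex j) (nd j) (D j) MS g δ β c1 C ρ0)
    (hDN : ∀ j, DN ≤ D j)
    (hsup : ∀ j v w, (Gh j).Adj v w → w ∈ A j)
    (K' : Finset (V × Bool)) (M' : Bool → Finset (V × Bool)) (f : J → ℕ)
    (hf1 : ∀ j, r j = 2 * f j - 1) (hf2 : ∀ j, 1 ≤ f j) (S2 : ∀ j, SimpleGraph (DV (A j)))
    (R : ∀ j, ResX (dbl (Gh j) (A j) (D j)) (S2 j) (D j) (f j) 2 a ρ2 MS
        (univ.filter fun x : DV (A j) => x.1 ∈ K')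
        ((univ.filter fun x : DV (A j) => x.1 ∈ M' true) ∪
          (univ.filter fun x : DV (A j) => x.1 ∈ M' false))
        ![fun x y => (H j).Adj x.1.1 y.1.1, fun _ y => y ∈ cop (A j) false (Ex j)]) (j : J) :
    ResN (H j) (Gh j) (rst (A j) (S2 j)) O (A j) (D j) (r j) a (g / 100) δ (2 * β + 8 * ρ0)
      (c1 / 100) (8 * ρ0) (8 * ρ2) MS (univ.filter fun v => (v, false) ∈ K')
      (Ex j ∪ univ.filter fun v => (v, false) ∈ M' true ∨ (v, false) ∈ M' false) := by
  have hρ : 0 < ρ0 := hρ2.trans_le hρ02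
  rw [hf1 j]
  obtain ⟨n1, n2', n3, n4, n5, n6⟩ := HN (D j) (hDN j)
  have Rj := R j
  have Wj := hW j
  have hDp : (0 : ℝ) < D j := by
    have : (2 : ℝ) ≤ D j := by exact_mod_cast n1
    linarith
  have hfR := Rj.rlo
  have hf2 : (20000 : ℝ) ≤ 2 * f j := by linarith
  have hfN : 1 ≤ f j := by
    have : (1 : ℝ) ≤ f j := by linarith
    exact_mod_cast this
  have hr : ((2 * f j - 1 : ℕ) : ℝ) = 2 * (f j : ℝ) - 1 := by
    rw [Nat.cast_sub (by omega)]
    push_cast
    ring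
  have hrn : 2 * f j - 1 + 2 = 2 * f j + 1 := by omega
  have hpow : 0 < (D j : ℝ) ^ (-a) := Real.rpow_pos_of_pos hDp _
  have hnum : 2 / (2 * (f j : ℝ) + 1) ≤ (D j : ℝ) ^ (-a) := by
    rw [div_le_iff₀ (by positivity)]
    have h1 : (D j : ℝ) ^ (1 - a) * (D j : ℝ) ^ (-a) ≤ (2 * (f j : ℝ) + 1) * (D j : ℝ) ^ (-a) :=
      mul_le_mul_of_nonneg_right (by linarith) hpow.le
    linarith
  have hcut := fun T hTA hT => cut_rst (hsup j) Rj hnum T hTA hT
  have hempty : ∀ v, v ∉ A j → nb (rst (A j) (S2 j)) v = ∅ := by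
    intro v hv
    rw [eq_empty_iff_forall_notMem]
    intro y hy
    exact hv (mem_nb'.1 hy).1
  -- test sets
  have hX : ∀ (v : V) (hv : v ∈ A j) (Y : Finset V), (nb (dbl (Gh j) (A j) (D j)) ⟨(v, false), hv⟩ ∩
      cop (A j) false Y).card ≤ (nb (Gh j) v ∩ Y).card := by
    intro v hv Y
    refine card_le_card_of_injOn (fun x => x.1.1) ?_ ?_
    · intro x hx
      rw [mem_coe, mem_inter, cop, mem_filter] at hx
      rw [mem_coe, mem_inter]
      exact ⟨mem_nb'.2 (dbl_ff (mem_nb'.1 hx.1) hx.2.2.2.symm), hx.2.2.1⟩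
    · intro x hx y hy hxy
      rw [mem_coe, mem_inter, cop, mem_filter] at hx hy
      apply Subtype.ext
      exact Prod.ext hxy (hx.2.2.2.trans hy.2.2.2.symm)
  have hEx : ∀ v, ((nb (rst (A j) (S2 j)) v ∩ Ex j).card : ℝ) ≤ 3 * ρ0 * (2 * f j) := by
    intro v
    by_cases hv : v ∈ A j
    · rw [card_rst v hv (Ex j)]
      have h1 := Rj.tst 1 ⟨(v, false), hv⟩ ρ0 hρ.le hρ1 (by
        refine le_trans ?_ (Wj.exc v)
        refine Nat.cast_le.2 (le_trans (card_le_card ?_) (hX v hv (Ex j)))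
        intro y hy
        rw [mem_filter] at hy
        exact mem_inter.2 ⟨hy.1, hy.2⟩)
      have e : (2 * ρ0 + ρ2) * (2 * (f j : ℝ)) ≤ 3 * ρ0 * (2 * f j) :=
        mul_le_mul_of_nonneg_right (by linarith) (by positivity)
      refine le_trans (Nat.cast_le.2 (card_le_card ?_)) (h1.trans e)
      intro y hy
      rw [mem_inter] at hy
      rw [mem_filter]
      exact ⟨hy.1, hy.2⟩
    · rw [hempty v hv, empty_inter, card_empty, Nat.cast_zero]
      positivity
  have hlg : ∀ v, v ∉ O → (((nb (rst (A j) (S2 j)) v).filter fun w => (H j).Adj v w).card : ℝ) ≤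
      (2 * (((nb (H j) v).card : ℝ) / D j) + 8 * ρ2) * ((2 * f j - 1 : ℕ) : ℝ) := by
    intro v hv
    by_cases hvA : v ∈ A j
    · have h1 : (nb (rst (A j) (S2 j)) v).filter (fun w => (H j).Adj v w) =
          nb (rst (A j) (S2 j)) v ∩ univ.filter fun w => (H j).Adj v w := by
        ext w
        simp
      have h2 : (((nb (dbl (Gh j) (A j) (D j)) ⟨(v, false), hvA⟩).filter fun y =>
          (H j).Adj v y.1.1).card : ℝ) ≤ ((nb (H j) v).card : ℝ) := by
        refine Nat.cast_le.2 (card_le_card_of_injOn (fun x => x.1.1) ?_ ?_)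
        · intro x hx
          rw [mem_coe, mem_filter] at hx
          exact mem_coe.2 (mem_nb'.2 hx.2)
        · intro x hx y hy hxy
          rw [mem_coe, mem_filter] at hx hy
          have k : ∀ z : DV (A j), z ∈ nb (dbl (Gh j) (A j) (D j)) ⟨(v, false), hvA⟩ →
              (H j).Adj v z.1.1 → z.1.2 = false := by
            intro z hz1 hz2
            by_contra hcon
            have h3 := dbl_ft (mem_nb'.1 hz1) (fun h => hcon h.symm)
            have h4 : z.1.1 = v := h3.1.symm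
            rw [h4] at hz2
            exact (H j).loopless.irrefl v hz2
          apply Subtype.ext
          exact Prod.ext hxy ((k x hx.1 hx.2).trans (k y hy.1 hy.2).symm)
      have h4 : ((nb (H j) v).card : ℝ) ≤ 1 * D j := by
        rw [one_mul]
        refine Nat.cast_le.2 (le_trans (card_le_card ?_) (Wj.dex v hvA).1)
        intro w hw
        exact mem_nb'.2 (Wj.HG (mem_nb'.1 hw))
      set B : ℝ := ((nb (H j) v).card : ℝ) / D j with hB
      have hB0 : 0 ≤ B := by positivity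
      have hB1 : B ≤ 1 := by
        rw [hB, div_le_iff₀ hDp]
        exact h4
      have h4' : ((nb (H j) v).card : ℝ) ≤ B * D j := by
        rw [hB, div_mul_cancel₀ _ hDp.ne']
      have h5 := Rj.tst 0 ⟨(v, false), hvA⟩ B hB0 hB1 (h2.trans h4')
      have h5' : (((nb (rst (A j) (S2 j)) v).filter fun w => (H j).Adj v w).card : ℝ) ≤
          (2 * B + ρ2) * (2 * (f j : ℝ)) := by
        rw [h1, card_rst v hvA]
        refine le_trans (Nat.cast_le.2 (card_le_card ?_)) h5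
        intro x hx
        rw [mem_inter, cop, mem_filter, mem_filter] at hx
        rw [mem_filter]
        exact ⟨hx.1, hx.2.2.1.2⟩
      rw [hr]
      have h8 : 3 ≤ ρ2 * (2 * (f j : ℝ)) := by
        have h9 := n3
        rw [div_le_iff₀ hρ2] at h9
        have h10 : (D j : ℝ) ^ (1 - a) * ρ2 ≤ (2 * (f j : ℝ)) * ρ2 :=
          mul_le_mul_of_nonneg_right (by linarith) hρ2.le
        linarith
      have h10 : (2 * B + ρ2) * (2 * (f j : ℝ)) ≤ (2 * B + 8 * ρ2) * (2 * (f j : ℝ) - 1) := by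
        have e1 : (2 * B + 8 * ρ2) * (2 * (f j : ℝ) - 1) - (2 * B + ρ2) * (2 * (f j : ℝ)) =
          7 * (ρ2 * (2 * (f j : ℝ))) - 8 * ρ2 - 2 * B := by ring
        linarith
      exact h5'.trans h10
    · rw [hempty v hvA, filter_empty, card_empty, Nat.cast_zero, hr]
      refine mul_nonneg (by positivity) (by linarith)
  refine ⟨fun v w h => rst_le Rj.sub h, ?_, hlg, ?_, ?_, ⟨?_, ?_, ?_, ?_, ?_, ?_⟩,
    ?_, ?_, ?_, ?_, ?_⟩
  · -- eg
    intro v hv
    have h1 := Rj.lo ⟨(v, false), hv⟩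
    have h2 := Wj.dex v hv
    by_cases h3 : (nb (Gh j) v).card + 1 = D j
    · have h4 := card_rst' Rj.sub v hv univ
      rw [inter_univ] at h4
      have h5 := card_le_card (filter_subset (fun w => ∃ hw : w ∈ A j,
        (⟨(w, false), hw⟩ : DV (A j)) ∈ univ) (nb (rst (A j) (S2 j)) v))
      omega
    · have h4 := card_rst_eq Rj.sub v hv h3
      omega
  · rw [hr]
    linarith
  · rw [hr]
    linarith [Rj.rhi]
  · -- sup
    intro v w h
    exact h.1
  · -- lo
    intro v hv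
    have h1 := card_rst' Rj.sub v hv univ
    rw [inter_univ] at h1
    have h2 := Rj.lo ⟨(v, false), hv⟩
    have h3 := card_le_card (filter_subset (fun w => ∃ hw : w ∈ A j,
      (⟨(w, false), hw⟩ : DV (A j)) ∈ univ) (nb (rst (A j) (S2 j)) v))
    omega
  · -- hi
    intro v
    by_cases hv : v ∈ A j
    · have h1 := card_rst_le (S2 := S2 j) v hv
      have h2 := Rj.hi ⟨(v, false), hv⟩
      omega
    · rw [hempty v hv, card_empty]
      omega
  · -- sm
    intro T hTA hT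
    have hT0 : (0 : ℝ) ≤ T.card := Nat.cast_nonneg _
    have hT1 : (T.card : ℝ) ≤ c1 * D j := by
      refine hT.trans (mul_le_mul_of_nonneg_right (by linarith) hDp.le)
    have hT2 : (T.card : ℝ) ≤ MS * D j :=
      hT1.trans (mul_le_mul_of_nonneg_right (by linarith) hDp.le)
    have h1 := Wj.sm T hTA hT1
    have h2 := hcut T hTA hT2
    have h3 : 5 * (D j : ℝ) ^ (-a) * T.card ≤ c1 / 25 * T.card :=
      mul_le_mul_of_nonneg_right n4 hT0
    have h4 : 0 ≤ c1 * T.card := by positivity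
    linarith
  · -- cl
    intro T hTA hT hcl
    refine Wj.cl T hTA hT ?_
    have h2 := hcut T hTA hT
    have h3 : 5 * (D j : ℝ) ^ (-a) * T.card ≤ 5 * (D j : ℝ) ^ (-a) * (MS * D j) :=
      mul_le_mul_of_nonneg_left hT (by positivity)
    have hg' : (D j : ℝ) ^ (-(a / 200)) ≤ C * g := by
      have hd0 : (0 : ℝ) < d := by
        have h5 : (D j : ℝ) ≤ d := by exact_mod_cast (hD j).1
        linarith
      have h5 : (C * D j : ℝ) ^ (-(a / 200)) ≤ (d : ℝ) ^ (-(a / 200)) :=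
        Real.rpow_le_rpow_of_nonpos hd0 (hD j).2 (by linarith)
      rw [Real.mul_rpow (by linarith) hDp.le] at h5
      have h6 : C ^ (-(1 : ℝ)) ≤ C ^ (-(a / 200)) :=
        Real.rpow_le_rpow_of_exponent_le hC (by linarith)
      rw [Real.rpow_neg (by linarith), Real.rpow_one] at h6
      have h7 : C⁻¹ * (D j : ℝ) ^ (-(a / 200)) ≤ g :=
        (mul_le_mul_of_nonneg_right h6 (Real.rpow_nonneg hDp.le _)).trans (h5.trans hg)
      rw [inv_mul_le_iff₀ (by linarith)] at h7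
      exact h7
    have h8 : 125 * MS * (D j : ℝ) ^ (-a) ≤ g := by
      have h9 : C * (125 * MS * (D j : ℝ) ^ (-a)) ≤ C * g := by
        refine le_trans (le_of_eq (by ring)) (n6.trans hg')
      exact le_of_mul_le_mul_left h9 (by linarith)
    have h10 : 125 * MS * (D j : ℝ) ^ (-a) * D j ≤ g * D j := mul_le_mul_of_nonneg_right h8 hDp.le
    have e1 : 5 * (D j : ℝ) ^ (-a) * (MS * D j) = 1 / 25 * (125 * MS * (D j : ℝ) ^ (-a) * D j) := by
      ring
    rw [e1] at h3
    have hgD : 0 ≤ g * D j := by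
      refine le_trans ?_ h10
      have : 0 ≤ MS := by linarith
      positivity
    linarith
  · -- cr
    intro v hv
    by_cases hvA : v ∈ A j
    · have hb : ((nb (H j) v).card : ℝ) / D j ≤ β := by
        rw [div_le_iff₀ hDp]
        exact Wj.lgt v hv
      refine le_trans (le_trans (Nat.cast_le.2 (card_le_card ?_)) (hlg v hv))
        (mul_le_mul_of_nonneg_right (by linarith) (Nat.cast_nonneg _))
      intro w hw
      rw [mem_inter] at hw
      rw [mem_filter]
      refine ⟨hw.1, ?_⟩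
      by_contra hcon
      obtain ⟨i, s, _, h4⟩ := Wj.gad v w (rst_le Rj.sub (mem_nb'.1 hw.1)) hcon
      have h5 := (Wj.cov w (Wj.OA hw.2)).1 hw.2
      rw [h5] at h4
      exact absurd h4 (by simp)
    · rw [hempty v hvA, empty_inter, card_empty, Nat.cast_zero, hr]
      refine mul_nonneg (by positivity) (by linarith)
  · -- off
    intro v hvA hv
    rw [mem_union, not_or, mem_filter, not_and] at hv
    have h1 := hv.2 (mem_univ _)
    rw [not_or] at h1
    have h2 := Wj.deg v hvA hv.1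
    rw [card_rst_eq Rj.sub v hvA (by omega)]
    have h3 := Rj.off ⟨(v, false), hvA⟩ (by
      rw [mem_union, mem_filter, mem_filter, not_or]
      exact ⟨fun h => h1.1 h.2, fun h => h1.2 h.2⟩)
    rw [h3]
    omega
  · -- exc
    intro v
    rw [inter_union_distrib_left]
    have h1 : ((nb (rst (A j) (S2 j)) v ∩ univ.filter fun w => (w, false) ∈ M' true ∨
        (w, false) ∈ M' false).card : ℝ) ≤ ρ0 * (2 * f j) := by
      by_cases hv : v ∈ A j
      · refine le_trans ?_ ((Rj.exc ⟨(v, false), hv⟩).trans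
          (mul_le_mul_of_nonneg_right hρ02 (by positivity)))
        rw [card_rst v hv]
        refine Nat.cast_le.2 (card_le_card ?_)
        refine inter_subset_inter_left ?_
        intro x hx
        rw [cop, mem_filter, mem_filter] at hx
        have h4 : x.1 = (x.1.1, false) := Prod.ext rfl hx.2.2
        rw [mem_union, mem_filter, mem_filter, h4]
        rcases hx.2.1.2 with h | h
        · exact Or.inl ⟨mem_univ _, h⟩
        · exact Or.inr ⟨mem_univ _, h⟩
      · rw [hempty v hv, empty_inter, card_empty, Nat.cast_zero]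
        positivity
    have h2 := hEx v
    have h3 : ((nb (rst (A j) (S2 j)) v ∩ Ex j ∪ (nb (rst (A j) (S2 j)) v ∩ univ.filter fun w =>
        (w, false) ∈ M' true ∨ (w, false) ∈ M' false)).card : ℝ) ≤
        ((nb (rst (A j) (S2 j)) v ∩ Ex j).card : ℝ) +
        ((nb (rst (A j) (S2 j)) v ∩ univ.filter fun w =>
        (w, false) ∈ M' true ∨ (w, false) ∈ M' false).card : ℝ) := by
      exact_mod_cast card_union_le _ _
    rw [hr]
    nlinarith
  · -- K1
    intro v hv w hw h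
    rw [mem_filter] at hv hw
    obtain ⟨h1, h2, h3⟩ := h
    exact Rj.K1 ⟨(v, false), h1⟩ (by rw [mem_filter]; exact ⟨mem_univ _, hv.2⟩) ⟨(w, false), h2⟩
      (by rw [mem_filter]; exact ⟨mem_univ _, hw.2⟩) h3
  · -- K2
    intro v hvA hv
    rw [mem_filter, not_and] at hv
    have h1 := Rj.K2 ⟨(v, false), hvA⟩ (by
      rw [mem_filter]
      exact fun h => hv (mem_univ _) h.2)
    have h2 := card_rst' Rj.sub v hvA (univ.filter fun x : DV (A j) => x.1 ∈ K')
    have h3 : ((nb (rst (A j) (S2 j)) v).filter fun w => ∃ hw : w ∈ A j,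
        (⟨(w, false), hw⟩ : DV (A j)) ∈ univ.filter fun x : DV (A j) => x.1 ∈ K') ⊆
        nb (rst (A j) (S2 j)) v ∩ univ.filter fun v => (v, false) ∈ K' := by
      intro w hw
      rw [mem_filter] at hw
      obtain ⟨h4, h5, h6⟩ := hw
      rw [mem_filter] at h6
      rw [mem_inter, mem_filter]
      exact ⟨h4, mem_univ _, h6.2⟩
    have h4 : ((nb (S2 j) ⟨(v, false), hvA⟩ ∩ univ.filter fun x : DV (A j) => x.1 ∈ K').card : ℝ) ≤
        ((nb (rst (A j) (S2 j)) v ∩ univ.filter fun v => (v, false) ∈ K').card : ℝ) + 1 := by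
      exact_mod_cast h2.trans (Nat.add_le_add_right (card_le_card h3) 1)
    rw [hr]
    linarith
  · -- K3
    intro v hvA
    have h1 := Rj.K3 ⟨(v, false), hvA⟩
    have h2 := card_rst' Rj.sub v hvA (univ.filter fun x : DV (A j) => ¬ x.1 ∈ K')
    have h3 : ((nb (rst (A j) (S2 j)) v).filter fun w => ∃ hw : w ∈ A j,
        (⟨(w, false), hw⟩ : DV (A j)) ∈ univ.filter fun x : DV (A j) => ¬ x.1 ∈ K') ⊆
        nb (rst (A j) (S2 j)) v \ univ.filter fun v => (v, false) ∈ K' := by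
      intro w hw
      rw [mem_filter] at hw
      obtain ⟨h4, h5, h6⟩ := hw
      rw [mem_filter] at h6
      rw [Finset.mem_sdiff, mem_filter]
      exact ⟨h4, fun h => h6.2 h.2⟩
    have h5 : (nb (S2 j) ⟨(v, false), hvA⟩ \ univ.filter fun x : DV (A j) => x.1 ∈ K') ⊆
        nb (S2 j) ⟨(v, false), hvA⟩ ∩ univ.filter fun x : DV (A j) => ¬ x.1 ∈ K' := by
      intro x hx
      rw [Finset.mem_sdiff, mem_filter] at hx
      rw [mem_inter, mem_filter]
      exact ⟨hx.1, mem_univ _, fun h => hx.2 ⟨mem_univ _, h⟩⟩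
    have h4 : ((nb (S2 j) ⟨(v, false), hvA⟩ \ univ.filter fun x : DV (A j) => x.1 ∈ K').card : ℝ) ≤
        ((nb (rst (A j) (S2 j)) v \ univ.filter fun v => (v, false) ∈ K').card : ℝ) + 1 := by
      exact_mod_cast (card_le_card h5).trans (h2.trans (Nat.add_le_add_right (card_le_card h3) 1))
    rw [hr]
    linarith


/-- **ANT** -/
theorem stmt_ANT (hA1T : Stmt_A1T.{u}) (hA34 : Stmt_A34.{u}) (hA5 : Stmt_A5N.{u}) :
    Stmt_ANT.{u} := by
  intro a ρ0 ρ2 MS C δ β c1 q ha ha1 hρ2 hρ02 hρ1 hMS hC hδ hβ hc1 hc11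
  have hρ : 0 < ρ0 := hρ2.trans_le hρ02
  obtain ⟨n2, dX, hn4, HX⟩ := resXT.{u} hA34 hA5 a (ρ2 / 16) MS (q + 2) ha ha1 (by positivity)
  obtain ⟨d1, H1⟩ := hA1T a C n2 (q + 2) ha ha1 hn4 hC
  obtain ⟨DN, HN⟩ := numN a ρ2 MS C c1 ha ha1 hc1
  refine ⟨max d1 ⌈C * (max dX DN : ℕ)⌉₊, ?_⟩
  intro V I J _ _ _ H Gh O A Ex Y nd d D r g hd hD hJ hg hg1 hr0 hW
  have hd1 : d1 ≤ d := (le_max_left _ _).trans hd
  have hDX : ∀ j, max dX DN ≤ D j := by
    intro j
    have h1 : C * (max dX DN : ℕ) ≤ (d : ℝ) :=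
      (Nat.le_ceil _).trans (by exact_mod_cast (le_max_right _ _).trans hd)
    have h2 := (hD j).2
    have h3 : C * ((max dX DN : ℕ) : ℝ) ≤ C * D j := h1.trans h2
    have h4 : ((max dX DN : ℕ) : ℝ) ≤ D j := le_of_mul_le_mul_left h3 (by linarith)
    exact_mod_cast h4
  have hsup : ∀ j v w, (Gh j).Adj v w → w ∈ A j := fun j v w h => (hW j).sup w v h.symm
  have hreg : ∀ j, Reg (dbl (Gh j) (A j) (D j)) (D j) := fun j =>
    reg_dbl (Gh j) (A j) (D j) (hsup j) (fun v hv => (hW j).dex v hv)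
  obtain ⟨X, hX0, hX1, hX2⟩ : ∃ X : ∀ j, Fin (q + 2) → DV (A j) → DV (A j) → Prop,
      (∀ j x y, X j 0 x y ↔ (H j).Adj x.1.1 y.1.1) ∧
      (∀ j x y, X j 1 x y ↔ y ∈ cop (A j) false (Ex j)) ∧
      ∀ j (i : Fin q) x y, X j i.succ.succ x y ↔ y ∈ cop (A j) false (Y i) :=
    ⟨fun j => Fin.cons (fun x y => (H j).Adj x.1.1 y.1.1)
      (Fin.cons (fun _ y => y ∈ cop (A j) false (Ex j)) fun i _ y => y ∈ cop (A j) false (Y i)),
      fun _ _ _ => Iff.rfl, fun _ _ _ => Iff.rfl, fun _ _ _ _ => Iff.rfl⟩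
  obtain ⟨K', M', hLab⟩ := H1 (W := V × Bool) (J := J) (fun j => DV (A j))
    (fun j x => x.1) (fun j => dbl (Gh j) (A j) (D j)) d D X hd1
    (fun j => Subtype.val_injective) hD hJ hreg
  have hf : ∀ j, ∃ f : ℕ, r j = 2 * f - 1 ∧ 1 ≤ f := by
    intro j
    obtain ⟨k, hk⟩ := (hr0 j).1
    exact ⟨k + 1, by omega, by omega⟩
  choose f hf1 hf2 using hf
  have hf3 : ∀ j, (r j : ℝ) + 1 = 2 * f j := by
    intro j
    have h1 := hf1 j
    have h2 := hf2 j
    have h3 : r j + 1 = 2 * f j := by omega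
    exact_mod_cast h3
  have hex : ∀ j, ∃ (S2 : SimpleGraph (DV (A j))),
      ResX (dbl (Gh j) (A j) (D j)) S2 (D j) (f j) (q + 2) a (ρ2 / 16) MS
        (univ.filter fun x : DV (A j) => x.1 ∈ K')
        ((univ.filter fun x : DV (A j) => x.1 ∈ M' true) ∪
          (univ.filter fun x : DV (A j) => x.1 ∈ M' false)) (X j) ∧
        ∀ i v (B : ℝ), 0 ≤ B →
          B * D j ≤ (((nb (dbl (Gh j) (A j) (D j)) v).filter fun w => X j i v w).card : ℝ) →
          (B / 4 - ρ2 / 16) * (2 * f j) ≤ (((nb S2 v).filter fun w => X j i v w).card : ℝ) := by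
    intro j
    have h1 := (hr0 j).2
    have h2 := hf3 j
    refine HX _ (D j) (f j) _ (fun s => univ.filter fun x : DV (A j) => x.1 ∈ M' s) (X j)
      ((le_max_left _ _).trans (hDX j)) (hreg j) (by linarith) (by linarith) (hLab j).1 ?_
    intro i v
    refine le_trans (Nat.cast_le.mpr (Finset.card_le_card ?_)) ((hLab j).2 i v)
    intro w hw
    obtain ⟨h3, h4, h5⟩ := Finset.mem_filter.mp hw
    exact Finset.mem_filter.mpr ⟨h3, h4, (Finset.mem_filter.mp h5).2⟩
  choose S2 R' R3 using hex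
  have R : ∀ j, ResX (dbl (Gh j) (A j) (D j)) (S2 j) (D j) (f j) 2 a ρ2 MS
        (univ.filter fun x : DV (A j) => x.1 ∈ K')
        ((univ.filter fun x : DV (A j) => x.1 ∈ M' true) ∪
          (univ.filter fun x : DV (A j) => x.1 ∈ M' false))
        ![fun x y => (H j).Adj x.1.1 y.1.1, fun _ y => y ∈ cop (A j) false (Ex j)] := by
    intro j
    refine resX_res (R' j) (by linarith) ![0, 1] ?_
    intro i v w
    fin_cases i
    · exact (hX0 j v w).symm
    · exact (hX1 j v w).symm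
  refine ⟨fun j => rst (A j) (S2 j), univ.filter fun v => (v, false) ∈ K',
    fun j => Ex j ∪ univ.filter fun v => (v, false) ∈ M' true ∨ (v, false) ∈ M' false, ?_⟩
  intro j
  refine ⟨resN_of a ρ0 ρ2 MS C δ β c1 ha ha1 hρ2 hρ02 hρ1 hMS hC hδ hβ hc1 hc11 DN HN H Gh O A Ex
    nd d D r g hD hg hg1 hW (fun j => (le_max_right _ _).trans (hDX j)) hsup K' M' f hf1 hf2 S2 R j,
    subset_union_left, ?_⟩
  intro i x hx
  have Wj := hW j
  have hxA := Wj.OA hx
  have hDp : (0 : ℝ) < D j := by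
    have h1 := (HN (D j) ((le_max_right _ _).trans (hDX j))).1
    have : (2 : ℝ) ≤ D j := by exact_mod_cast h1
    linarith
  set m : ℝ := ((nb (H j) x ∩ Y i).card : ℝ) with hm
  have hm0 : 0 ≤ m := Nat.cast_nonneg _
  have h1 : m / D j * D j ≤ (((nb (dbl (Gh j) (A j) (D j)) ⟨(x, false), hxA⟩).filter fun w =>
      X j i.succ.succ ⟨(x, false), hxA⟩ w).card : ℝ) := by
    rw [div_mul_cancel₀ _ hDp.ne', hm]
    refine Nat.cast_le.mpr ?_
    have h2 : ∀ w ∈ nb (H j) x ∩ Y i, w ∈ A j := fun w hw =>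
      hsup j x w (Wj.HG (mem_nb'.mp (mem_inter.mp hw).1))
    refine card_le_card_of_injOn (fun w => if h : w ∈ A j then (⟨(w, false), h⟩ : DV (A j))
      else ⟨(x, false), hxA⟩) ?_ ?_
    · intro w hw
      have hw' := mem_coe.mp hw
      have hwA := h2 w hw'
      obtain ⟨h3, h4⟩ := mem_inter.mp hw'
      simp only [dif_pos hwA]
      refine mem_coe.mpr (mem_filter.mpr ⟨mem_nb'.mpr (Or.inl ⟨rfl, Wj.HG (mem_nb'.mp h3)⟩),
        (hX2 j i _ _).mpr ?_⟩)
      rw [cop, mem_filter]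
      exact ⟨mem_univ _, h4, rfl⟩
    · intro w hw w' hw' hww
      simp only [dif_pos (h2 w (mem_coe.mp hw)), dif_pos (h2 w' (mem_coe.mp hw'))] at hww
      exact (Prod.mk.inj (Subtype.mk.inj hww)).1
  have h2 := R3 j i.succ.succ ⟨(x, false), hxA⟩ (m / D j) (by positivity) h1
  have h3 : (((nb (S2 j) ⟨(x, false), hxA⟩).filter fun w =>
      X j i.succ.succ ⟨(x, false), hxA⟩ w).card : ℝ) ≤
      ((nb (rst (A j) (S2 j)) x ∩ Y i).card : ℝ) := by
    rw [card_rst x hxA (Y i)]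
    refine Nat.cast_le.mpr (card_le_card ?_)
    intro w hw
    obtain ⟨h4, h5⟩ := mem_filter.mp hw
    exact mem_inter.mpr ⟨h4, (hX2 j i _ _).mp h5⟩
  set s : ℝ := ((nb (rst (A j) (S2 j)) x ∩ Y i).card : ℝ) with hs
  have h4 := h2.trans h3
  have h5 := hf3 j
  have hf2' : (1 : ℝ) ≤ f j := by exact_mod_cast hf2 j
  have hr : (r j : ℝ) = 2 * f j - 1 := by linarith
  have h6 : (m / D j / 4 - ρ2 / 16) * (2 * f j) * (8 * D j) =
      4 * (f j * m) - ρ2 * D j * f j := by
    field_simp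
    ring
  have h7 := mul_le_mul_of_nonneg_right h4 (show (0 : ℝ) ≤ 8 * D j by positivity)
  rw [h6] at h7
  rw [hr]
  have h8 : 0 ≤ ρ2 * D j * (f j - 1) := by
    apply mul_nonneg (by positivity)
    linarith
  have h9 : 0 ≤ (2 * (f j : ℝ) + 1) * m := by positivity
  nlinarith

end Pool.Agent.Work.MP_db9399_og.helper35
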