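import Pool.Agent.Work.MP_db9399_sg_helper35.AN
import Pool.Agent.Work.MP_db9399_og.Interface

/-! # MP_db9399, ANT (helper35), part 1: one regular graph with given labels, lower tests -/

set_option autoImplicit false

namespace Pool.Agent.Work.MP_db9399_og.helper35

open Finset Classical
open Pool.Agent.Work.MP_db9399_all (nb)
open Pool.Agent.Work.MP_db9399_cg
open Pool.Agent.Work.MP_db9399_cg.helper12 (row cdz_le cdg_nonneg)
open Pool.Agent.Work.MP_db9399_cg.helper35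
open Pool.Agent.Work.MP_db9399_sg
open Pool.Agent.Work.MP_db9399_sg.helper35

universe u

section

variable {V : Type u} [Fintype V]

/-- the lower tests -/
theorem tsl_of (G G1 S : SimpleGraph V) (d f : ℕ) (κ ρ0 : ℝ) (θ : V → V → ℝ)
    (O Z : V → V → Prop) (K : Finset V)
    (o1 : ∀ v w, G1.Adj v w → (O v w ↔ ¬ O w v)) (o2 : ∀ v w, O v w → G1.Adj v w)
    (z2 : ∀ v w, Z v w → G1.Adj v w) (hG1 : ∀ v w, G1.Adj v w ↔ G.Adj v w ∧ ¬ (v ∈ K ∧ w ∈ K))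
    (hκ : 0 < κ) (hκ1 : κ ≤ 1) (hθ : ∀ v w, κ / 2 ≤ θ v w) (hd : 1 ≤ d)
    (hκd : (2 * f : ℝ) ≤ κ * d) (hρ : 0 < ρ0)
    (hnum : 2 * (√(κ * d) * Real.log d) ≤ ρ0 / 4 * (2 * f)) (v : V) (X : Finset V)
    (hii : ∀ s, |∑ w ∈ sdz O Z s v, (if w ∈ X then (1 : ℝ) else 0) -
      (∑ w ∈ nb G1 v, θ v w * (if w ∈ X then (1 : ℝ) else 0)) / 2| ≤ √(κ * d) * Real.log d)
    (hSZ : ∀ w, Z v w → S.Adj v w)
    (B : ℝ) (hB0 : 0 ≤ B) (hX : B * d ≤ ((nb G v ∩ X).card : ℝ))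
    (hXK : (((nb G v ∩ X) ∩ K).card : ℝ) ≤ ((nb G v ∩ X).card : ℝ) / 2 + √d * Real.log d) :
    (B / 4 - ρ0) * (2 * f) ≤ ((nb S v ∩ X).card : ℝ) := by
  have h1 : (univ.filter fun w => Z v w) ∩ X ⊆ nb S v ∩ X := by
    intro w hw
    rw [mem_inter, mem_filter] at hw
    exact mem_inter.mpr ⟨by simpa [nb] using hSZ w hw.1.2, hw.2⟩
  have h2 : (((univ.filter fun w => Z v w) ∩ X).card : ℝ) ≤ ((nb S v ∩ X).card : ℝ) := by
    exact_mod_cast card_le_card h1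
  have h3 : (((univ.filter fun w => Z v w) ∩ X).card : ℝ) =
      ∑ w ∈ univ.filter (fun w => Z v w), (if w ∈ X then (1 : ℝ) else 0) := by
    rw [← sum_filter, sum_const, nsmul_eq_mul, mul_one]
    congr 2
  have h4 := sum_sdz G1 O Z o1 o2 z2 v fun w => if w ∈ X then (1 : ℝ) else 0
  have h5 := (abs_le.1 (hii true)).1
  have h6 := (abs_le.1 (hii false)).1
  have h7 : κ / 2 * ((nb G1 v ∩ X).card : ℝ) ≤
      ∑ w ∈ nb G1 v, θ v w * (if w ∈ X then (1 : ℝ) else 0) := by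
    calc κ / 2 * ((nb G1 v ∩ X).card : ℝ)
        = ∑ w ∈ nb G1 v, κ / 2 * (if w ∈ X then (1 : ℝ) else 0) := by
          rw [← mul_sum, ← sum_filter, sum_const, nsmul_eq_mul, mul_one]
          congr 3
      _ ≤ _ := by
          refine sum_le_sum fun w _ => mul_le_mul_of_nonneg_right (hθ v w) ?_
          split_ifs <;> norm_num
  have h8 : ((nb G v ∩ X).card : ℝ) / 2 - √d * Real.log d ≤ ((nb G1 v ∩ X).card : ℝ) := by
    have e1 : nb G v ∩ X ⊆ (nb G1 v ∩ X) ∪ ((nb G v ∩ X) ∩ K) := by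
      intro w hw
      rw [mem_union, mem_inter, mem_inter]
      rw [mem_inter] at hw
      have hw1 : G.Adj v w := by simpa [nb] using hw.1
      by_cases h : v ∈ K ∧ w ∈ K
      · exact Or.inr ⟨mem_inter.mpr hw, h.2⟩
      · exact Or.inl ⟨by simpa [nb] using (hG1 v w).mpr ⟨hw1, h⟩, hw.2⟩
    have e2 : ((nb G v ∩ X).card : ℝ) ≤ ((nb G1 v ∩ X).card : ℝ) +
        (((nb G v ∩ X) ∩ K).card : ℝ) := by
      exact_mod_cast (card_le_card e1).trans (card_union_le _ _)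
    linarith
  have hlog : 0 ≤ Real.log d := Real.log_nonneg (by exact_mod_cast hd)
  have hdp : (0 : ℝ) ≤ d := Nat.cast_nonneg _
  have h9 : κ * (√d * Real.log d) ≤ √(κ * d) * Real.log d := by
    rw [← mul_assoc]
    refine mul_le_mul_of_nonneg_right ?_ hlog
    rw [Real.sqrt_mul hκ.le]
    refine mul_le_mul_of_nonneg_right ?_ (Real.sqrt_nonneg _)
    apply Real.le_sqrt_of_sq_le
    nlinarith
  have h10 : κ / 2 * (B * d / 2 - √d * Real.log d) ≤ κ / 2 * ((nb G1 v ∩ X).card : ℝ) := by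
    refine mul_le_mul_of_nonneg_left ?_ (by positivity)
    linarith
  have h11 : B / 4 * (2 * f : ℝ) ≤ B / 4 * (κ * d) :=
    mul_le_mul_of_nonneg_left hκd (by positivity)
  have h12 : (0 : ℝ) ≤ ρ0 * (2 * f) := by positivity
  have h13 : κ / 2 * (B * d / 2 - √d * Real.log d) =
      B / 4 * (κ * d) - κ * (√d * Real.log d) / 2 := by ring
  rw [h13] at h10
  rw [← h4] at h3
  nlinarith

end

/-- one regular graph with given labels and edge tests -/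
theorem resXT (hA34 : Stmt_A34.{u}) (hA5 : Stmt_A5N.{u}) (a ρ0 MS : ℝ) (q : ℕ) (ha : 0 < a)
    (ha1 : a ≤ 1 / 100) (hρ : 0 < ρ0) :
    ∃ (n2 d0 : ℕ), 4 ≤ n2 ∧ ∀ {V : Type u} [Fintype V] (G : SimpleGraph V) (d f : ℕ)
      (K : Finset V) (M : Bool → Finset V) (X : Fin q → V → V → Prop), d0 ≤ d → Reg G d →
      2 * (d : ℝ) ^ (1 - a) + 1 ≤ 2 * f → (2 * f : ℝ) + 1 ≤ (d : ℝ) ^ (1 - a / 3) →
      Lab G d a (1 / 64) (1 / n2) K M →
      (∀ i v, (((nb G v).filter fun w => X i v w ∧ w ∈ K).card : ℝ) ≤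
        (((nb G v).filter fun w => X i v w).card : ℝ) / 2 + √d * Real.log d) →
      ∃ S : SimpleGraph V, ResX G S d f q a ρ0 MS K (M true ∪ M false) X ∧
        ∀ j v (B : ℝ), 0 ≤ B → B * d ≤ (((nb G v).filter fun w => X j v w).card : ℝ) →
          (B / 4 - ρ0) * (2 * f) ≤ (((nb S v).filter fun w => X j v w).card : ℝ) := by
  set n2 : ℕ := max 16 ⌈4 / ρ0⌉₊ with hn2
  have hn16 : 16 ≤ n2 := le_max_left _ _
  have hn16' : (16 : ℝ) ≤ n2 := by exact_mod_cast hn16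
  have hnρ : 4 / (n2 : ℝ) ≤ ρ0 := by
    have h1 : 4 / ρ0 ≤ (n2 : ℝ) :=
      (Nat.le_ceil _).trans (by exact_mod_cast le_max_right 16 ⌈4 / ρ0⌉₊)
    have h2 : (0 : ℝ) < n2 := by linarith
    rw [div_le_iff₀ hρ] at h1
    rw [div_le_iff₀ h2]
    linarith
  obtain ⟨d5, m, H5⟩ := hA5 a n2 ha ha1 hn16
  obtain ⟨d3, H3⟩ := helper75.a34x hA34 a m q ha ha1
  obtain ⟨d7, H7⟩ := num8 a n2 ha ha1 hn16 MS
  obtain ⟨d8, H8⟩ := numX a ρ0 ha ha1 hρ
  refine ⟨n2, max (max d8 d5) (max d3 d7), by omega, ?_⟩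
  intro V _ G d f K M X hd hreg hfa hfb hLab hXK
  have hd8 : d8 ≤ d := le_trans (by simp) hd
  have hd5 : d5 ≤ d := le_trans (by simp) hd
  have hd3 : d3 ≤ d := le_trans (by simp) hd
  have hd7 : d7 ≤ d := le_trans (by simp) hd
  obtain ⟨κ, hdd, hf1, hfκ, hκ1, hκ2, hr1, hr2, hs1, hs2, hp1, hp3⟩ := H7 d f hd7 hfa hfb
  have hnum := H8 d f κ n2 hd8 hn16 hfκ hκ1
  have hdp : (0 : ℝ) < d := by exact_mod_cast hdd
  let G1 : SimpleGraph V :=
    { Adj := fun v w => G.Adj v w ∧ ¬ (v ∈ K ∧ w ∈ K)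
      symm := ⟨fun v w h => ⟨h.1.symm, fun h' => h.2 ⟨h'.2, h'.1⟩⟩⟩
      loopless := ⟨fun v h => G.loopless.irrefl v h.1⟩ }
  have hG1 : ∀ v w, G1.Adj v w ↔ G.Adj v w ∧ ¬ (v ∈ K ∧ w ∈ K) := fun v w => Iff.rfl
  have hG1G : G1 ≤ G := fun v w h => h.1
  obtain ⟨θ, x1, h, cc, hE, hS⟩ := H5 G G1 d f κ K M hd5 hreg hLab hG1 hfκ hκ1 hκ2
  obtain ⟨O, Z, o1, o2, z1, z2, cV, cP, -, cX⟩ := H3 G G1 d κ θ x1 h cc
    (fun j v w => if w ∈ univ.filter (fun w => X j v w) then (1 : ℝ) else 0) hd3 hE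
    (fun j v w => by split_ifs <;> norm_num)
    (fun j v w => by split_ifs <;> norm_num)
  obtain ⟨S, s1, s2, s3, s4, s5, s6, s7, s8, s9⟩ := hS O Z o1 o2 z1 z2 cV
  have hκ0 : 0 < κ := (Real.rpow_pos_of_pos hdp _).trans_le hκ1
  refine ⟨S, ⟨fun v w hvw => (s1 hvw).1, hr1, hr2, s3, s4, s5, ?_, ?_, s7, s8, ?_, ?_⟩, ?_⟩
  rotate_right
  · intro j v B hB0 hX
    have e1 : ∀ Y : Finset V, Y.filter (fun w => X j v w) = Y ∩ univ.filter fun w => X j v w := by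
      intro Y
      ext w
      simp
    have e2 : (((nb G v ∩ univ.filter fun w => X j v w) ∩ K).card : ℝ) ≤
        ((nb G v ∩ univ.filter fun w => X j v w).card : ℝ) / 2 + √d * Real.log d := by
      have h1 := hXK j v
      rw [e1] at h1
      refine le_trans (Nat.cast_le.mpr (card_le_card ?_)) h1
      intro w hw
      rw [mem_inter, mem_inter, mem_filter] at hw
      exact mem_filter.mpr ⟨hw.1.1, hw.1.2.2, hw.2⟩
    rw [e1] at hX ⊢
    have hκ1' : κ ≤ 1 := by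
      refine hκ2.trans ?_
      apply Real.rpow_le_one_of_one_le_of_nonpos
      · exact_mod_cast hdd
      · linarith
    have hκd : (2 * f : ℝ) ≤ κ * d := by
      have h2 : (0 : ℝ) < 1 / (2 * n2) := by positivity
      linarith
    exact tsl_of G G1 S d f κ ρ0 θ O Z K o1 o2 z2 hG1 hκ0 hκ1' hE.th1 hdd hκd hρ hnum v
      (univ.filter fun w => X j v w) (fun s => cX j s v) (fun w => s2 v w) B hB0 hX e2
  · intro v
    exact (s6 v).trans (mul_le_mul_of_nonneg_right hnρ (by positivity))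
  · intro v hv w hw hvw
    exact (s1 hvw).2 ⟨hv, hw⟩
  · intro j v B _ hB1 hX
    have e1 : ∀ Y : Finset V, Y.filter (fun w => X j v w) = Y ∩ univ.filter fun w => X j v w := by
      intro Y
      ext w
      simp
    rw [e1] at hX ⊢
    exact tst_of G G1 S d f κ ρ0 n2 θ O Z hf1 hρ o1 o2 z2 hG1G hκ0 hE.th2 hnρ hn16' hfκ hnum v
      (univ.filter fun w => X j v w) (fun s => cX j s v) (s9 v) B hB1 hX
  · intro u T hu hT
    have h1 := row G G1 d a κ (1 / n2) (1 / 64) K M Z hLab hG1 z2 u (cP u) T hu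
    have h2 : ∑ w ∈ univ \ T, cdz Z u w ≤ ∑ w ∈ univ \ T, cdg S u w :=
      sum_le_sum fun w _ => cdz_le S Z s2 u w
    have h3 : (T.card : ℝ) * (d : ℝ) ^ (3 * a) ≤ κ ^ 2 * (d : ℝ) ^ (2 - a) :=
      (mul_le_mul_of_nonneg_right hT (Real.rpow_nonneg hdp.le _)).trans hp3
    have h4 : κ ^ 2 * ((d : ℝ) ^ (8 / 5 : ℝ) / 8 + (d : ℝ) ^ (2 - a)) ≤
        κ ^ 2 * (2 * (d : ℝ) ^ (2 - a)) := by
      refine mul_le_mul_of_nonneg_left ?_ (by positivity)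
      have : 0 ≤ (d : ℝ) ^ (8 / 5 : ℝ) := Real.rpow_nonneg hdp.le _
      linarith
    set A : ℝ := ∑ w ∈ univ \ T, cdg G u w with hA
    set B : ℝ := ∑ w ∈ univ \ T, cdg S u w with hB
    have hA0 : 0 ≤ A := sum_nonneg fun w _ => cdg_nonneg G u w
    have h5 : κ ^ 2 / 16 * A - 3 * (κ ^ 2 * (d : ℝ) ^ (2 - a)) ≤ B := by linarith
    have e1 : ∑ w ∈ univ \ T, cdg G u w / (d : ℝ) ^ 2 = A / (d : ℝ) ^ 2 := by
      rw [hA, sum_div]
    have e2 : ∑ w ∈ univ \ T, cdg S u w / (2 * (f : ℝ) + 1) ^ 2 =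
        B / (2 * (f : ℝ) + 1) ^ 2 := by
      rw [hB, sum_div]
    rw [e1, e2]
    set Q : ℝ := (2 * (f : ℝ) + 1) ^ 2 with hQ
    have hQ0 : 0 < Q := by positivity
    have hκd : 0 < κ ^ 2 * (d : ℝ) ^ 2 := by positivity
    have e3 : (d : ℝ) ^ (2 - a) = (d : ℝ) ^ 2 * (d : ℝ) ^ (-a) := by
      rw [sub_eq_add_neg, Real.rpow_add hdp]
      norm_num
    have hna : 0 < (d : ℝ) ^ (-a) := Real.rpow_pos_of_pos hdp _
    rw [le_div_iff₀ hQ0]
    have e4 : (1 / 20 * (A / (d : ℝ) ^ 2) - 4 * (d : ℝ) ^ (-a)) * Q ≤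
        κ ^ 2 / 16 * A - 3 * (κ ^ 2 * (d : ℝ) ^ (2 - a)) := by
      have e5 : 1 / 20 * (A / (d : ℝ) ^ 2) * Q ≤ κ ^ 2 / 16 * A := by
        have : 1 / 20 * (A / (d : ℝ) ^ 2) * Q ≤
            1 / 20 * (A / (d : ℝ) ^ 2) * (5 / 4 * (κ ^ 2 * (d : ℝ) ^ 2)) :=
          mul_le_mul_of_nonneg_left hs1 (by positivity)
        refine this.trans (le_of_eq ?_)
        field_simp
        ring
      have e6 : 3 * (κ ^ 2 * (d : ℝ) ^ (2 - a)) ≤ 4 * (d : ℝ) ^ (-a) * Q := by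
        rw [e3]
        have : κ ^ 2 * (d : ℝ) ^ 2 * (d : ℝ) ^ (-a) ≤ Q * (d : ℝ) ^ (-a) :=
          mul_le_mul_of_nonneg_right hs2 hna.le
        nlinarith
      linarith
    exact e4.trans h5

end Pool.Agent.Work.MP_db9399_og.helper35
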