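import Pool.Agent.Work.MP_db9399_og_helper35.OWNU
import Pool.Agent.Work.MP_db9399_og.Interface

/-!
# MP_db9399, OWNG (helper35), part 1: the families of tests
-/

set_option autoImplicit false

namespace Pool.Agent.Work.MP_db9399_og.helper35

open Finset Classical
open Pool.Agent.Work.MP_db9399_all (nb mis)
open Pool.Agent.Work.MP_db9399_ow (Sig Upt)

universe u

section comb

variable {V : Type u} [Fintype V] {P : ℕ}

theorem Sig.sum {J1 J2 : Type u} [Fintype J1] [Fintype J2] {K W1 W2 : ℝ} {S1 : J1 → Finset V}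
    {S2 : J2 → Finset V} {g1 : J1 → Fin P → V → ℝ} {g2 : J2 → Fin P → V → ℝ} {e1 : J1 → ℝ}
    {e2 : J2 → ℝ} (h1 : Sig K W1 S1 g1 e1) (h2 : Sig K W2 S2 g2 e2) (hW1 : 0 ≤ W1)
    (hW2 : 0 ≤ W2) :
    Sig K (W1 + W2) (Sum.elim S1 S2) (Sum.elim g1 g2) (Sum.elim e1 e2) := by
  refine ⟨?_, ?_, ?_, ?_, ?_, ?_, ?_⟩
  · rintro (j | j) b v
    · exact h1.sup j b v
    · exact h2.sup j b v
  · rintro (j | j) b v
    · exact h1.le j b v
    · exact h2.le j b v
  · rintro (j | j) b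
    · exact h1.sum j b
    · exact h2.sum j b
  · rintro (j | j) b
    · exact h1.sq j b
    · exact h2.sq j b
  · rintro (j | j)
    · exact h1.e0 j
    · exact h2.e0 j
  · rintro (j | j)
    · exact (h1.card j).trans (by linarith)
    · exact (h2.card j).trans (by linarith)
  · intro v
    have e : (univ.filter fun j : J1 ⊕ J2 => v ∈ Sum.elim S1 S2 j) =
        (univ.filter fun j => v ∈ S1 j).disjSum (univ.filter fun j => v ∈ S2 j) := by
      ext j
      cases j with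
      | inl j => simp
      | inr j => simp
    rw [e, Finset.card_disjSum]
    push_cast
    exact add_le_add (h1.mul v) (h2.mul v)

theorem Sig.mono {J1 : Type u} [Fintype J1] {K K' W W' : ℝ} {S1 : J1 → Finset V}
    {g1 : J1 → Fin P → V → ℝ} {e1 e2 : J1 → ℝ} (h1 : Sig K W S1 g1 e1) (hK : K ≤ K')
    (hW : W ≤ W') (he : ∀ j, e1 j ≤ e2 j) : Sig K' W' S1 g1 e2 :=
  ⟨h1.sup, fun j b v => (h1.le j b v).trans hK, h1.sum, fun j b => (h1.sq j b).trans (he j),
    fun j => (h1.e0 j).trans (he j), fun j => (h1.card j).trans hW,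
    fun v => (h1.mul v).trans hW⟩

theorem Upt.sum {R1 R2 : Type u} [Fintype R1] [Fintype R2] {s W1 W2 : ℝ}
    {Q1 : R1 → Finset (Fin P × V)} {Q2 : R2 → Finset (Fin P × V)} (h1 : Upt s W1 Q1)
    (h2 : Upt s W2 Q2) : Upt s (W1 + W2) (Sum.elim Q1 Q2) := by
  constructor
  · rintro (q | q)
    · exact h1.card q
    · exact h2.card q
  · intro v
    have e : (univ.filter fun q : R1 ⊕ R2 => ∃ b, (b, v) ∈ Sum.elim Q1 Q2 q) =
        (univ.filter fun q => ∃ b, (b, v) ∈ Q1 q).disjSum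
          (univ.filter fun q => ∃ b, (b, v) ∈ Q2 q) := by
      ext q
      cases q with
      | inl q => simp
      | inr q => simp
    rw [e, Finset.card_disjSum]
    push_cast
    exact add_le_add (h1.mul v) (h2.mul v)

theorem Upt.mono {R1 : Type u} [Fintype R1] {s s' W W' : ℝ} {Q1 : R1 → Finset (Fin P × V)}
    (h1 : Upt s W Q1) (hs : s ≤ s') (hW : W ≤ W') : Upt s' W' Q1 :=
  ⟨fun q => (h1.card q).trans hs, fun v => (h1.mul v).trans hW⟩

end comb

section fam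

variable {V T : Type u} [Fintype V] [Fintype T] {P : ℕ}

/-- a test of the partners -/
noncomputable def gP (U : Finset V) (N : Fin P → V → V) (A : T → Fin P → Prop) (ψ : T → V → ℝ)
    (t : T) (b : Fin P) (y : V) : ℝ :=
  if A t b ∧ y ∈ U ∧ N b y ≠ y then ψ t (N b y) else 0

/-- a signed test of the tokens -/
noncomputable def gS (U : Finset V) (N : Fin P → V → V) (A : T → Fin P → Prop) (κ : T → V → ℝ)
    (t : T) (b : Fin P) (y : V) : ℝ :=
  if A t b ∧ y ∈ U then 1 / 3 * (if N b y = y then - κ t y else κ t (N b y)) else 0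

/-- support -/
noncomputable def sP (E : SimpleGraph V) (ψ : T → V → ℝ) (t : T) : Finset V :=
  (univ.filter fun x => ψ t x ≠ 0).biUnion fun x => nb E x

/-- support -/
noncomputable def sS (E : SimpleGraph V) (κ : T → V → ℝ) (t : T) : Finset V :=
  (univ.filter fun x => κ t x ≠ 0) ∪ sP E κ t

theorem mem_sP {E : SimpleGraph V} {ψ : T → V → ℝ} {t : T} {y : V} :
    y ∈ sP E ψ t ↔ ∃ x, ψ t x ≠ 0 ∧ E.Adj x y := by
  unfold sP
  rw [Finset.mem_biUnion]
  constructor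
  · rintro ⟨x, h1, h2⟩
    exact ⟨x, (Finset.mem_filter.mp h1).2, mem_nb.mp h2⟩
  · rintro ⟨x, h1, h2⟩
    exact ⟨x, Finset.mem_filter.mpr ⟨Finset.mem_univ _, h1⟩, mem_nb.mpr h2⟩

theorem card_sP (E : SimpleGraph V) (ψ : T → V → ℝ) {d : ℕ} {w : ℝ}
    (hd : ∀ v, (nb E v).card ≤ d)
    (hw : ∀ t, ((univ.filter fun x => ψ t x ≠ 0).card : ℝ) ≤ w) (t : T) :
    ((sP E ψ t).card : ℝ) ≤ w * d := by
  unfold sP
  have h1 : (((univ.filter fun x => ψ t x ≠ 0).biUnion fun x => nb E x).card : ℝ) ≤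
      ∑ x ∈ univ.filter (fun x => ψ t x ≠ 0), ((nb E x).card : ℝ) := by
    exact_mod_cast Finset.card_biUnion_le
  refine h1.trans ?_
  calc ∑ x ∈ univ.filter (fun x => ψ t x ≠ 0), ((nb E x).card : ℝ)
      ≤ ∑ x ∈ univ.filter (fun x => ψ t x ≠ 0), (d : ℝ) :=
        Finset.sum_le_sum fun x _ => by exact_mod_cast hd x
    _ = (univ.filter fun x => ψ t x ≠ 0).card * (d : ℝ) := by
        rw [Finset.sum_const, nsmul_eq_mul]
    _ ≤ w * d := mul_le_mul_of_nonneg_right (hw t) (Nat.cast_nonneg _)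

theorem mul_sP (E : SimpleGraph V) (ψ : T → V → ℝ) {d : ℕ} {w : ℝ} (hw0 : 0 ≤ w)
    (hd : ∀ v, (nb E v).card ≤ d)
    (hw : ∀ x, ((univ.filter fun t => ψ t x ≠ 0).card : ℝ) ≤ w) (y : V) :
    ((univ.filter fun t => y ∈ sP E ψ t).card : ℝ) ≤ w * d := by
  have h0 : (univ.filter fun t => y ∈ sP E ψ t) ⊆
      (nb E y).biUnion fun x => univ.filter fun t => ψ t x ≠ 0 := by
    intro t ht
    rw [Finset.mem_filter] at ht
    obtain ⟨x, h1, h2⟩ := mem_sP.mp ht.2
    exact Finset.mem_biUnion.mpr ⟨x, mem_nb.mpr h2.symm,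
      Finset.mem_filter.mpr ⟨Finset.mem_univ _, h1⟩⟩
  have h1 : ((univ.filter fun t => y ∈ sP E ψ t).card : ℝ) ≤
      ∑ x ∈ nb E y, ((univ.filter fun t => ψ t x ≠ 0).card : ℝ) := by
    exact_mod_cast (Finset.card_le_card h0).trans Finset.card_biUnion_le
  refine h1.trans ?_
  calc ∑ x ∈ nb E y, ((univ.filter fun t => ψ t x ≠ 0).card : ℝ)
      ≤ ∑ x ∈ nb E y, w := Finset.sum_le_sum fun x _ => hw x
    _ = (nb E y).card * w := by rw [Finset.sum_const, nsmul_eq_mul]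
    _ ≤ d * w := mul_le_mul_of_nonneg_right (by exact_mod_cast hd y) hw0
    _ = w * d := by ring

/-- sums along a matching -/
theorem sum_N {N : Fin P → V → V} (hN : ∀ b v, N b (N b v) = v) (b : Fin P) (f : V → ℝ) :
    ∑ v, f (N b v) = ∑ v, f v :=
  Equiv.sum_comp (Function.Involutive.toPerm (N b) (hN b)) f

theorem sigP (E : SimpleGraph V) (U : Finset V) (N : Fin P → V → V) (A : T → Fin P → Prop)
    (ψ : T → V → ℝ) {d : ℕ} {w κ0 : ℝ} (hw0 : 0 ≤ w) (hN : ∀ b v, N b (N b v) = v)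
    (hE : ∀ b, ∀ y ∈ U, N b y ≠ y → E.Adj y (N b y)) (hd : ∀ v, (nb E v).card ≤ d)
    (h0 : ∀ t x, 0 ≤ ψ t x) (hκ0 : 0 ≤ κ0) (hκ : ∀ t x, ψ t x ≤ κ0) (h1 : ∀ t, ∑ x, ψ t x ≤ 1)
    (hw : ∀ t, ((univ.filter fun x => ψ t x ≠ 0).card : ℝ) ≤ w)
    (hw' : ∀ x, ((univ.filter fun t => ψ t x ≠ 0).card : ℝ) ≤ w) :
    Sig κ0 (w * d) (sP E ψ) (gP U N A ψ) (fun _ => κ0) := by
  have hg : ∀ t b y, 0 ≤ gP U N A ψ t b y ∧ gP U N A ψ t b y ≤ ψ t (N b y) := by
    intro t b y
    unfold gP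
    split_ifs
    · exact ⟨h0 _ _, le_rfl⟩
    · exact ⟨le_rfl, h0 _ _⟩
  have hs : ∀ t b, ∑ y, gP U N A ψ t b y ≤ 1 := fun t b =>
    (Finset.sum_le_sum fun y _ => (hg t b y).2).trans ((sum_N hN b (ψ t)).le.trans (h1 t))
  refine ⟨?_, ?_, ?_, ?_, fun _ => hκ0, card_sP E ψ hd hw, mul_sP E ψ hw0 hd hw'⟩
  · intro t b y hy
    unfold gP
    split_ifs with h
    · by_contra h2
      exact hy (mem_sP.mpr ⟨N b y, h2, (hE b y h.2.1 h.2.2).symm⟩)
    · rfl
  · intro t b y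
    rw [abs_of_nonneg (hg t b y).1]
    exact (hg t b y).2.trans (hκ _ _)
  · intro t b
    rw [Finset.sum_congr rfl fun y _ => abs_of_nonneg (hg t b y).1]
    exact hs t b
  · intro t b
    calc ∑ y, gP U N A ψ t b y ^ 2 ≤ ∑ y, κ0 * gP U N A ψ t b y := by
          refine Finset.sum_le_sum fun y _ => ?_
          rw [sq]
          exact mul_le_mul_of_nonneg_right ((hg t b y).2.trans (hκ _ _)) (hg t b y).1
      _ = κ0 * ∑ y, gP U N A ψ t b y := by rw [Finset.mul_sum]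
      _ ≤ κ0 * 1 := mul_le_mul_of_nonneg_left (hs t b) hκ0
      _ = κ0 := mul_one _

theorem sigS (E : SimpleGraph V) (U : Finset V) (N : Fin P → V → V) (A : T → Fin P → Prop)
    (κ : T → V → ℝ) {d : ℕ} {w κ0 e : ℝ} (hw0 : 0 ≤ w) (hN : ∀ b v, N b (N b v) = v)
    (hE : ∀ b, ∀ y ∈ U, N b y ≠ y → E.Adj y (N b y)) (hd : ∀ v, (nb E v).card ≤ d)
    (hκ : ∀ t x, |κ t x| ≤ κ0) (h1 : ∀ t, ∑ x, |κ t x| ≤ 3) (he : ∀ t, ∑ x, κ t x ^ 2 ≤ e)
    (he0 : 0 ≤ e)
    (hw : ∀ t, ((univ.filter fun x => κ t x ≠ 0).card : ℝ) ≤ w)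
    (hw' : ∀ x, ((univ.filter fun t => κ t x ≠ 0).card : ℝ) ≤ w) :
    Sig κ0 (w + w * d) (sS E κ) (gS U N A κ) (fun _ => e) := by
  have hg : ∀ t b y, |gS U N A κ t b y| ≤ 1 / 3 * |κ t (N b y)| := by
    intro t b y
    unfold gS
    split_ifs with h h'
    · rw [abs_mul, abs_neg, h', abs_of_pos (by norm_num : (0 : ℝ) < 1 / 3)]
    · rw [abs_mul, abs_of_pos (by norm_num : (0 : ℝ) < 1 / 3)]
    · rw [abs_zero]
      positivity
  refine ⟨?_, ?_, ?_, ?_, fun _ => he0, ?_, ?_⟩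
  · intro t b y hy
    unfold sS at hy
    rw [Finset.mem_union, not_or, Finset.mem_filter, not_and, not_not] at hy
    unfold gS
    split_ifs with h h'
    · rw [hy.1 (Finset.mem_univ _)]
      ring
    · have h2 : κ t (N b y) = 0 := by
        by_contra h2
        exact hy.2 (mem_sP.mpr ⟨N b y, h2, (hE b y h.2 h').symm⟩)
      rw [h2]
      ring
    · rfl
  · intro t b y
    refine (hg t b y).trans ?_
    have h2 := hκ t (N b y)
    have h3 := abs_nonneg (κ t (N b y))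
    linarith
  · intro t b
    refine (Finset.sum_le_sum fun y _ => hg t b y).trans ?_
    rw [← Finset.mul_sum, sum_N hN b (fun x => |κ t x|)]
    have := h1 t
    linarith
  · intro t b
    refine le_trans (Finset.sum_le_sum (g := fun y => κ t (N b y) ^ 2) fun y _ => ?_) ?_
    · rw [← sq_abs (gS U N A κ t b y), ← sq_abs (κ t (N b y))]
      have h2 := hg t b y
      have h3 := abs_nonneg (κ t (N b y))
      exact pow_le_pow_left₀ (abs_nonneg _) (by linarith) 2
    · rw [sum_N hN b (fun x => κ t x ^ 2)]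
      exact he t
  · intro t
    unfold sS
    have h2 : ((univ.filter fun x => κ t x ≠ 0) ∪ sP E κ t).card ≤
        (univ.filter fun x => κ t x ≠ 0).card + (sP E κ t).card := Finset.card_union_le _ _
    have h3 : ((((univ.filter fun x => κ t x ≠ 0) ∪ sP E κ t).card : ℕ) : ℝ) ≤
        ((univ.filter fun x => κ t x ≠ 0).card : ℝ) + ((sP E κ t).card : ℝ) := by
      exact_mod_cast h2
    exact h3.trans (add_le_add (hw t) (card_sP E κ hd hw t))
  · intro y
    have h2 : (univ.filter fun t => y ∈ sS E κ t) ⊆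
        (univ.filter fun t => κ t y ≠ 0) ∪ (univ.filter fun t => y ∈ sP E κ t) := by
      intro t ht
      unfold sS at ht
      simp only [Finset.mem_filter, Finset.mem_univ, true_and, Finset.mem_union] at ht ⊢
      exact ht
    have h3 : (((univ.filter fun t => y ∈ sS E κ t).card : ℕ) : ℝ) ≤
        ((univ.filter fun t => κ t y ≠ 0).card : ℝ) +
          ((univ.filter fun t => y ∈ sP E κ t).card : ℝ) := by
      exact_mod_cast (Finset.card_le_card h2).trans (Finset.card_union_le _ _)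
    exact h3.trans (add_le_add (hw' y) (mul_sP E κ hw0 hd hw' y))

/-! ### the colouring -/

/-- the partial colouring -/
noncomputable def cU (U : Finset V) (c : V → Fin P) (v : V) : Option (Fin P) :=
  if v ∈ U then some (c v) else none

theorem cU_eq {U : Finset V} {c : V → Fin P} {v : V} {b : Fin P} :
    cU U c v = some b ↔ v ∈ U ∧ c v = b := by
  unfold cU
  split_ifs with h
  · simp [h]
  · simp [h]

/-- the sum of a test of the partners -/
theorem gP_sum (U : Finset V) (N : Fin P → V → V) (A : T → Fin P → Prop) (ψ : T → V → ℝ)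
    (hN : ∀ b v, N b (N b v) = v) (h0 : ∀ t x, 0 ≤ ψ t x) (c : V → Fin P) (t : T) :
    ∑ y ∈ U, |gP U N A ψ t (c y) y| =
      ∑ x, ψ t x * ((univ.filter fun b => A t b ∧ N b x ≠ x ∧ cU U c (N b x) = some b).card : ℝ) := by
  have h1 : ∑ x, ψ t x * ((univ.filter fun b => A t b ∧ N b x ≠ x ∧
      cU U c (N b x) = some b).card : ℝ) =
      ∑ b : Fin P, ∑ x, (if A t b ∧ N b x ≠ x ∧ cU U c (N b x) = some b then ψ t x else 0) := by
    rw [Finset.sum_comm]
    apply Finset.sum_congr rfl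
    intro x _
    rw [← Finset.sum_filter, Finset.sum_const, nsmul_eq_mul, mul_comm]
  have h2 : ∀ b : Fin P, ∑ x, (if A t b ∧ N b x ≠ x ∧ cU U c (N b x) = some b then ψ t x else 0) =
      ∑ y, (if A t b ∧ y ≠ N b y ∧ cU U c y = some b then ψ t (N b y) else 0) := by
    intro b
    rw [← sum_N hN b (fun x => if A t b ∧ N b x ≠ x ∧ cU U c (N b x) = some b then ψ t x else 0)]
    apply Finset.sum_congr rfl
    intro y _
    rw [hN]
  rw [h1, Finset.sum_congr rfl fun b _ => h2 b, Finset.sum_comm]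
  have h3 : ∑ y ∈ U, |gP U N A ψ t (c y) y| = ∑ y, (if y ∈ U then |gP U N A ψ t (c y) y| else 0) := by
    rw [← Finset.sum_filter]
    congr 1
    ext y
    simp
  rw [h3]
  apply Finset.sum_congr rfl
  intro y _
  by_cases hy : y ∈ U
  · rw [if_pos hy, Finset.sum_eq_single (c y)]
    · unfold gP
      by_cases h4 : A t (c y) ∧ y ∈ U ∧ N (c y) y ≠ y
      · rw [if_pos h4, if_pos ⟨h4.1, h4.2.2.symm, cU_eq.mpr ⟨hy, rfl⟩⟩, abs_of_nonneg (h0 _ _)]
      · rw [if_neg h4, if_neg, abs_zero]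
        rintro ⟨h5, h6, -⟩
        exact h4 ⟨h5, hy, h6.symm⟩
    · intro b _ hb
      rw [if_neg]
      rintro ⟨-, -, h5⟩
      exact hb (cU_eq.mp h5).2.symm
    · intro h
      exact absurd (Finset.mem_univ _) h
  · rw [if_neg hy]
    symm
    apply Finset.sum_eq_zero
    intro b _
    rw [if_neg]
    rintro ⟨-, -, h5⟩
    exact hy (cU_eq.mp h5).1

/-- the mean of a test of the partners -/
theorem gP_mean (U : Finset V) (N : Fin P → V → V) (A : T → Fin P → Prop) (ψ : T → V → ℝ)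
    (hN : ∀ b v, N b (N b v) = v) (h0 : ∀ t x, 0 ≤ ψ t x) (t : T) (M : V → ℝ)
    (hM : ∀ x, ψ t x ≠ 0 →
      ((univ.filter fun b => A t b ∧ N b x ≠ x ∧ N b x ∈ U).card : ℝ) ≤ M x) :
    ∑ b : Fin P, ∑ y ∈ U, |gP U N A ψ t b y| ≤ ∑ x, ψ t x * M x := by
  have h2 : ∀ b : Fin P, ∑ y ∈ U, |gP U N A ψ t b y| =
      ∑ x, (if A t b ∧ N b x ≠ x ∧ N b x ∈ U then ψ t x else 0) := by
    intro b
    rw [← sum_N hN b (fun x => if A t b ∧ N b x ≠ x ∧ N b x ∈ U then ψ t x else 0)]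
    have h3 : ∑ y ∈ U, |gP U N A ψ t b y| = ∑ y, (if y ∈ U then |gP U N A ψ t b y| else 0) := by
      rw [← Finset.sum_filter]
      congr 1
      ext y
      simp
    rw [h3]
    apply Finset.sum_congr rfl
    intro y _
    rw [hN]
    unfold gP
    by_cases hy : y ∈ U
    · rw [if_pos hy]
      by_cases h4 : A t b ∧ y ∈ U ∧ N b y ≠ y
      · rw [if_pos h4, if_pos ⟨h4.1, h4.2.2.symm, hy⟩, abs_of_nonneg (h0 _ _)]
      · rw [if_neg h4, if_neg, abs_zero]
        rintro ⟨h5, h6, -⟩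
        exact h4 ⟨h5, hy, h6.symm⟩
    · rw [if_neg hy, if_neg]
      exact fun h => hy h.2.2
  rw [Finset.sum_congr rfl fun b _ => h2 b, Finset.sum_comm]
  refine Finset.sum_le_sum fun x _ => ?_
  rw [← Finset.sum_filter, Finset.sum_const, nsmul_eq_mul, mul_comm]
  by_cases hx : ψ t x = 0
  · rw [hx, zero_mul, zero_mul]
  · exact mul_le_mul_of_nonneg_left (hM x hx) (h0 t x)

end fam

end Pool.Agent.Work.MP_db9399_og.helper35
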