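import Pool.Agent.Work.MP_db9399_og_helper35.OG1

/-!
# MP_db9399, OWNG (helper35), part 2: the signed tests of the tokens
-/

set_option autoImplicit false

namespace Pool.Agent.Work.MP_db9399_og.helper35

open Finset Classical
open Pool.Agent.Work.MP_db9399_all (nb mis)
open Pool.Agent.Work.MP_db9399_sg (tkN)

universe u

variable {V T : Type u} [Fintype V] [Fintype T] {P : ℕ}

/-- the tokens: fixed ones and those of the own colours -/
theorem tkN_sum (O U : Finset V) (N : Fin P → V → V) (A : T → Fin P → Prop) (κ : T → V → ℝ)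
    (hN : ∀ b v, N b (N b v) = v) (hκ : ∀ t x, x ∉ O → κ t x = 0) (c : V → Fin P)
    (hc : ∀ b, ∀ x ∈ O, N b x ≠ x → cU U c (N b x) = some b → cU U c x ≠ some b)
    (t : T) (b : Fin P) (hA : A t b) :
    ∑ x ∈ tkN O (cU U c) N b, κ t x = ∑ x ∈ O.filter (fun x => N b x = x), κ t x +
      3 * ∑ y ∈ U.filter (fun y => c y = b), gS U N A κ t b y := by
  have h1 : 3 * ∑ y ∈ U.filter (fun y => c y = b), gS U N A κ t b y =
      ∑ y, (if cU U c y = some b ∧ N b y ≠ y then κ t (N b y) else 0) -
        ∑ y, (if cU U c y = some b ∧ N b y = y then κ t y else 0) := by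
    rw [← Finset.sum_sub_distrib, Finset.mul_sum]
    have h2 : ∑ y ∈ U.filter (fun y => c y = b), 3 * gS U N A κ t b y =
        ∑ y, (if cU U c y = some b then 3 * gS U N A κ t b y else 0) := by
      rw [← Finset.sum_filter]
      apply Finset.sum_congr _ fun _ _ => rfl
      ext y
      rw [Finset.mem_filter, Finset.mem_filter, cU_eq]
      exact ⟨fun h => ⟨Finset.mem_univ _, h⟩, fun h => h.2⟩
    rw [h2]
    apply Finset.sum_congr rfl
    intro y _
    by_cases h3 : cU U c y = some b
    · have h4 := (cU_eq.mp h3).1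
      unfold gS
      rw [if_pos h3, if_pos ⟨hA, h4⟩]
      by_cases h5 : N b y = y
      · rw [if_pos h5, if_neg (fun h => h.2 h5), if_pos ⟨h3, h5⟩]
        ring
      · rw [if_neg h5, if_pos ⟨h3, h5⟩, if_neg (fun h => h5 h.2)]
        ring
    · rw [if_neg h3, if_neg (fun h => h3 h.1), if_neg (fun h => h3 h.1), sub_zero]
  have h4 : ∑ y, (if cU U c y = some b ∧ N b y ≠ y then κ t (N b y) else 0) =
      ∑ x, (if cU U c (N b x) = some b ∧ x ≠ N b x then κ t x else 0) := by
    rw [← sum_N hN b (fun y => if cU U c y = some b ∧ N b y ≠ y then κ t (N b y) else 0)]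
    apply Finset.sum_congr rfl
    intro x _
    rw [hN]
  rw [h1, h4]
  unfold tkN
  have h5 : ∀ (p : V → Prop) [DecidablePred p], ∑ x ∈ O.filter p, κ t x =
      ∑ x, (if p x then κ t x else 0) := by
    intro p _
    rw [Finset.sum_filter]
    apply Finset.sum_subset (Finset.subset_univ _)
    intro x _ hx
    rw [hκ t x hx, ite_self]
  rw [h5, h5, ← Finset.sum_sub_distrib, ← Finset.sum_add_distrib]
  apply Finset.sum_congr rfl
  intro x _
  by_cases hx : x ∈ O
  · by_cases h6 : N b x = x
    · rw [h6]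
      by_cases h7 : cU U c x = some b
      · simp [h7]
      · simp [h7]
    · by_cases h7 : cU U c (N b x) = some b
      · have h8 := hc b x hx h6 h7
        have h9 : x ≠ N b x := fun h => h6 h.symm
        simp [h6, h7, h8, h9]
      · simp [h6, h7]
  · rw [hκ t x hx]
    simp

/-- the mean of the signed test -/
theorem gS_mean (U : Finset V) (N : Fin P → V → V) (A : T → Fin P → Prop) (κ : T → V → ℝ)
    (hN : ∀ b v, N b (N b v) = v) (t : T) (e : ℝ) (he : |∑ x, κ t x| ≤ e) (M : V → ℝ)
    (hM : ∀ x, κ t x ≠ 0 → 2 * ((univ.filter fun b => A t b ∧ N b x = x).card : ℝ) +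
      ((univ.filter fun b => A t b ∧ N b x ≠ x ∧ N b x ∉ U).card : ℝ) ≤ M x) :
    ∑ b : Fin P, |∑ y ∈ U, gS U N A κ t b y| ≤ 1 / 3 * (P * e + ∑ x, |κ t x| * M x) := by
  have he0 : 0 ≤ e := (abs_nonneg _).trans he
  have h1 : ∀ b : Fin P, |∑ y ∈ U, gS U N A κ t b y| ≤ 1 / 3 * (e +
      ∑ x, (2 * (if A t b ∧ N b x = x then |κ t x| else 0) +
        (if A t b ∧ N b x ≠ x ∧ N b x ∉ U then |κ t x| else 0))) := by
    intro b
    by_cases hA : A t b
    · have h2 : ∑ y ∈ U, gS U N A κ t b y =
          1 / 3 * (∑ y, (if y ∈ U ∧ N b y ≠ y then κ t (N b y) else 0) -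
            ∑ y, (if y ∈ U ∧ N b y = y then κ t y else 0)) := by
        rw [← Finset.sum_sub_distrib, Finset.mul_sum]
        have h3 : ∑ y ∈ U, gS U N A κ t b y = ∑ y, (if y ∈ U then gS U N A κ t b y else 0) := by
          rw [← Finset.sum_filter]
          congr 1
          ext y
          simp
        rw [h3]
        apply Finset.sum_congr rfl
        intro y _
        unfold gS
        by_cases h4 : y ∈ U
        · rw [if_pos h4, if_pos ⟨hA, h4⟩]
          by_cases h5 : N b y = y
          · rw [if_pos h5, if_neg (fun h => h.2 h5), if_pos ⟨h4, h5⟩]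
            ring
          · rw [if_neg h5, if_pos ⟨h4, h5⟩, if_neg (fun h => h5 h.2)]
            ring
        · rw [if_neg h4, if_neg (fun h => h4 h.1), if_neg (fun h => h4 h.1)]
          ring
      have h4 : ∑ y, (if y ∈ U ∧ N b y ≠ y then κ t (N b y) else 0) =
          ∑ x, (if N b x ∈ U ∧ x ≠ N b x then κ t x else 0) := by
        rw [← sum_N hN b (fun y => if y ∈ U ∧ N b y ≠ y then κ t (N b y) else 0)]
        apply Finset.sum_congr rfl
        intro x _
        rw [hN]
      have h5 : ∑ y ∈ U, gS U N A κ t b y = 1 / 3 * (∑ x, κ t x -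
          ∑ x, κ t x * (1 - (if N b x ∈ U ∧ x ≠ N b x then 1 else 0) +
            (if x ∈ U ∧ N b x = x then 1 else 0))) := by
        rw [h2, h4, ← Finset.sum_sub_distrib, ← Finset.sum_sub_distrib]
        congr 1
        apply Finset.sum_congr rfl
        intro x _
        split_ifs <;> ring
      rw [h5, abs_mul, abs_of_pos (by norm_num : (0 : ℝ) < 1 / 3)]
      apply mul_le_mul_of_nonneg_left _ (by norm_num)
      refine (abs_sub _ _).trans (add_le_add he ((Finset.abs_sum_le_sum_abs _ _).trans
        (Finset.sum_le_sum fun x _ => ?_)))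
      have h0 := abs_nonneg (κ t x)
      by_cases h6 : N b x = x
      · have h7 : ¬ (N b x ∈ U ∧ x ≠ N b x) := fun h => h.2 h6.symm
        have h10 : (if A t b ∧ N b x = x then |κ t x| else 0) = |κ t x| := if_pos ⟨hA, h6⟩
        have h11 : (if A t b ∧ N b x ≠ x ∧ N b x ∉ U then |κ t x| else 0) = 0 :=
          if_neg (fun h => h.2.1 h6)
        rw [if_neg h7, abs_mul, h10, h11]
        have h8 : |(1 : ℝ) - 0 + (if x ∈ U ∧ N b x = x then 1 else 0)| ≤ 2 := by
          split_ifs
          · norm_num
          · norm_num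
        have h9 := mul_le_mul_of_nonneg_left h8 h0
        linarith
      · have h7 : ¬ (x ∈ U ∧ N b x = x) := fun h => h6 h.2
        have h8 : ¬ (A t b ∧ N b x = x) := fun h => h6 h.2
        rw [if_neg h7, if_neg h8]
        by_cases h9 : N b x ∈ U
        · rw [if_pos ⟨h9, fun h => h6 h.symm⟩]
          norm_num
          split_ifs
          · exact h0
          · exact le_rfl
        · rw [if_neg (fun h => h9 h.1), if_pos ⟨hA, h6, h9⟩]
          norm_num
    · have h2 : ∑ y ∈ U, gS U N A κ t b y = 0 := by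
        apply Finset.sum_eq_zero
        intro y _
        unfold gS
        rw [if_neg (fun h => hA h.1)]
      rw [h2, abs_zero]
      have h3 : 0 ≤ ∑ x, (2 * (if A t b ∧ N b x = x then |κ t x| else 0) +
        (if A t b ∧ N b x ≠ x ∧ N b x ∉ U then |κ t x| else 0)) := by
        apply Finset.sum_nonneg
        intro x _
        have h0 := abs_nonneg (κ t x)
        split_ifs <;> positivity
      positivity
  refine (Finset.sum_le_sum fun b _ => h1 b).trans ?_
  rw [← Finset.mul_sum]
  apply mul_le_mul_of_nonneg_left _ (by norm_num)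
  rw [Finset.sum_add_distrib, Finset.sum_comm]
  have h2 : ∑ _b : Fin P, e = P * e := by simp
  rw [h2]
  gcongr with x _
  have h3 : ∑ b : Fin P, (2 * (if A t b ∧ N b x = x then |κ t x| else 0) +
      (if A t b ∧ N b x ≠ x ∧ N b x ∉ U then |κ t x| else 0)) =
      |κ t x| * (2 * ((univ.filter fun b => A t b ∧ N b x = x).card : ℝ) +
        ((univ.filter fun b => A t b ∧ N b x ≠ x ∧ N b x ∉ U).card : ℝ)) := by
    rw [Finset.sum_add_distrib, ← Finset.mul_sum, ← Finset.sum_filter, ← Finset.sum_filter,
      Finset.sum_const, Finset.sum_const, nsmul_eq_mul, nsmul_eq_mul]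
    ring
  rw [h3]
  by_cases hx : κ t x = 0
  · rw [hx, abs_zero, zero_mul, zero_mul]
  · exact mul_le_mul_of_nonneg_left (hM x hx) (abs_nonneg _)

end Pool.Agent.Work.MP_db9399_og.helper35
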