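import Pool.Agent.Work.MP_db9399_og_helper35.OG2

/-!
# MP_db9399, OWNG (helper35), part 3: the upper tests, numbers
-/

set_option autoImplicit false

namespace Pool.Agent.Work.MP_db9399_og.helper35

open Finset Classical
open Pool.Agent.Work.MP_db9399_all (nb mis)
open Pool.Agent.Work.MP_db9399_ow (Sig Upt)
open Pool.Agent.Work.MP_db9399_cg (sx sp)

universe u

section upt

variable {V : Type u} [Fintype V] {P : ℕ}

/-- the partners of `x` -/
noncomputable def qA (N : Fin P → V → V) (x : V) : Finset (Fin P × V) :=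
  univ.filter fun z => N z.1 x = z.2 ∧ z.2 ≠ x

/-- the partners in `B t` -/
noncomputable def qN {τ : Type u} (N : Fin P → V → V) (bb : τ → Fin P) (B : τ → Finset V) (t : τ) :
    Finset (Fin P × V) :=
  univ.filter fun z => z.1 = bb t ∧ N (bb t) z.2 ∈ B t ∧ N (bb t) z.2 ≠ z.2

/-- the vertices in `B t` -/
noncomputable def qI {τ : Type u} (bb : τ → Fin P) (B : τ → Finset V) (t : τ) :
    Finset (Fin P × V) :=
  univ.filter fun z => z.1 = bb t ∧ z.2 ∈ B t

theorem uptA {N : Fin P → V → V} (hN : ∀ b v, N b (N b v) = v) {s : ℝ} (hs : (P : ℝ) ≤ s) :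
    Upt s s (qA N) := by
  constructor
  · intro x
    refine le_trans ?_ hs
    have : (qA N x).card ≤ (univ : Finset (Fin P)).card := by
      apply Finset.card_le_card_of_injOn (fun z => z.1)
      · intro z _
        exact Finset.mem_coe.2 (Finset.mem_univ _)
      · intro z hz z' hz' he
        unfold qA at hz hz'
        have h1 := (Finset.mem_filter.mp (Finset.mem_coe.mp hz)).2.1
        have h2 := (Finset.mem_filter.mp (Finset.mem_coe.mp hz')).2.1
        have he' : z.1 = z'.1 := he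
        apply Prod.ext he'
        rw [← h1, ← h2, he']
    rw [Finset.card_univ, Fintype.card_fin] at this
    exact_mod_cast this
  · intro v
    refine le_trans ?_ hs
    have h0 : (univ.filter fun q => ∃ b, (b, v) ∈ qA N q) ⊆ univ.image fun b => N b v := by
      intro x hx
      obtain ⟨-, b, hb⟩ := Finset.mem_filter.mp hx
      unfold qA at hb
      have h1 := (Finset.mem_filter.mp hb).2.1
      refine Finset.mem_image.mpr ⟨b, Finset.mem_univ _, ?_⟩
      have h2 : N b x = v := h1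
      rw [← h2, hN]
    have h1 := (Finset.card_le_card h0).trans Finset.card_image_le
    rw [Finset.card_univ, Fintype.card_fin] at h1
    exact_mod_cast h1

theorem uptN {τ : Type u} [Fintype τ] {N : Fin P → V → V} (hN : ∀ b v, N b (N b v) = v)
    (bb : τ → Fin P) (B : τ → Finset V) {s W : ℝ} (hs : ∀ t, ((B t).card : ℝ) ≤ s)
    (hW : ∀ v, ((univ.filter fun t => N (bb t) v ∈ B t).card : ℝ) ≤ W) :
    Upt s W (qN N bb B) := by
  constructor
  · intro t
    refine le_trans ?_ (hs t)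
    have : (qN N bb B t).card ≤ (B t).card := by
      apply Finset.card_le_card_of_injOn (fun z => N (bb t) z.2)
      · intro z hz
        unfold qN at hz
        exact Finset.mem_coe.2 (Finset.mem_filter.mp (Finset.mem_coe.mp hz)).2.2.1
      · intro z hz z' hz' he
        unfold qN at hz hz'
        have h1 := (Finset.mem_filter.mp (Finset.mem_coe.mp hz)).2.1
        have h2 := (Finset.mem_filter.mp (Finset.mem_coe.mp hz')).2.1
        have he' : N (bb t) z.2 = N (bb t) z'.2 := he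
        apply Prod.ext (h1.trans h2.symm)
        rw [← hN (bb t) z.2, he', hN]
    exact_mod_cast this
  · intro v
    refine le_trans (Nat.cast_le.mpr (Finset.card_le_card ?_)) (hW v)
    intro t ht
    obtain ⟨-, b, hb⟩ := Finset.mem_filter.mp ht
    unfold qN at hb
    exact Finset.mem_filter.mpr ⟨Finset.mem_univ _, (Finset.mem_filter.mp hb).2.2.1⟩

theorem uptI {τ : Type u} [Fintype τ] (bb : τ → Fin P) (B : τ → Finset V) {s W : ℝ}
    (hs : ∀ t, ((B t).card : ℝ) ≤ s)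
    (hW : ∀ v, ((univ.filter fun t => v ∈ B t).card : ℝ) ≤ W) :
    Upt s W (qI bb B) := by
  constructor
  · intro t
    refine le_trans ?_ (hs t)
    have : (qI bb B t).card ≤ (B t).card := by
      apply Finset.card_le_card_of_injOn (fun z => z.2)
      · intro z hz
        unfold qI at hz
        exact Finset.mem_coe.2 (Finset.mem_filter.mp (Finset.mem_coe.mp hz)).2.2
      · intro z hz z' hz' he
        unfold qI at hz hz'
        have h1 := (Finset.mem_filter.mp (Finset.mem_coe.mp hz)).2.1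
        have h2 := (Finset.mem_filter.mp (Finset.mem_coe.mp hz')).2.1
        exact Prod.ext (h1.trans h2.symm) he
    exact_mod_cast this
  · intro v
    refine le_trans (Nat.cast_le.mpr (Finset.card_le_card ?_)) (hW v)
    intro t ht
    obtain ⟨-, b, hb⟩ := Finset.mem_filter.mp ht
    unfold qI at hb
    exact Finset.mem_filter.mpr ⟨Finset.mem_univ _, (Finset.mem_filter.mp hb).2.2⟩

/-- counting pairs -/
theorem card_pairs {X Y : Type u} [Fintype X] [Fintype Y] (R : X → Y → Prop) (m n : ℝ)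
    (hm : ∀ x, ((univ.filter fun y => R x y).card : ℝ) ≤ m) (hn : (Fintype.card X : ℝ) ≤ n)
    (hm0 : 0 ≤ m) : ((univ.filter fun p : X × Y => R p.1 p.2).card : ℝ) ≤ n * m := by
  have h1 : ((univ.filter fun p : X × Y => R p.1 p.2).card : ℝ) =
      ∑ x, ((univ.filter fun y => R x y).card : ℝ) := by
    rw [Finset.card_filter, Fintype.sum_prod_type]
    push_cast
    apply Finset.sum_congr rfl
    intro x _
    rw [Finset.card_filter]
    push_cast
    rfl
  rw [h1]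
  calc ∑ x, ((univ.filter fun y => R x y).card : ℝ) ≤ ∑ _x : X, m :=
        Finset.sum_le_sum fun x _ => hm x
    _ = Fintype.card X * m := by rw [Finset.sum_const, Finset.card_univ, nsmul_eq_mul]
    _ ≤ n * m := mul_le_mul_of_nonneg_right hn hm0

/-- counting pairs, first factor `Fin P` -/
theorem card_pairsF {Y : Type u} [Fintype Y] (R : Fin P → Y → Prop) (m n : ℝ)
    (hm : ∀ x, ((univ.filter fun y => R x y).card : ℝ) ≤ m) (hn : (P : ℝ) ≤ n)
    (hm0 : 0 ≤ m) : ((univ.filter fun p : Fin P × Y => R p.1 p.2).card : ℝ) ≤ n * m := by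
  have h1 : ((univ.filter fun p : Fin P × Y => R p.1 p.2).card : ℝ) =
      ∑ x, ((univ.filter fun y => R x y).card : ℝ) := by
    rw [Finset.card_filter, Fintype.sum_prod_type]
    push_cast
    apply Finset.sum_congr rfl
    intro x _
    rw [Finset.card_filter]
    push_cast
    rfl
  rw [h1]
  calc ∑ x, ((univ.filter fun y => R x y).card : ℝ) ≤ ∑ _x : Fin P, m :=
        Finset.sum_le_sum fun x _ => hm x
    _ = P * m := by rw [Finset.sum_const, Finset.card_univ, nsmul_eq_mul, Fintype.card_fin]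
    _ ≤ n * m := mul_le_mul_of_nonneg_right hn hm0

end upt

/-! ### numbers -/

theorem largeG (a C Q1 : ℝ) (N : ℕ) (ha : 0 < a) :
    ∃ d0 : ℕ, ∀ d : ℕ, d0 ≤ d → 100 ≤ d ∧ Q1 ≤ (d : ℝ) ^ (a / 40) ∧
      Real.log d ≤ (d : ℝ) ^ (a / 40) ∧ (2 : ℝ) ^ N ≤ (d : ℝ) ^ (1 / 2 : ℝ) ∧
      8192 * C ≤ (d : ℝ) ^ (a / 120) := by
  have hT : ∀ s c : ℝ, 0 < s → ∀ᶠ d : ℕ in Filter.atTop, c ≤ (d : ℝ) ^ s := fun s c hs =>
    ((tendsto_rpow_atTop hs).comp tendsto_natCast_atTop_atTop).eventually_ge_atTop c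
  have hlog : ∀ᶠ d : ℕ in Filter.atTop, Real.log d ≤ (d : ℝ) ^ (a / 40) := by
    have h1 := (isLittleO_log_rpow_atTop (show 0 < a / 40 by positivity)).bound
      (show (0 : ℝ) < 1 by norm_num)
    have h2 := tendsto_natCast_atTop_atTop (R := ℝ) |>.eventually h1
    filter_upwards [h2] with d hd
    rw [one_mul, Real.norm_eq_abs, Real.norm_of_nonneg (by positivity)] at hd
    exact (le_abs_self _).trans hd
  have hall := (Filter.eventually_ge_atTop 100).and ((hT (a / 40) Q1 (by positivity)).and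
    (hlog.and ((hT (1 / 2) ((2 : ℝ) ^ N) (by norm_num)).and
      (hT (a / 120) (8192 * C) (by positivity)))))
  exact Filter.eventually_atTop.1 hall

/-- everything about `x = ⌈d ^ (a / 40)⌉` -/
theorem xnum (a C Q1 : ℝ) (Nn C' d : ℕ) (ha : 0 < a) (ha1 : a ≤ 1 / 100) (hC : 1 ≤ C)
    (haN : a * (Nn + 1) ≤ 20) (hQ : 200 ≤ Q1) (h100 : 100 ≤ d) (hQ1 : Q1 ≤ (d : ℝ) ^ (a / 40))
    (hlog : Real.log d ≤ (d : ℝ) ^ (a / 40)) (hN : (2 : ℝ) ^ Nn ≤ (d : ℝ) ^ (1 / 2 : ℝ))
    (h8 : 8192 * C ≤ (d : ℝ) ^ (a / 120)) :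
    ∃ x : ℕ, Q1 ≤ x ∧ Real.log d ≤ x ∧ (x : ℝ) ≤ d ∧ x ^ Nn ≤ d ∧
      (d : ℝ) ^ (a / 100) * 32 ≤ x ∧ (d : ℝ) ^ a ≤ (x : ℝ) ^ 40 ∧
      C * (d : ℝ) ^ (1 - a / 3) * (x : ℝ) ^ 13 ≤ d ∧
      (x : ℝ) ^ C' ≤ 2 ^ C' * (d : ℝ) ^ (a / 40 * C') ∧
      Q1 * (sx d a * (d : ℝ) ^ 2) ≤ Real.exp ((x : ℝ) ^ 3) := by
  set X : ℝ := (d : ℝ) ^ (a / 40) with hX
  have h100' : (100 : ℝ) ≤ d := by exact_mod_cast h100
  have hd1 : (1 : ℝ) ≤ d := by linarith
  have hdp : (0 : ℝ) < d := by linarith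
  have hX0 : 0 < X := by linarith
  have hX200 : 200 ≤ X := by linarith
  have hXx : X ≤ (⌈X⌉₊ : ℝ) := Nat.le_ceil X
  have hx2 : (⌈X⌉₊ : ℝ) ≤ 2 * X := by
    have := (Nat.ceil_lt_add_one hX0.le).le
    linarith
  have hXpow : ∀ m : ℕ, X ^ m = (d : ℝ) ^ (a / 40 * m) := by
    intro m
    rw [hX, ← Real.rpow_natCast, ← Real.rpow_mul hdp.le]
  have hxpow : ∀ m : ℕ, (⌈X⌉₊ : ℝ) ^ m ≤ 2 ^ m * (d : ℝ) ^ (a / 40 * m) := by
    intro m
    rw [← hXpow, ← mul_pow]
    exact pow_le_pow_left₀ (by positivity) hx2 m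
  have hxpow' : ∀ m : ℕ, (d : ℝ) ^ (a / 40 * m) ≤ (⌈X⌉₊ : ℝ) ^ m := by
    intro m
    rw [← hXpow]
    exact pow_le_pow_left₀ hX0.le hXx m
  have hXd : 2 * X ≤ d := by
    have h1 : X ≤ (d : ℝ) ^ (1 / 2 : ℝ) :=
      Real.rpow_le_rpow_of_exponent_le hd1 (by linarith)
    have h2 : (2 : ℝ) ≤ (d : ℝ) ^ (1 / 2 : ℝ) := by
      rw [← Real.sqrt_eq_rpow]
      apply Real.le_sqrt_of_sq_le
      linarith
    calc 2 * X ≤ (d : ℝ) ^ (1 / 2 : ℝ) * (d : ℝ) ^ (1 / 2 : ℝ) :=
          mul_le_mul h2 h1 hX0.le (by positivity)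
      _ = d := by
          rw [← Real.rpow_add hdp]
          norm_num
  refine ⟨⌈X⌉₊, hQ1.trans hXx, hlog.trans hXx, hx2.trans hXd, ?_, ?_, ?_, ?_, hxpow C', ?_⟩
  · have h1 : (⌈X⌉₊ : ℝ) ^ Nn ≤ d := by
      calc (⌈X⌉₊ : ℝ) ^ Nn ≤ 2 ^ Nn * (d : ℝ) ^ (a / 40 * Nn) := hxpow Nn
        _ ≤ (d : ℝ) ^ (1 / 2 : ℝ) * (d : ℝ) ^ (1 / 2 : ℝ) := by
            apply mul_le_mul hN _ (by positivity) (by positivity)
            apply Real.rpow_le_rpow_of_exponent_le hd1
            nlinarith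
        _ = d := by
            rw [← Real.rpow_add hdp]
            norm_num
    exact_mod_cast h1
  · refine le_trans ?_ hXx
    have h1 : (32 : ℝ) ≤ (d : ℝ) ^ (a / 120) := by linarith
    calc (d : ℝ) ^ (a / 100) * 32 ≤ (d : ℝ) ^ (a / 100) * (d : ℝ) ^ (a / 120) :=
          mul_le_mul_of_nonneg_left h1 (by positivity)
      _ = (d : ℝ) ^ (a / 100 + a / 120) := by rw [← Real.rpow_add hdp]
      _ ≤ (d : ℝ) ^ (a / 40) := Real.rpow_le_rpow_of_exponent_le hd1 (by linarith)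
  · have := hxpow' 40
    have h2 : a / 40 * ((40 : ℕ) : ℝ) = a := by push_cast; ring
    rw [h2] at this
    exact this
  · calc C * (d : ℝ) ^ (1 - a / 3) * (⌈X⌉₊ : ℝ) ^ 13
        ≤ C * (d : ℝ) ^ (1 - a / 3) * (2 ^ 13 * (d : ℝ) ^ (a / 40 * (13 : ℕ))) :=
          mul_le_mul_of_nonneg_left (hxpow 13) (by positivity)
      _ = (8192 * C) * ((d : ℝ) ^ (1 - a / 3) * (d : ℝ) ^ (a / 40 * (13 : ℕ))) := by
          ring
      _ ≤ (d : ℝ) ^ (a / 120) * ((d : ℝ) ^ (1 - a / 3) * (d : ℝ) ^ (a / 40 * (13 : ℕ))) :=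
          mul_le_mul_of_nonneg_right h8 (by positivity)
      _ = (d : ℝ) ^ (1 : ℝ) := by
          rw [← Real.rpow_add hdp, ← Real.rpow_add hdp]
          congr 1
          push_cast
          ring
      _ = d := Real.rpow_one _
  · have hwX : sx d a = Real.exp (X ^ 2) := by
      rw [hXpow]
      unfold Pool.Agent.Work.MP_db9399_cg.sx
      congr 2
      push_cast
      ring
    have h1 : Real.exp (X ^ 2 + 4 * X) ≤ Real.exp ((⌈X⌉₊ : ℝ) ^ 3) := by
      apply Real.exp_le_exp.2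
      have h2 : X ^ 3 ≤ (⌈X⌉₊ : ℝ) ^ 3 := pow_le_pow_left₀ hX0.le hXx 3
      nlinarith
    have h4 : (d : ℝ) ≤ Real.exp X := by
      rw [← Real.log_le_iff_le_exp hdp]
      exact hlog
    have h5 : (d : ℝ) ^ 3 ≤ Real.exp (4 * X) := by
      have h6 : Real.exp (4 * X) = Real.exp X ^ 4 := by
        rw [← Real.exp_nat_mul]
        norm_num
      rw [h6]
      have h7 : (d : ℝ) ^ 4 ≤ Real.exp X ^ 4 := pow_le_pow_left₀ hdp.le h4 4
      have h8 : (d : ℝ) ^ 3 ≤ (d : ℝ) ^ 4 := pow_le_pow_right₀ hd1 (by norm_num)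
      linarith
    have hQd : Q1 ≤ d := by linarith
    calc Q1 * (sx d a * (d : ℝ) ^ 2) = sx d a * (Q1 * (d : ℝ) ^ 2) := by ring
      _ ≤ Real.exp (X ^ 2) * Real.exp (4 * X) := by
          rw [hwX]
          apply mul_le_mul_of_nonneg_left _ (Real.exp_pos _).le
          have h9 : Q1 * (d : ℝ) ^ 2 ≤ d * (d : ℝ) ^ 2 :=
            mul_le_mul_of_nonneg_right hQd (by positivity)
          have h10 : (d : ℝ) * (d : ℝ) ^ 2 = (d : ℝ) ^ 3 := by ring
          linarith
      _ = Real.exp (X ^ 2 + 4 * X) := by rw [Real.exp_add]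
      _ ≤ _ := h1

end Pool.Agent.Work.MP_db9399_og.helper35
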