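import Pool.Agent.Work.MP_db9399_og_helper35.OG3
import Pool.Agent.Work.MP_db9399_cg_helper35.Kern

/-!
# MP_db9399, OWNG (helper35), part 4: facts about the matchings, the four families of tests
-/

set_option autoImplicit false

namespace Pool.Agent.Work.MP_db9399_og.helper35

open Finset Classical
open Pool.Agent.Work.MP_db9399_all (nb mis)
open Pool.Agent.Work.MP_db9399_ow (Sig Upt)
open Pool.Agent.Work.MP_db9399_cg (sx sp pk)
open Pool.Agent.Work.MP_db9399_sg
open Pool.Agent.Work.MP_db9399_ox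

universe u

variable {V I I' J : Type u} [Fintype V] [Fintype I] [Fintype I'] [Fintype J] {P : ℕ}

/-- facts about the matchings -/
structure Fct (E : SimpleGraph V) (H S : J → SimpleGraph V) (cl : Fin P → J) (O U : Finset V)
    (nd : J → V → Option (I × Bool)) (N : Fin P → V → V) : Prop where
  NN : ∀ b v, N b (N b v) = v
  NO : ∀ b, ∀ x ∈ O, N b x ≠ x → (H (cl b)).Adj x (N b x)
  Nd : ∀ b b' v, N b v ≠ v → N b v = N b' v → b = b'
  c3 : ∀ j, ∀ x ∈ O, (univ.filter fun b => cl b = j ∧ N b x = x).card ≤ 3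

theorem Fct.of {E : SimpleGraph V} {H Gh S : J → SimpleGraph V} {cl : Fin P → J}
    {O W U K : Finset V} {A Ex Exc : J → Finset V} {nd : J → V → Option (I × Bool)} {pr : I → I'}
    {d : ℕ} {D r : J → ℕ} {a MS g δ β c1 C C' ρ0 ρ2 e ρ1 δ' β' c1' ρ0' MS' g' : ℝ} {L : ℕ}
    {N0 N : Fin P → V → V}
    (hC : Cls H Gh O W A Ex nd pr d D r a MS g δ β c1 C C' ρ0)
    (hS : ∀ j, ResN (H j) (Gh j) (S j) O (A j) (D j) (r j) a g' δ' β' c1' ρ0' ρ2 MS' K (Exc j))
    (h0 : Mt0 H S cl O nd pr d D r a e ρ1 L N0) (h1 : Mt1 S cl W nd N0 N) :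
    Fct E H S cl O U nd N := by
  have hnd : ∀ j, ∀ x ∈ O, nd j x = none := fun j x hx =>
    ((hC.wld j).cov x ((hC.wld j).OA hx)).mp hx
  have hN0 : ∀ b, ∀ x ∈ O, N b x ≠ x → N0 b x ≠ x := by
    intro b x hx h2 h3
    obtain ⟨i, s, h4, -⟩ := h1.fil b x h3 h2
    rw [hnd _ x hx] at h4
    exact absurd h4 (by simp)
  refine ⟨h1.NN, ?_, h1.Nd, ?_⟩
  · intro b x hx h2
    have h3 := hN0 b x hx h2
    rw [h1.ext b x h3]
    exact (h0.NG b x h3).1
  · intro j x hx
    have h2 : (univ.filter fun b => cl b = j ∧ N b x = x).card ≤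
        (univ.filter fun b => cl b = j ∧ N0 b x = x).card := by
      apply Finset.card_le_card
      intro b hb
      rw [Finset.mem_filter] at hb ⊢
      refine ⟨hb.1, hb.2.1, ?_⟩
      by_contra h3
      have h4 := h1.ext b x h3
      rw [hb.2.2] at h4
      exact h3 h4.symm
    have h3 := h0.tkc j x hx
    have h4 := (hS j).cl.hi x
    have h5 : nb (Gh j) x = nb (H j) x := by
      ext w
      rw [mem_nb, mem_nb]
      constructor
      · intro h6
        by_contra h7
        obtain ⟨i, s, h8, -⟩ := (hC.wld j).gad x w h6 h7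
        rw [hnd _ x hx] at h8
        exact absurd h8 (by simp)
      · exact fun h6 => (hC.wld j).HG h6
    have h6 := ((hC.wld j).dex x ((hC.wld j).OA hx)).2
    rw [h5] at h6
    omega

section facts

variable {E : SimpleGraph V} {H S : J → SimpleGraph V} {cl : Fin P → J} {O U : Finset V}
  {nd : J → V → Option (I × Bool)} {N : Fin P → V → V}

theorem Fct.out (h : Fct E H S cl O U nd N) (j : J) {x : V} (hx : x ∈ O) :
    (univ.filter fun b => cl b = j ∧ N b x ≠ x ∧ N b x ∉ U).card ≤ (nb (H j) x \ U).card := by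
  apply Finset.card_le_card_of_injOn (fun b => N b x)
  · intro b hb
    obtain ⟨-, h1, h2, h3⟩ := Finset.mem_filter.mp (Finset.mem_coe.mp hb)
    refine Finset.mem_coe.mpr (Finset.mem_sdiff.mpr ⟨mem_nb.mpr ?_, h3⟩)
    rw [← h1]
    exact h.NO b x hx h2
  · intro b hb b' hb' he
    obtain ⟨-, h1, h2, h3⟩ := Finset.mem_filter.mp (Finset.mem_coe.mp hb)
    exact h.Nd b b' x h2 he

theorem Fct.inn (h : Fct E H S cl O U nd N) (hUO : U ⊆ O) (j : J) (x : V) :
    (univ.filter fun b => cl b = j ∧ N b x ≠ x ∧ N b x ∈ U).card ≤ (nb (H j) x).card := by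
  apply Finset.card_le_card_of_injOn (fun b => N b x)
  · intro b hb
    obtain ⟨-, h1, h2, h3⟩ := Finset.mem_filter.mp (Finset.mem_coe.mp hb)
    refine Finset.mem_coe.mpr (mem_nb.mpr ?_)
    rw [← h1]
    have h4 := h.NO b (N b x) (hUO h3) (by rw [h.NN]; exact fun h5 => h2 h5.symm)
    rw [h.NN] at h4
    exact h4.symm
  · intro b hb b' hb' he
    obtain ⟨-, h1, h2, h3⟩ := Finset.mem_filter.mp (Finset.mem_coe.mp hb)
    exact h.Nd b b' x h2 he

theorem Fct.EN (h : Fct E H S cl O U nd N) (hUO : U ⊆ O) (hHE : ∀ j, H j ≤ E) :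
    ∀ b, ∀ y ∈ U, N b y ≠ y → E.Adj y (N b y) := fun b y hy h2 =>
  hHE (cl b) (h.NO b y (hUO hy) h2)

end facts

/-! ### upper tests: what they say -/

section upp

variable {U : Finset V} {N : Fin P → V → V} {c : V → Fin P}

/-- number of partners of `x` with the own colour -/
theorem cntA (hN : ∀ b v, N b (N b v) = v) (x : V) :
    (univ.filter fun b => N b x ≠ x ∧ cU U c (N b x) = some b).card ≤
      ((qA N x).filter (fun y => y.2 ∈ U ∧ c y.2 = y.1)).card := by
  apply Finset.card_le_card_of_injOn (fun b => (b, N b x))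
  · intro b hb
    obtain ⟨-, h1, h2⟩ := Finset.mem_filter.mp (Finset.mem_coe.mp hb)
    obtain ⟨h3, h4⟩ := cU_eq.mp h2
    unfold qA
    exact Finset.mem_coe.mpr (Finset.mem_filter.mpr ⟨Finset.mem_filter.mpr
      ⟨Finset.mem_univ _, rfl, h1⟩, h3, h4⟩)
  · intro b hb b' hb' he
    exact congrArg Prod.fst he

/-- number of vertices of `B t` whose partner has the own colour -/
theorem cntN {τ : Type u} (hN : ∀ b v, N b (N b v) = v) (bb : τ → Fin P) (B : τ → Finset V)
    (t : τ) :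
    ((B t).filter fun x => N (bb t) x ≠ x ∧ cU U c (N (bb t) x) = some (bb t)).card ≤
      ((qN N bb B t).filter (fun y => y.2 ∈ U ∧ c y.2 = y.1)).card := by
  apply Finset.card_le_card_of_injOn (fun x => (bb t, N (bb t) x))
  · intro x hx
    obtain ⟨h0, h1, h2⟩ := Finset.mem_filter.mp (Finset.mem_coe.mp hx)
    obtain ⟨h3, h4⟩ := cU_eq.mp h2
    unfold qN
    refine Finset.mem_coe.mpr (Finset.mem_filter.mpr ⟨Finset.mem_filter.mpr
      ⟨Finset.mem_univ _, rfl, ?_, ?_⟩, h3, h4⟩)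
    · dsimp only
      rw [hN]
      exact h0
    · dsimp only
      rw [hN]
      exact fun h => h1 h.symm
  · intro x hx y hy he
    have := congrArg Prod.snd he
    dsimp only at this
    rw [← hN (bb t) x, this, hN]

/-- number of vertices of `B t` with the own colour -/
theorem cntI {τ : Type u} (bb : τ → Fin P) (B : τ → Finset V) (t : τ) :
    ((B t).filter fun x => cU U c x = some (bb t)).card ≤
      ((qI bb B t).filter (fun y => y.2 ∈ U ∧ c y.2 = y.1)).card := by
  apply Finset.card_le_card_of_injOn (fun x => (bb t, x))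
  · intro x hx
    obtain ⟨h0, h2⟩ := Finset.mem_filter.mp (Finset.mem_coe.mp hx)
    obtain ⟨h3, h4⟩ := cU_eq.mp h2
    unfold qI
    exact Finset.mem_coe.mpr (Finset.mem_filter.mpr ⟨Finset.mem_filter.mpr
      ⟨Finset.mem_univ _, rfl, h0⟩, h3, h4⟩)
  · intro x hx y hy he
    exact congrArg Prod.snd he

end upp

/-! ### number of colours -/

theorem P_eq (cl : Fin P → J) : P = ∑ j, (univ.filter fun b => cl b = j).card := by
  have h := Finset.card_eq_sum_card_fiberwise (f := cl) (s := (univ : Finset (Fin P)))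
    (t := (univ : Finset J)) (fun b _ => Finset.mem_coe.2 (Finset.mem_univ _))
  rw [Finset.card_univ, Fintype.card_fin] at h
  exact h

theorem P_bd (cl : Fin P → J) (D r : J → ℕ) (d : ℕ) (C a : ℝ) (ha : 0 < a) (ha1 : a ≤ 1 / 100)
    (hd1 : 1 ≤ d)
    (hr : ∀ j, (univ.filter fun b => cl b = j).card + r j = D j) (hd : ∑ j, D j = d)
    (hJ : (Fintype.card J : ℝ) ≤ C) (hD : ∀ j, D j ≤ d)
    (hr2 : ∀ j, (r j : ℝ) + 2 ≤ (D j : ℝ) ^ (1 - a / 3)) :
    P ≤ d ∧ (d : ℝ) - C * (d : ℝ) ^ (1 - a / 3) ≤ P := by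
  have h1 : P + ∑ j, r j = d := by
    rw [P_eq cl, ← Finset.sum_add_distrib, ← hd]
    exact Finset.sum_congr rfl fun j _ => hr j
  refine ⟨by omega, ?_⟩
  have h2 : (P : ℝ) + ∑ j, (r j : ℝ) = d := by
    exact_mod_cast h1
  have h3 : ∑ j, (r j : ℝ) ≤ C * (d : ℝ) ^ (1 - a / 3) := by
    calc ∑ j, (r j : ℝ) ≤ ∑ _j : J, (d : ℝ) ^ (1 - a / 3) := by
          refine Finset.sum_le_sum fun j _ => ?_
          have h4 := hr2 j
          have h5 : (D j : ℝ) ^ (1 - a / 3) ≤ (d : ℝ) ^ (1 - a / 3) :=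
            Real.rpow_le_rpow (Nat.cast_nonneg _) (by exact_mod_cast hD j) (by linarith)
          linarith
      _ = Fintype.card J * (d : ℝ) ^ (1 - a / 3) := by
          rw [Finset.sum_const, Finset.card_univ, nsmul_eq_mul]
      _ ≤ _ := mul_le_mul_of_nonneg_right hJ (by positivity)
  linarith

/-! ### the kernels -/

theorem k0_nonneg (S : SimpleGraph V) (r L : ℕ) (v x : V) : 0 ≤ k0 S r L v x :=
  div_nonneg (Finset.sum_nonneg fun _ _ =>
    Pool.Agent.Work.MP_db9399_cg.helper35.pk_nonneg S r _ v x) (Nat.cast_nonneg _)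

theorem k1_nonneg (S : SimpleGraph V) (r L : ℕ) (v x : V) : 0 ≤ k1 S r L v x :=
  div_nonneg (Finset.sum_nonneg fun _ _ =>
    Pool.Agent.Work.MP_db9399_cg.helper35.pk_nonneg S r _ v x) (Nat.cast_nonneg _)

end Pool.Agent.Work.MP_db9399_og.helper35
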