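import Pool.Agent.Work.MP_db9399_og_helper35.OG4

/-!
# MP_db9399, OWNG (helper35), part 5: the four families of tests
-/

set_option autoImplicit false

namespace Pool.Agent.Work.MP_db9399_og.helper35

open Finset Classical
open Pool.Agent.Work.MP_db9399_all (nb mis)
open Pool.Agent.Work.MP_db9399_ow (Sig Upt)
open Pool.Agent.Work.MP_db9399_cg (sx sp pk)
open Pool.Agent.Work.MP_db9399_sg
open Pool.Agent.Work.MP_db9399_ox

universe u

variable {V I J : Type u} [Fintype V] [Fintype I] [Fintype J] {P : ℕ}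

/-- signed kernel -/
noncomputable def f1 (S : J → SimpleGraph V) (O : Finset V) (r : J → ℕ) (L : ℕ) (t : J × V)
    (x : V) : ℝ :=
  if x ∈ O then k0 (S t.1) (r t.1) L t.2 x - k1 (S t.1) (r t.1) L t.2 x else 0

/-- square of the kernel -/
noncomputable def f2 (S : J → SimpleGraph V) (O : Finset V) (d : ℕ) (r : J → ℕ) (L : ℕ)
    (t : J × V) (x : V) : ℝ :=
  if x ∈ O then d * (k0 (S t.1) (r t.1) L t.2 x + k1 (S t.1) (r t.1) L t.2 x) ^ 2 else 0

/-- neighbours in the reserve -/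
noncomputable def f3 (S : J → SimpleGraph V) (r : J → ℕ) (t : J × V) (x : V) : ℝ :=
  if x ∈ nb (S t.1) t.2 then 1 / ((r t.1 : ℝ) + 2) else 0

/-- vertices of a node -/
noncomputable def f4 (nd : J → V → Option (I × Bool)) (q : ℝ) (t : J × I) (x : V) : ℝ :=
  if x ∈ nod (nd t.1) t.2 then 1 / q else 0

/-- the colours of the class -/
def Ac {Y : Type u} (cl : Fin P → J) (t : J × Y) (b : Fin P) : Prop := cl b = t.1

/-- all colours -/
def At {T : Type u} (_ : T) (_ : Fin P) : Prop := True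

/-- the support of a function of pairs -/
theorem card_supp {Y : Type u} [Fintype Y] (f : J × Y → V → ℝ) (x : V) (m n : ℝ)
    (hm : ∀ j, ((univ.filter fun y => f (j, y) x ≠ 0).card : ℝ) ≤ m)
    (hn : (Fintype.card J : ℝ) ≤ n) (hm0 : 0 ≤ m) :
    ((univ.filter fun t => f t x ≠ 0).card : ℝ) ≤ n * m := by
  obtain ⟨R, hR⟩ : ∃ R : J → Y → Prop, ∀ j y, R j y ↔ f (j, y) x ≠ 0 :=
    ⟨fun j y => f (j, y) x ≠ 0, fun _ _ => Iff.rfl⟩
  refine le_trans (Nat.cast_le.mpr (Finset.card_le_card ?_)) (card_pairs R m n (fun j =>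
    le_trans (Nat.cast_le.mpr (Finset.card_le_card ?_)) (hm j)) hn hm0)
  · intro t ht
    exact Finset.mem_filter.mpr ⟨Finset.mem_univ _, (hR _ _).mpr (Finset.mem_filter.mp ht).2⟩
  · intro y hy
    exact Finset.mem_filter.mpr ⟨Finset.mem_univ _, (hR _ _).mp (Finset.mem_filter.mp hy).2⟩

section F1

variable {S : J → SimpleGraph V} {O : Finset V} {r D : J → ℕ} {L d : ℕ} {a C C1 e : ℝ}

theorem sx_mono {D d : ℕ} {a : ℝ} (ha : 0 < a) (h : D ≤ d) : sx D a ≤ sx d a := by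
  unfold Pool.Agent.Work.MP_db9399_cg.sx
  apply Real.exp_le_exp.2
  exact Real.rpow_le_rpow (Nat.cast_nonneg _) (by exact_mod_cast h) (by positivity)

theorem one_le_sx (d : ℕ) (a : ℝ) : 1 ≤ sx d a := by
  unfold Pool.Agent.Work.MP_db9399_cg.sx
  exact Real.one_le_exp (by positivity)

theorem f1_abs (t : J × V) (x : V) :
    |f1 S O r L t x| ≤ k0 (S t.1) (r t.1) L t.2 x + k1 (S t.1) (r t.1) L t.2 x := by
  have h0 := k0_nonneg (S t.1) (r t.1) L t.2 x
  have h1 := k1_nonneg (S t.1) (r t.1) L t.2 x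
  unfold f1
  split_ifs
  · rw [abs_le]
    constructor <;> linarith
  · rw [abs_zero]
    linarith

theorem dD {D d : ℕ} {C m : ℝ} (hC : 0 < C) (hd : 0 < d) (hm : 0 ≤ m) (h : (d : ℝ) ≤ C * D) :
    m / D ≤ C * m / d := by
  have hd' : (0 : ℝ) < d := by exact_mod_cast hd
  have hD : (0 : ℝ) < D := by
    by_contra h1
    push Not at h1
    nlinarith
  rw [div_le_div_iff₀ hD hd']
  have := mul_le_mul_of_nonneg_left h hm
  linarith

theorem f1_sup (hK : ∀ j, Krn (S j) O (r j) L (D j) a C1 e) (hC : 0 < C) (hC1 : 0 ≤ C1)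
    (hd : 0 < d) (hD : ∀ j, (d : ℝ) ≤ C * D j) (t : J × V) (x : V) :
    |f1 S O r L t x| ≤ C * C1 / d :=
  (f1_abs t x).trans (((hK t.1).sup t.2 x).trans (dD hC hd hC1 (hD t.1)))

theorem f1_l1 (hK : ∀ j, Krn (S j) O (r j) L (D j) a C1 e) (t : J × V) :
    ∑ x, |f1 S O r L t x| ≤ 3 :=
  (Finset.sum_le_sum fun x _ => f1_abs t x).trans ((hK t.1).l1 t.2)

theorem sum_O (O : Finset V) (f : V → ℝ) : ∑ x, (if x ∈ O then f x else 0) = ∑ x ∈ O, f x := by
  rw [← Finset.sum_filter]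
  congr 1
  ext x
  simp

theorem f1_l2 (hK : ∀ j, Krn (S j) O (r j) L (D j) a C1 e) (hC : 0 < C) (he : 0 ≤ e)
    (hd : 0 < d) (hD : ∀ j, (d : ℝ) ≤ C * D j) (t : J × V) :
    ∑ x, f1 S O r L t x ^ 2 ≤ C * e / d := by
  refine le_trans ?_ (((hK t.1).l2 t.2).trans (dD hC hd he (hD t.1)))
  rw [← sum_O O]
  refine Finset.sum_le_sum fun x _ => ?_
  have h0 := k0_nonneg (S t.1) (r t.1) L t.2 x
  have h1 := k1_nonneg (S t.1) (r t.1) L t.2 x
  unfold f1
  split_ifs
  · nlinarith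
  · norm_num

theorem f1_ne (t : J × V) (x : V) (h : f1 S O r L t x ≠ 0) :
    x ∈ O ∧ k0 (S t.1) (r t.1) L t.2 x + k1 (S t.1) (r t.1) L t.2 x ≠ 0 := by
  have h2 := f1_abs (S := S) (O := O) (r := r) (L := L) t x
  constructor
  · by_contra h3
    apply h
    unfold f1
    rw [if_neg h3]
  · intro h3
    rw [h3] at h2
    have h4 : f1 S O r L t x = 0 := abs_eq_zero.mp (le_antisymm h2 (abs_nonneg _))
    exact h h4

theorem f1_supp (hK : ∀ j, Krn (S j) O (r j) L (D j) a C1 e) (ha : 0 < a) (hD : ∀ j, D j ≤ d)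
    (t : J × V) : ((univ.filter fun x => f1 S O r L t x ≠ 0).card : ℝ) ≤ sx d a := by
  refine le_trans ?_ (((hK t.1).spx t.2).trans (sx_mono ha (hD t.1)))
  exact_mod_cast Finset.card_le_card fun x hx => Finset.mem_filter.mpr
    ⟨Finset.mem_univ _, (f1_ne t x (Finset.mem_filter.mp hx).2).2⟩

theorem f1_mul (hK : ∀ j, Krn (S j) O (r j) L (D j) a C1 e) (ha : 0 < a) (hD : ∀ j, D j ≤ d)
    (hJ : (Fintype.card J : ℝ) ≤ C) (x : V) :
    ((univ.filter fun t => f1 S O r L t x ≠ 0).card : ℝ) ≤ C * sx d a := by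
  refine card_supp _ x _ _ (fun j => ?_) hJ (by linarith [one_le_sx d a])
  refine le_trans ?_ (((hK j).spv x).trans (sx_mono ha (hD j)))
  exact_mod_cast Finset.card_le_card fun v hv => Finset.mem_filter.mpr
    ⟨Finset.mem_univ _, (f1_ne (j, v) x (Finset.mem_filter.mp hv).2).2⟩

theorem f1_mean (hK : ∀ j, Krn (S j) O (r j) L (D j) a C1 e) (t : J × V) :
    |∑ x, f1 S O r L t x| ≤ e := by
  have h := (hK t.1).mean t.2
  rw [← sum_O O] at h
  exact h

/-! #### squares -/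

theorem f2_nonneg (t : J × V) (x : V) : 0 ≤ f2 S O d r L t x := by
  unfold f2
  split_ifs
  · positivity
  · exact le_rfl

theorem f2_ne (t : J × V) (x : V) (h : f2 S O d r L t x ≠ 0) :
    x ∈ O ∧ k0 (S t.1) (r t.1) L t.2 x + k1 (S t.1) (r t.1) L t.2 x ≠ 0 := by
  unfold f2 at h
  split_ifs at h with h1
  · refine ⟨h1, fun h3 => h ?_⟩
    rw [h3]
    ring
  · exact absurd rfl h

theorem f2_sup (hK : ∀ j, Krn (S j) O (r j) L (D j) a C1 e) (hC : 0 < C) (hC1 : 0 ≤ C1)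
    (hd : 0 < d) (hD : ∀ j, (d : ℝ) ≤ C * D j) (t : J × V) (x : V) :
    f2 S O d r L t x ≤ (C * C1) ^ 2 / d := by
  have hd' : (0 : ℝ) < d := by exact_mod_cast hd
  unfold f2
  split_ifs
  · have h1 := ((hK t.1).sup t.2 x).trans (dD hC hd hC1 (hD t.1))
    have h0 := k0_nonneg (S t.1) (r t.1) L t.2 x
    have h0' := k1_nonneg (S t.1) (r t.1) L t.2 x
    have h2 := pow_le_pow_left₀ (add_nonneg h0 h0') h1 2
    calc (d : ℝ) * (k0 (S t.1) (r t.1) L t.2 x + k1 (S t.1) (r t.1) L t.2 x) ^ 2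
        ≤ d * (C * C1 / d) ^ 2 := mul_le_mul_of_nonneg_left h2 hd'.le
      _ = (C * C1) ^ 2 / d := by
          field_simp
  · positivity

theorem f2_sum (hK : ∀ j, Krn (S j) O (r j) L (D j) a C1 e) (hC : 0 < C) (he : 0 ≤ e)
    (hd : 0 < d) (hD : ∀ j, (d : ℝ) ≤ C * D j) (t : J × V) :
    ∑ x, f2 S O d r L t x ≤ C * e := by
  have hd' : (0 : ℝ) < d := by exact_mod_cast hd
  have h1 := ((hK t.1).l2 t.2).trans (dD hC hd he (hD t.1))
  have h2 : ∑ x, f2 S O d r L t x =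
      d * ∑ x ∈ O, (k0 (S t.1) (r t.1) L t.2 x + k1 (S t.1) (r t.1) L t.2 x) ^ 2 := by
    rw [Finset.mul_sum, ← sum_O O]
    rfl
  rw [h2]
  calc _ ≤ d * (C * e / d) := mul_le_mul_of_nonneg_left h1 hd'.le
    _ = C * e := by field_simp

theorem f2_supp (hK : ∀ j, Krn (S j) O (r j) L (D j) a C1 e) (ha : 0 < a) (hD : ∀ j, D j ≤ d)
    (t : J × V) : ((univ.filter fun x => f2 S O d r L t x ≠ 0).card : ℝ) ≤ sx d a := by
  refine le_trans ?_ (((hK t.1).spx t.2).trans (sx_mono ha (hD t.1)))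
  exact_mod_cast Finset.card_le_card fun x hx => Finset.mem_filter.mpr
    ⟨Finset.mem_univ _, (f2_ne t x (Finset.mem_filter.mp hx).2).2⟩

theorem f2_mul (hK : ∀ j, Krn (S j) O (r j) L (D j) a C1 e) (ha : 0 < a) (hD : ∀ j, D j ≤ d)
    (hJ : (Fintype.card J : ℝ) ≤ C) (x : V) :
    ((univ.filter fun t => f2 S O d r L t x ≠ 0).card : ℝ) ≤ C * sx d a := by
  refine card_supp _ x _ _ (fun j => ?_) hJ (by linarith [one_le_sx d a])
  refine le_trans ?_ (((hK j).spv x).trans (sx_mono ha (hD j)))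
  exact_mod_cast Finset.card_le_card fun v hv => Finset.mem_filter.mpr
    ⟨Finset.mem_univ _, (f2_ne (j, v) x (Finset.mem_filter.mp hv).2).2⟩

/-! #### the reserve -/

theorem f3_nonneg (t : J × V) (x : V) : 0 ≤ f3 S r t x := by
  unfold f3
  split_ifs
  · positivity
  · exact le_rfl

theorem f3_sup (hrd : ∀ j, (d : ℝ) ^ (1 - a) ≤ r j) (hd : 0 < d) (t : J × V) (x : V) :
    f3 S r t x ≤ (d : ℝ) ^ a / d := by
  have hd' : (0 : ℝ) < d := by exact_mod_cast hd
  unfold f3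
  split_ifs
  · have h1 := hrd t.1
    rw [div_le_div_iff₀ (by positivity) hd', one_mul]
    calc (d : ℝ) = (d : ℝ) ^ a * (d : ℝ) ^ (1 - a) := by
          rw [← Real.rpow_add hd']
          norm_num
      _ ≤ (d : ℝ) ^ a * (r t.1 + 2) := by
          apply mul_le_mul_of_nonneg_left _ (by positivity)
          linarith
  · positivity

theorem f3_sum (hS2 : ∀ j v, (nb (S j) v).card ≤ r j + 2) (t : J × V) :
    ∑ x, f3 S r t x ≤ 1 := by
  unfold f3
  rw [← Finset.sum_filter, Finset.sum_const, nsmul_eq_mul, mul_one_div]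
  have h2 : (univ.filter fun x => x ∈ nb (S t.1) t.2).card = (nb (S t.1) t.2).card := by
    congr 1
    ext x
    simp
  have h1 : ((univ.filter fun x => x ∈ nb (S t.1) t.2).card : ℝ) ≤ (r t.1 : ℝ) + 2 := by
    rw [h2]
    exact_mod_cast hS2 t.1 t.2
  rw [div_le_one (by positivity)]
  exact h1

theorem f3_supp (hS2 : ∀ j v, (nb (S j) v).card ≤ r j + 2) (hr : ∀ j, r j ≤ d) (hd : 1 ≤ d)
    (t : J × V) : ((univ.filter fun x => f3 S r t x ≠ 0).card : ℝ) ≤ 3 * d := by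
  have h1 : (univ.filter fun x => f3 S r t x ≠ 0) ⊆ nb (S t.1) t.2 := by
    intro x hx
    by_contra h
    apply (Finset.mem_filter.mp hx).2
    unfold f3
    rw [if_neg h]
  have h2 := Finset.card_le_card h1
  have h3 := hS2 t.1 t.2
  have h4 := hr t.1
  have h5 : (univ.filter fun x => f3 S r t x ≠ 0).card ≤ 3 * d := by omega
  exact_mod_cast h5

theorem f3_mul (hS2 : ∀ j v, (nb (S j) v).card ≤ r j + 2) (hr : ∀ j, r j ≤ d) (hd : 1 ≤ d)
    (hJ : (Fintype.card J : ℝ) ≤ C) (x : V) :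
    ((univ.filter fun t => f3 S r t x ≠ 0).card : ℝ) ≤ C * (3 * d) := by
  refine card_supp _ x _ _ (fun j => ?_) hJ (by positivity)
  have h1 : (univ.filter fun y => f3 S r (j, y) x ≠ 0) ⊆ nb (S j) x := by
    intro y hy
    have h := (Finset.mem_filter.mp hy).2
    unfold f3 at h
    split_ifs at h with h1
    · exact mem_nb.mpr (mem_nb.mp h1).symm
    · exact absurd rfl h
  have h2 := Finset.card_le_card h1
  have h3 := hS2 j x
  have h4 := hr j
  have h5 : (univ.filter fun y => f3 S r (j, y) x ≠ 0).card ≤ 3 * d := by omega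
  exact_mod_cast h5

end F1

/-! #### nodes -/

section F4

variable {nd : J → V → Option (I × Bool)} {q : ℝ}

theorem f4_nonneg (hq : 0 ≤ q) (t : J × I) (x : V) : 0 ≤ f4 nd q t x := by
  unfold f4
  split_ifs
  · positivity
  · exact le_rfl

theorem f4_sup (hq : 0 ≤ q) (t : J × I) (x : V) : f4 nd q t x ≤ 1 / q := by
  unfold f4
  split_ifs
  · exact le_rfl
  · positivity

theorem f4_sum (hq : 0 < q) (hn : ∀ j i, ((nod (nd j) i).card : ℝ) ≤ q) (t : J × I) :
    ∑ x, f4 nd q t x ≤ 1 := by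
  unfold f4
  rw [← Finset.sum_filter, Finset.sum_const, nsmul_eq_mul, mul_one_div]
  have h2 : (univ.filter fun x => x ∈ nod (nd t.1) t.2).card = (nod (nd t.1) t.2).card := by
    congr 1
    ext x
    simp
  rw [h2, div_le_one hq]
  exact hn _ _

theorem f4_supp (hn : ∀ j i, ((nod (nd j) i).card : ℝ) ≤ q) (t : J × I) :
    ((univ.filter fun x => f4 nd q t x ≠ 0).card : ℝ) ≤ q := by
  refine le_trans ?_ (hn t.1 t.2)
  have h1 : (univ.filter fun x => f4 nd q t x ≠ 0) ⊆ nod (nd t.1) t.2 := by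
    intro x hx
    by_contra h
    apply (Finset.mem_filter.mp hx).2
    unfold f4
    rw [if_neg h]
  exact_mod_cast Finset.card_le_card h1

/-- a vertex is in one node -/
theorem nod_one (j : J) (x : V) : (univ.filter fun i => x ∈ nod (nd j) i).card ≤ 1 := by
  rw [Finset.card_le_one]
  intro i hi i' hi'
  unfold nod at hi hi'
  simp only [Finset.mem_filter, Finset.mem_univ, true_and] at hi hi'
  obtain ⟨s, hs⟩ := hi
  obtain ⟨s', hs'⟩ := hi'
  rw [hs] at hs'
  exact congrArg Prod.fst (Option.some.inj hs')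

theorem f4_mul {C : ℝ} (hJ : (Fintype.card J : ℝ) ≤ C) (x : V) :
    ((univ.filter fun t => f4 nd q t x ≠ 0).card : ℝ) ≤ C * 1 := by
  refine card_supp _ x _ _ (fun j => ?_) hJ zero_le_one
  have h1 : (univ.filter fun i => f4 nd q (j, i) x ≠ 0) ⊆ (univ.filter fun i => x ∈ nod (nd j) i) := by
    intro i hi
    have h := (Finset.mem_filter.mp hi).2
    refine Finset.mem_filter.mpr ⟨Finset.mem_univ _, ?_⟩
    by_contra h1
    apply h
    unfold f4
    rw [if_neg h1]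
  have h2 := (Finset.card_le_card h1).trans (nod_one j x)
  exact_mod_cast h2

end F4

end Pool.Agent.Work.MP_db9399_og.helper35
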