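import Pool.Agent.Work.MP_db9399_og_helper35.OG5

/-!
# MP_db9399, OWNG (helper35), part 6: the assembly
-/

set_option autoImplicit false

namespace Pool.Agent.Work.MP_db9399_og.helper35

open Finset Classical
open Pool.Agent.Work.MP_db9399_all (nb mis)
open Pool.Agent.Work.MP_db9399_ow (Sig Upt)
open Pool.Agent.Work.MP_db9399_cg (sx sp pk)
open Pool.Agent.Work.MP_db9399_sg
open Pool.Agent.Work.MP_db9399_ox

universe u

section one

variable {V I J : Type u} [Fintype V] [Fintype I] [Fintype J] {P : ℕ}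

/-- the precision -/
theorem exE (C e2 : ℝ) (hC : 1 ≤ C) (he2 : 0 < e2) :
    ∃ e : ℝ, 0 < e ∧ 8 * (C * e) ≤ e2 ∧ C * e ≤ 1 ∧ 390 * Real.sqrt (C * e) ≤ e2 / 4 := by
  have hC0 : 0 < C := by linarith
  refine ⟨min (e2 / 8) (min 1 ((e2 / 1560) ^ 2)) / C, by positivity, ?_, ?_, ?_⟩
  · rw [mul_div_cancel₀ _ hC0.ne']
    have := min_le_left (e2 / 8) (min 1 ((e2 / 1560) ^ 2))
    linarith
  · rw [mul_div_cancel₀ _ hC0.ne']
    exact (min_le_right _ _).trans (min_le_left _ _)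
  · rw [mul_div_cancel₀ _ hC0.ne']
    have h1 : Real.sqrt (min (e2 / 8) (min 1 ((e2 / 1560) ^ 2))) ≤ e2 / 1560 := by
      rw [Real.sqrt_le_left (by positivity)]
      exact (min_le_right _ _).trans (min_le_right _ _)
    linarith

/-- the families of tests are admissible -/
theorem sig_all {E : SimpleGraph V} {H S : J → SimpleGraph V} {cl : Fin P → J} {O U : Finset V}
    {nd : J → V → Option (I × Bool)} {N : Fin P → V → V} {r D : J → ℕ} {L d : ℕ}
    {a C C1 C2 e x : ℝ} (hF : Fct E H S cl O U nd N) (hUO : U ⊆ O) (hHE : ∀ j, H j ≤ E)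
    (hEd : ∀ v, (nb E v).card ≤ d) (hK : ∀ j, Krn (S j) O (r j) L (D j) a C1 e) (ha : 0 < a)
    (hC : 1 ≤ C) (hC2 : 1 ≤ C2)
    (hC1 : 0 < C1) (he : 0 < e) (hCe : C * e ≤ 1) (hd : 1 ≤ d)
    (hD : ∀ j, D j ≤ d ∧ (d : ℝ) ≤ C * D j)
    (hJ : (Fintype.card J : ℝ) ≤ C) (hS2 : ∀ j v, (nb (S j) v).card ≤ r j + 2)
    (hr : ∀ j, r j ≤ d) (hrd : ∀ j, (d : ℝ) ^ (1 - a) ≤ r j)
    (hn : ∀ j i, ((nod (nd j) i).card : ℝ) ≤ 2 * C2 * d) (hx1 : 1 ≤ x)
    (hx2 : C * C1 ≤ x) (hx3 : (C * C1) ^ 2 ≤ x) (hxa : (d : ℝ) ^ a ≤ x ^ 40) :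
    Sig (x ^ 40 / d) (15 * (C * C2) * (sx d a * (d : ℝ) ^ 2))
      (Sum.elim (sS E (f1 S O r L)) (Sum.elim (sP E (f2 S O d r L))
        (Sum.elim (sP E (f3 S r)) (sP E (f4 nd (2 * C2 * d))))))
      (Sum.elim (gS U N (Ac cl) (f1 S O r L)) (Sum.elim (gP U N (Ac cl) (f2 S O d r L))
        (Sum.elim (gP U N At (f3 S r)) (gP U N (Ac cl) (f4 nd (2 * C2 * d))))))
      (fun t => (Sum.elim (fun _ => C * e) (Sum.elim (fun _ => x ^ 40) (Sum.elim (fun _ => x ^ 40)
        (fun _ => x ^ 40))) t) / d) := by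
  have hC0 : 0 < C := by linarith
  have hd' : (0 : ℝ) < d := by exact_mod_cast hd
  have hd1 : (1 : ℝ) ≤ d := by exact_mod_cast hd
  have hsx := one_le_sx d a
  have hx40 : x ≤ x ^ 40 := by
    calc x = x ^ 1 := (pow_one x).symm
      _ ≤ x ^ 40 := pow_le_pow_right₀ hx1 (by norm_num)
  have hκ0 : (0 : ℝ) ≤ x ^ 40 / d := by positivity
  set w : ℝ := 3 * (C * C2) * (sx d a * d) with hw
  have hCC2 : 1 ≤ C * C2 := by nlinarith
  have hsd : 1 ≤ sx d a * d := by nlinarith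
  have hw0 : 0 ≤ w := by positivity
  have hCCC : C ≤ C * C2 := by nlinarith
  have hCCC2 : C2 ≤ C * C2 := by nlinarith
  have hsxd : sx d a ≤ sx d a * d := by nlinarith
  have hdsx : (d : ℝ) ≤ sx d a * d := by nlinarith
  have hw1 : C * sx d a ≤ w := by
    calc C * sx d a ≤ (C * C2) * (sx d a * d) := mul_le_mul hCCC hsxd (by positivity) (by positivity)
      _ ≤ w := by rw [hw]; nlinarith
  have hw1' : sx d a ≤ w := by nlinarith
  have hw2 : C * (3 * d) ≤ w := by
    calc C * (3 * d) = 3 * (C * d) := by ring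
      _ ≤ 3 * ((C * C2) * (sx d a * d)) := by
          apply mul_le_mul_of_nonneg_left _ (by norm_num)
          exact mul_le_mul hCCC hdsx (by positivity) (by positivity)
      _ = w := by rw [hw]; ring
  have hw2' : 3 * (d : ℝ) ≤ w := by nlinarith
  have hw3 : 2 * C2 * d ≤ w := by
    calc 2 * C2 * d ≤ 3 * (C2 * d) := by nlinarith [mul_nonneg (show (0 : ℝ) ≤ C2 by linarith) hd'.le]
      _ ≤ 3 * ((C * C2) * (sx d a * d)) := by
          apply mul_le_mul_of_nonneg_left _ (by norm_num)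
          exact mul_le_mul hCCC2 hdsx (by positivity) (by positivity)
      _ = w := by rw [hw]; ring
  have hw4 : C * 1 ≤ w := by nlinarith
  have hEN := hF.EN hUO hHE
  have s1 : Sig (x ^ 40 / d) (w + w * d) (sS E (f1 S O r L)) (gS U N (Ac cl) (f1 S O r L))
      (fun _ => C * e / d) :=
    sigS E U N (Ac cl) (f1 S O r L) hw0 hF.NN hEN hEd
      (fun t y => (f1_sup hK hC0 hC1.le (by omega) (fun j => (hD j).2) t y).trans
        (div_le_div_of_nonneg_right (hx2.trans hx40) hd'.le))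
      (f1_l1 hK) (f1_l2 hK hC0 he.le (by omega) fun j => (hD j).2) (by positivity)
      (fun t => (f1_supp hK ha (fun j => (hD j).1) t).trans hw1')
      (fun y => (f1_mul hK ha (fun j => (hD j).1) hJ y).trans hw1)
  have s2 : Sig (x ^ 40 / d) (w * d) (sP E (f2 S O d r L)) (gP U N (Ac cl) (f2 S O d r L))
      (fun _ => x ^ 40 / d) :=
    sigP E U N (Ac cl) (f2 S O d r L) hw0 hF.NN hEN hEd f2_nonneg hκ0
      (fun t y => (f2_sup hK hC0 hC1.le (by omega) (fun j => (hD j).2) t y).trans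
        (div_le_div_of_nonneg_right (hx3.trans hx40) hd'.le))
      (fun t => (f2_sum hK hC0 he.le (by omega) (fun j => (hD j).2) t).trans hCe)
      (fun t => (f2_supp hK ha (fun j => (hD j).1) t).trans hw1')
      (fun y => (f2_mul hK ha (fun j => (hD j).1) hJ y).trans hw1)
  have s3 : Sig (x ^ 40 / d) (w * d) (sP E (f3 S r)) (gP U N At (f3 S r))
      (fun _ => x ^ 40 / d) :=
    sigP E U N At (f3 S r) hw0 hF.NN hEN hEd f3_nonneg hκ0
      (fun t y => (f3_sup hrd (by omega) t y).trans (div_le_div_of_nonneg_right hxa hd'.le))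
      (f3_sum hS2) (fun t => (f3_supp hS2 hr hd t).trans hw2')
      (fun y => (f3_mul hS2 hr hd hJ y).trans hw2)
  have h2q : 0 < 2 * C2 * d := by positivity
  have s4 : Sig (x ^ 40 / d) (w * d) (sP E (f4 nd (2 * C2 * d)))
      (gP U N (Ac cl) (f4 nd (2 * C2 * d))) (fun _ => x ^ 40 / d) :=
    sigP E U N (Ac cl) (f4 nd (2 * C2 * d)) hw0 hF.NN hEN hEd (f4_nonneg h2q.le) hκ0
      (fun t y => (f4_sup h2q.le t y).trans (by
        apply div_le_div₀ (by positivity) (one_le_pow₀ hx1) hd'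
        nlinarith))
      (f4_sum h2q hn) (fun t => (f4_supp hn t).trans hw3)
      (fun y => (f4_mul hJ y).trans hw4)
  have h5 := Sig.sum s1 (Sig.sum s2 (Sig.sum s3 s4 (by positivity) (by positivity))
    (by positivity) (by positivity)) (by positivity) (by positivity)
  refine Sig.mono h5 le_rfl ?_ ?_
  · have h6 : w ≤ w * d := by nlinarith
    calc w + w * d + (w * d + (w * d + w * d)) ≤ 5 * (w * d) := by linarith
      _ = _ := by rw [hw]; ring
  · rintro (t | t | t | t)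
    all_goals exact le_rfl

/-- the upper tests are admissible -/
theorem upt_all {E : SimpleGraph V} {H S : J → SimpleGraph V} {cl : Fin P → J} {O U : Finset V}
    {nd : J → V → Option (I × Bool)} {N : Fin P → V → V} {r : J → ℕ} {d : ℕ}
    {a C2 x : ℝ} (hF : Fct E H S cl O U nd N) (hP : P ≤ d) (hd : 1 ≤ d)
    (hS2 : ∀ j v, (nb (S j) v).card ≤ r j + 2) (hr : ∀ j, r j ≤ d)
    (hn : ∀ j i, ((nod (nd j) i).card : ℝ) ≤ 2 * C2 * d) (hx1 : 3 ≤ x) (hx2 : 2 * C2 ≤ x) :
    Upt (d * x ^ 40) (8 * (sx d a * (d : ℝ) ^ 2))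
      (Sum.elim (qA N) (Sum.elim (qN N Prod.fst fun t : Fin P × V => nb (S (cl t.1)) t.2)
        (Sum.elim (qI Prod.fst fun t : Fin P × V => nb (S (cl t.1)) t.2)
          (qN N Prod.fst fun t : Fin P × I => nod (nd (cl t.1)) t.2)))) := by
  have hd' : (0 : ℝ) < d := by exact_mod_cast hd
  have hd1 : (1 : ℝ) ≤ d := by exact_mod_cast hd
  have hsx := one_le_sx d a
  have hP' : (P : ℝ) ≤ d := by exact_mod_cast hP
  have hx40 : x ≤ x ^ 40 := by
    calc x = x ^ 1 := (pow_one x).symm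
      _ ≤ x ^ 40 := pow_le_pow_right₀ (by linarith) (by norm_num)
  have h3d : (3 : ℝ) * d ≤ d * x ^ 40 := by nlinarith
  have hS3 : ∀ j v, ((nb (S j) v).card : ℝ) ≤ 3 * d := by
    intro j v
    have h1 := hS2 j v
    have h2 := hr j
    have h3 : (nb (S j) v).card ≤ 3 * d := by omega
    exact_mod_cast h3
  have u1 : Upt (d * x ^ 40) ((d : ℝ)) (qA N) := by
    have := uptA hF.NN hP'
    exact Upt.mono this (by nlinarith) le_rfl
  have u2 : Upt (d * x ^ 40) ((d : ℝ) * (3 * d))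
      (qN N Prod.fst fun t : Fin P × V => nb (S (cl t.1)) t.2) := by
    refine uptN hF.NN _ _ (fun t => (hS3 _ _).trans h3d) fun v => ?_
    obtain ⟨R, hR⟩ : ∃ R : Fin P → V → Prop, ∀ b y, R b y ↔ N b v ∈ nb (S (cl b)) y :=
      ⟨_, fun _ _ => Iff.rfl⟩
    refine le_trans (Nat.cast_le.mpr (Finset.card_le_card ?_)) (card_pairsF R (3 * d) d
      (fun b => le_trans (Nat.cast_le.mpr (Finset.card_le_card ?_)) (hS3 (cl b) (N b v))) hP'
      (by positivity))
    · intro t ht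
      exact Finset.mem_filter.mpr ⟨Finset.mem_univ _, (hR _ _).mpr (Finset.mem_filter.mp ht).2⟩
    · intro y hy
      have h1 := (hR _ _).mp (Finset.mem_filter.mp hy).2
      exact mem_nb.mpr (mem_nb.mp h1).symm
  have u3 : Upt (d * x ^ 40) ((d : ℝ) * (3 * d))
      (qI Prod.fst fun t : Fin P × V => nb (S (cl t.1)) t.2) := by
    refine uptI _ _ (fun t => (hS3 _ _).trans h3d) fun v => ?_
    obtain ⟨R, hR⟩ : ∃ R : Fin P → V → Prop, ∀ b y, R b y ↔ v ∈ nb (S (cl b)) y :=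
      ⟨_, fun _ _ => Iff.rfl⟩
    refine le_trans (Nat.cast_le.mpr (Finset.card_le_card ?_)) (card_pairsF R (3 * d) d
      (fun b => le_trans (Nat.cast_le.mpr (Finset.card_le_card ?_)) (hS3 (cl b) v)) hP'
      (by positivity))
    · intro t ht
      exact Finset.mem_filter.mpr ⟨Finset.mem_univ _, (hR _ _).mpr (Finset.mem_filter.mp ht).2⟩
    · intro y hy
      have h1 := (hR _ _).mp (Finset.mem_filter.mp hy).2
      exact mem_nb.mpr (mem_nb.mp h1).symm
  have u4 : Upt (d * x ^ 40) ((d : ℝ) * 1)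
      (qN N Prod.fst fun t : Fin P × I => nod (nd (cl t.1)) t.2) := by
    refine uptN hF.NN _ _ (fun t => (hn _ _).trans ?_) fun v => ?_
    · nlinarith
    obtain ⟨R, hR⟩ : ∃ R : Fin P → I → Prop, ∀ b i, R b i ↔ N b v ∈ nod (nd (cl b)) i :=
      ⟨_, fun _ _ => Iff.rfl⟩
    refine le_trans (Nat.cast_le.mpr (Finset.card_le_card ?_)) (card_pairsF R 1 d
      (fun b => ?_) hP' zero_le_one)
    · intro t ht
      exact Finset.mem_filter.mpr ⟨Finset.mem_univ _, (hR _ _).mpr (Finset.mem_filter.mp ht).2⟩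
    · refine le_trans (Nat.cast_le.mpr (Finset.card_le_card (t := univ.filter fun i =>
        N b v ∈ nod (nd (cl b)) i) ?_)) ?_
      · intro i hi
        exact Finset.mem_filter.mpr ⟨Finset.mem_univ _, (hR _ _).mp (Finset.mem_filter.mp hi).2⟩
      · exact_mod_cast nod_one (cl b) (N b v)
  have h5 := Upt.sum u1 (Upt.sum u2 (Upt.sum u3 u4))
  refine Upt.mono h5 le_rfl ?_
  nlinarith [mul_le_mul_of_nonneg_right hsx (show (0 : ℝ) ≤ (d : ℝ) ^ 2 by positivity)]

end one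

end Pool.Agent.Work.MP_db9399_og.helper35
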