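import Pool.Agent.Work.MP_db9399_og_helper35.OG6

/-!
# MP_db9399, OWNG (helper35), part 7: what the tests say
-/

set_option autoImplicit false

namespace Pool.Agent.Work.MP_db9399_og.helper35

open Finset Classical
open Pool.Agent.Work.MP_db9399_all (nb mis)
open Pool.Agent.Work.MP_db9399_ow (Sig Upt)
open Pool.Agent.Work.MP_db9399_cg (sx sp pk)
open Pool.Agent.Work.MP_db9399_sg
open Pool.Agent.Work.MP_db9399_ox

universe u

section outp

variable {V I J : Type u} [Fintype V] [Fintype I] [Fintype J] {P : ℕ}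
  {E : SimpleGraph V} {H S : J → SimpleGraph V} {cl : Fin P → J} {O U : Finset V}
  {nd : J → V → Option (I × Bool)} {N : Fin P → V → V} {r D : J → ℕ} {L d : ℕ}
  {a C C1 e : ℝ} {c : V → Fin P}

theorem c_prop (hF : Fct E H S cl O U nd N) (hUO : U ⊆ O) (hHE : ∀ j, H j ≤ E)
    (hc : ∀ v ∈ U, ∀ w ∈ U, E.Adj v w → c v ≠ c w) :
    ∀ b, ∀ x ∈ O, N b x ≠ x → cU U c (N b x) = some b → cU U c x ≠ some b := by
  intro b x hx h1 h2 h3
  obtain ⟨h4, h5⟩ := cU_eq.mp h2
  obtain ⟨h6, h7⟩ := cU_eq.mp h3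
  exact hc x h6 _ h4 (hHE _ (hF.NO b x hx h1)) (h7.trans h5.symm)

/-- the signed test -/
theorem out1 (hF : Fct E H S cl O U nd N) (hUO : U ⊆ O) (hHE : ∀ j, H j ≤ E)
    (hc : ∀ v ∈ U, ∀ w ∈ U, E.Adj v w → c v ≠ c w)
    (hK : ∀ j, Krn (S j) O (r j) L (D j) a C1 e) (he : 0 < e) (hP : P ≤ d) (hd : 1 ≤ d)
    (j : J) (v : V) (hfl : Flw (H j) (S j) O U (r j) L (e * d)) (q : ℝ)
    (ht : ∑ b, |∑ y ∈ U.filter (fun y => c y = b), gS U N (Ac cl) (f1 S O r L) (j, v) b y| ≤
      1 / (d : ℝ) * ∑ b, |∑ y ∈ U, gS U N (Ac cl) (f1 S O r L) (j, v) b y| + q) :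
    ∑ b with cl b = j, |∑ x ∈ tkN O (cU U c) N b,
      (k0 (S j) (r j) L v x - k1 (S j) (r j) L v x)| ≤
    ∑ b with cl b = j, |∑ x ∈ O.filter (fun x => N b x = x),
      (k0 (S j) (r j) L v x - k1 (S j) (r j) L v x)| + (2 * e + 18 / d + 3 * q) := by
  have hd' : (0 : ℝ) < d := by exact_mod_cast hd
  have hO : ∀ x, x ∉ O → f1 S O r L (j, v) x = 0 := by
    intro x hx
    unfold f1
    rw [if_neg hx]
  have h1 : ∀ B : Finset V, B ⊆ O → ∑ x ∈ B, (k0 (S j) (r j) L v x - k1 (S j) (r j) L v x) =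
      ∑ x ∈ B, f1 S O r L (j, v) x := by
    intro B hB
    apply Finset.sum_congr rfl
    intro x hx
    unfold f1
    rw [if_pos (hB hx)]
  have h2 : ∀ b, cl b = j → ∑ x ∈ tkN O (cU U c) N b,
      (k0 (S j) (r j) L v x - k1 (S j) (r j) L v x) =
      ∑ x ∈ O.filter (fun x => N b x = x), (k0 (S j) (r j) L v x - k1 (S j) (r j) L v x) +
        3 * ∑ y ∈ U.filter (fun y => c y = b), gS U N (Ac cl) (f1 S O r L) (j, v) b y := by
    intro b hb
    rw [h1 (tkN O (cU U c) N b) (Finset.filter_subset _ _),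
      h1 (O.filter fun x => N b x = x) (Finset.filter_subset _ _)]
    have h0 : ∀ (t : J × V) x, x ∉ O → f1 S O r L t x = 0 := by
      intro t x hx
      unfold f1
      rw [if_neg hx]
    exact tkN_sum O U N (Ac cl) (f1 S O r L) hF.NN h0 c (c_prop hF hUO hHE hc) (j, v) b hb
  have h3 : ∑ b with cl b = j, |∑ x ∈ tkN O (cU U c) N b,
      (k0 (S j) (r j) L v x - k1 (S j) (r j) L v x)| ≤
      ∑ b with cl b = j, (|∑ x ∈ O.filter (fun x => N b x = x),
        (k0 (S j) (r j) L v x - k1 (S j) (r j) L v x)| +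
        3 * |∑ y ∈ U.filter (fun y => c y = b), gS U N (Ac cl) (f1 S O r L) (j, v) b y|) := by
    refine Finset.sum_le_sum fun b hb => ?_
    rw [h2 b (Finset.mem_filter.mp hb).2]
    refine (abs_add_le _ _).trans ?_
    rw [abs_mul, abs_of_pos (by norm_num : (0 : ℝ) < 3)]
  rw [Finset.sum_add_distrib] at h3
  refine h3.trans (add_le_add le_rfl ?_)
  have h4 : ∑ b with cl b = j,
      3 * |∑ y ∈ U.filter (fun y => c y = b), gS U N (Ac cl) (f1 S O r L) (j, v) b y| ≤
      3 * ∑ b, |∑ y ∈ U.filter (fun y => c y = b), gS U N (Ac cl) (f1 S O r L) (j, v) b y| := by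
    rw [Finset.mul_sum]
    exact Finset.sum_le_sum_of_subset_of_nonneg (Finset.filter_subset _ _)
      fun _ _ _ => by positivity
  have h5 := gS_mean U N (Ac cl) (f1 S O r L) hF.NN (j, v) e (f1_mean hK (j, v))
    (fun x => 6 + ((nb (H j) x \ U).card : ℝ)) (by
      intro x hx
      have hxO := (f1_ne (j, v) x hx).1
      have h6 : (univ.filter fun b => Ac cl (j, v) b ∧ N b x = x).card ≤ 3 := by
        refine le_trans (Finset.card_le_card ?_) (hF.c3 j x hxO)
        intro b hb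
        exact Finset.mem_filter.mpr ⟨Finset.mem_univ _, (Finset.mem_filter.mp hb).2⟩
      have h7 : (univ.filter fun b => Ac cl (j, v) b ∧ N b x ≠ x ∧ N b x ∉ U).card ≤
          (nb (H j) x \ U).card := by
        refine le_trans (Finset.card_le_card ?_) (hF.out j hxO)
        intro b hb
        exact Finset.mem_filter.mpr ⟨Finset.mem_univ _, (Finset.mem_filter.mp hb).2⟩
      have h6' : ((univ.filter fun b => Ac cl (j, v) b ∧ N b x = x).card : ℝ) ≤ 3 := by
        exact_mod_cast h6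
      have h7' : ((univ.filter fun b => Ac cl (j, v) b ∧ N b x ≠ x ∧ N b x ∉ U).card : ℝ) ≤
          ((nb (H j) x \ U).card : ℝ) := by
        exact_mod_cast h7
      linarith)
  have h6 : ∑ x, |f1 S O r L (j, v) x| * (6 + ((nb (H j) x \ U).card : ℝ)) ≤ 18 + e * d := by
    have h7 : ∑ x, |f1 S O r L (j, v) x| * (6 + ((nb (H j) x \ U).card : ℝ)) =
        6 * ∑ x, |f1 S O r L (j, v) x| +
          ∑ x, |f1 S O r L (j, v) x| * ((nb (H j) x \ U).card : ℝ) := by
      rw [Finset.mul_sum, ← Finset.sum_add_distrib]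
      exact Finset.sum_congr rfl fun x _ => by ring
    have h8 : ∑ x, |f1 S O r L (j, v) x| * ((nb (H j) x \ U).card : ℝ) ≤ e * d := by
      refine le_trans ?_ (hfl v)
      rw [← sum_O O]
      refine Finset.sum_le_sum fun x _ => ?_
      by_cases hx : x ∈ O
      · rw [if_pos hx]
        exact mul_le_mul_of_nonneg_right (f1_abs (j, v) x) (Nat.cast_nonneg _)
      · rw [if_neg hx, hO x hx, abs_zero, zero_mul]
    rw [h7]
    have := f1_l1 hK (j, v)
    linarith
  have hPe : (P : ℝ) * e ≤ d * e := by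
    apply mul_le_mul_of_nonneg_right _ he.le
    exact_mod_cast hP
  have h7 : 1 / (d : ℝ) * ∑ b, |∑ y ∈ U, gS U N (Ac cl) (f1 S O r L) (j, v) b y| ≤
      1 / (d : ℝ) * (1 / 3 * (d * e + (18 + e * d))) := by
    apply mul_le_mul_of_nonneg_left _ (by positivity)
    refine h5.trans ?_
    apply mul_le_mul_of_nonneg_left _ (by norm_num)
    exact add_le_add hPe h6
  have h8 : 1 / (d : ℝ) * (1 / 3 * (d * e + (18 + e * d))) = (2 * e + 18 / d) / 3 := by
    field_simp
    ring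
  rw [h8] at h7
  linarith

/-- number of the colours of the class with a token at `x` -/
theorem cnt_tk (hF : Fct E H S cl O U nd N) (j : J) {x : V} (hx : x ∈ O) :
    ((univ.filter fun b => cl b = j ∧ x ∈ tkN O (cU U c) N b).card : ℝ) ≤
      3 + ((univ.filter fun b => Ac cl (j, x) b ∧ N b x ≠ x ∧ cU U c (N b x) = some b).card :
        ℝ) := by
  have h1 : (univ.filter fun b => cl b = j ∧ x ∈ tkN O (cU U c) N b) ⊆
      (univ.filter fun b => cl b = j ∧ N b x = x) ∪
      (univ.filter fun b => Ac cl (j, x) b ∧ N b x ≠ x ∧ cU U c (N b x) = some b) := by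
    intro b hb
    obtain ⟨-, h2, h3⟩ := Finset.mem_filter.mp hb
    obtain ⟨-, h4, h5⟩ := Finset.mem_filter.mp h3
    by_cases h6 : N b x = x
    · exact Finset.mem_union_left _ (Finset.mem_filter.mpr ⟨Finset.mem_univ _, h2, h6⟩)
    · exact Finset.mem_union_right _ (Finset.mem_filter.mpr ⟨Finset.mem_univ _, h2, h6,
        h5.resolve_left h6⟩)
  have h2 := (Finset.card_le_card h1).trans (Finset.card_union_le _ _)
  have h3 := hF.c3 j x hx
  have h4 : (univ.filter fun b => cl b = j ∧ x ∈ tkN O (cU U c) N b).card ≤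
      3 + (univ.filter fun b => Ac cl (j, x) b ∧ N b x ≠ x ∧ cU U c (N b x) = some b).card := by
    omega
  exact_mod_cast h4

/-- the multiplicities -/
theorem out2 (hF : Fct E H S cl O U nd N) (hUO : U ⊆ O) (hHE : ∀ j, H j ≤ E)
    (hEd : ∀ v, (nb E v).card ≤ d)
    (hK : ∀ j, Krn (S j) O (r j) L (D j) a C1 e) (hC : 0 < C) (he : 0 < e) (hd : 1 ≤ d)
    (hD : ∀ j, (d : ℝ) ≤ C * D j) (j : J) (v : V) (q : ℝ)
    (ht : ∑ y ∈ U, |gP U N (Ac cl) (f2 S O d r L) (j, v) (c y) y| ≤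
      1 / (d : ℝ) * ∑ b, ∑ y ∈ U, |gP U N (Ac cl) (f2 S O d r L) (j, v) b y| + q) :
    ∑ x ∈ O, (k0 (S j) (r j) L v x + k1 (S j) (r j) L v x) ^ 2 *
      ((univ.filter fun b => cl b = j ∧ x ∈ tkN O (cU U c) N b).card : ℝ) ≤
      (4 * (C * e) + q) / d := by
  have hd' : (0 : ℝ) < d := by exact_mod_cast hd
  have h1 : ∑ x ∈ O, (k0 (S j) (r j) L v x + k1 (S j) (r j) L v x) ^ 2 *
      ((univ.filter fun b => cl b = j ∧ x ∈ tkN O (cU U c) N b).card : ℝ) =
      (∑ x ∈ O, f2 S O d r L (j, v) x *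
        ((univ.filter fun b => cl b = j ∧ x ∈ tkN O (cU U c) N b).card : ℝ)) / d := by
    rw [Finset.sum_div]
    apply Finset.sum_congr rfl
    intro x hx
    unfold f2
    rw [if_pos hx]
    field_simp
  rw [h1]
  apply div_le_div_of_nonneg_right _ hd'.le
  have h2 : ∑ x ∈ O, f2 S O d r L (j, v) x *
      ((univ.filter fun b => cl b = j ∧ x ∈ tkN O (cU U c) N b).card : ℝ) ≤
      ∑ x, f2 S O d r L (j, v) x * (3 + ((univ.filter fun b => Ac cl (j, v) b ∧ N b x ≠ x ∧
        cU U c (N b x) = some b).card : ℝ)) := by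
    refine le_trans (Finset.sum_le_sum fun x hx => ?_)
      (Finset.sum_le_sum_of_subset_of_nonneg (Finset.subset_univ O) fun x _ _ =>
        mul_nonneg (f2_nonneg _ _) (by positivity))
    exact mul_le_mul_of_nonneg_left (cnt_tk hF j hx) (f2_nonneg _ _)
  refine h2.trans ?_
  have h3 : ∑ x, f2 S O d r L (j, v) x * (3 + ((univ.filter fun b => Ac cl (j, v) b ∧
      N b x ≠ x ∧ cU U c (N b x) = some b).card : ℝ)) =
      3 * ∑ x, f2 S O d r L (j, v) x + ∑ y ∈ U, |gP U N (Ac cl) (f2 S O d r L) (j, v) (c y) y| := by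
    rw [gP_sum U N (Ac cl) (f2 S O d r L) hF.NN f2_nonneg c (j, v), Finset.mul_sum,
      ← Finset.sum_add_distrib]
    exact Finset.sum_congr rfl fun x _ => by ring
  have h4 := gP_mean U N (Ac cl) (f2 S O d r L) hF.NN f2_nonneg (j, v) (fun _ => (d : ℝ)) (by
    intro x _
    have h5 : (univ.filter fun b => Ac cl (j, v) b ∧ N b x ≠ x ∧ N b x ∈ U).card ≤ d := by
      refine le_trans (Finset.card_le_card (t := univ.filter fun b => cl b = j ∧ N b x ≠ x ∧
        N b x ∈ U) ?_) ((hF.inn hUO j x).trans (le_trans (Finset.card_le_card ?_) (hEd x)))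
      · intro b hb
        exact Finset.mem_filter.mpr ⟨Finset.mem_univ _, (Finset.mem_filter.mp hb).2⟩
      · intro w hw
        exact mem_nb.mpr (hHE j (mem_nb.mp hw))
    exact_mod_cast h5)
  have h5 := f2_sum (O := O) (d := d) (r := r) (L := L) hK hC he.le (by omega) hD (j, v)
  have h6 : ∑ x, f2 S O d r L (j, v) x * (d : ℝ) = d * ∑ x, f2 S O d r L (j, v) x := by
    rw [← Finset.sum_mul, mul_comm]
  have h7 : 1 / (d : ℝ) * ∑ b, ∑ y ∈ U, |gP U N (Ac cl) (f2 S O d r L) (j, v) b y| ≤ C * e := by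
    calc _ ≤ 1 / (d : ℝ) * (d * ∑ x, f2 S O d r L (j, v) x) := by
          apply mul_le_mul_of_nonneg_left _ (by positivity)
          rw [← h6]
          exact h4
      _ = ∑ x, f2 S O d r L (j, v) x := by field_simp
      _ ≤ C * e := h5
  rw [h3]
  linarith

/-- the neighbours in the reserve -/
theorem out3 (hF : Fct E H S cl O U nd N) (hP : P ≤ d) (hd : 1 ≤ d)
    (hS2 : ∀ j v, (nb (S j) v).card ≤ r j + 2) (j : J) (y : V) (q : ℝ)
    (ht : ∑ z ∈ U, |gP U N At (f3 S r) (j, y) (c z) z| ≤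
      1 / (d : ℝ) * ∑ b, ∑ z ∈ U, |gP U N At (f3 S r) (j, y) b z| + q) :
    (∑ x ∈ nb (S j) y, ((univ.filter fun b => N b x ≠ x ∧
      cU U c (N b x) = some b).card : ℝ)) ≤ (1 + q) * (r j + 2) := by
  have hd' : (0 : ℝ) < d := by exact_mod_cast hd
  have hr2 : (0 : ℝ) < (r j : ℝ) + 2 := by positivity
  have h1 : (∑ x ∈ nb (S j) y, ((univ.filter fun b => N b x ≠ x ∧
      cU U c (N b x) = some b).card : ℝ)) ≤
      (∑ z ∈ U, |gP U N At (f3 S r) (j, y) (c z) z|) * (r j + 2) := by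
    rw [gP_sum U N At (f3 S r) hF.NN f3_nonneg c (j, y), ← sum_O, Finset.sum_mul]
    refine Finset.sum_le_sum fun x _ => ?_
    unfold f3
    by_cases hx : x ∈ nb (S j) y
    · rw [if_pos hx, if_pos hx]
      have h3 : ∀ m m' : ℝ, m' ≤ m → m' ≤ 1 / ((r j : ℝ) + 2) * m * (r j + 2) := fun m m' h =>
        h.trans (le_of_eq (by field_simp))
      refine h3 _ _ (Nat.cast_le.mpr (Finset.card_le_card ?_))
      intro b hb
      exact Finset.mem_filter.mpr ⟨Finset.mem_univ _, trivial, (Finset.mem_filter.mp hb).2⟩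
    · rw [if_neg hx, if_neg hx, zero_mul, zero_mul]
  refine h1.trans (mul_le_mul_of_nonneg_right (ht.trans ?_) hr2.le)
  have h4 := gP_mean U N At (f3 S r) hF.NN f3_nonneg (j, y) (fun _ => (d : ℝ)) (by
    intro x _
    have h5 : (univ.filter fun b => At (j, y) b ∧ N b x ≠ x ∧ N b x ∈ U).card ≤ d := by
      refine (Finset.card_le_univ _).trans ?_
      rw [Fintype.card_fin]
      exact hP
    exact_mod_cast h5)
  have h6 : ∑ x, f3 S r (j, y) x * (d : ℝ) = d * ∑ x, f3 S r (j, y) x := by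
    rw [← Finset.sum_mul, mul_comm]
  have h7 : 1 / (d : ℝ) * ∑ b, ∑ z ∈ U, |gP U N At (f3 S r) (j, y) b z| ≤ 1 := by
    calc _ ≤ 1 / (d : ℝ) * (d * ∑ x, f3 S r (j, y) x) := by
          apply mul_le_mul_of_nonneg_left _ (by positivity)
          rw [← h6]
          exact h4
      _ = ∑ x, f3 S r (j, y) x := by field_simp
      _ ≤ 1 := f3_sum hS2 (j, y)
  linarith

/-- the nodes -/
theorem out4 (hF : Fct E H S cl O U nd N) (hUO : U ⊆ O) (hd : 1 ≤ d)
    (hnO : ∀ j i, ∀ x ∈ nod (nd j) i, x ∉ O) {Q : ℝ} (hQ : 0 < Q) (j : J) (i : I) (q : ℝ)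
    (ht : ∑ z ∈ U, |gP U N (Ac cl) (f4 nd Q) (j, i) (c z) z| ≤
      1 / (d : ℝ) * ∑ b, ∑ z ∈ U, |gP U N (Ac cl) (f4 nd Q) (j, i) b z| + q) :
    ∑ b with cl b = j, (((nod (nd j) i).filter fun v => cU U c (N b v) = some b).card : ℝ) ≤
      (∑ v ∈ nod (nd j) i, ((nb (H j) v).card : ℝ)) / d + Q * q := by
  have hd' : (0 : ℝ) < d := by exact_mod_cast hd
  have h0 : ∀ (t : J × I) x, 0 ≤ f4 nd Q t x := f4_nonneg hQ.le
  have h1 : ∑ b with cl b = j, (((nod (nd j) i).filter fun v =>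
      cU U c (N b v) = some b).card : ℝ) ≤
      Q * ∑ z ∈ U, |gP U N (Ac cl) (f4 nd Q) (j, i) (c z) z| := by
    rw [gP_sum U N (Ac cl) (f4 nd Q) hF.NN h0 c (j, i), Finset.mul_sum]
    have h2 : ∑ b with cl b = j, (((nod (nd j) i).filter fun v =>
        cU U c (N b v) = some b).card : ℝ) =
        ∑ x ∈ nod (nd j) i, ((univ.filter fun b => cl b = j ∧ cU U c (N b x) = some b).card :
          ℝ) := by
      have h3 : ∀ b, (((nod (nd j) i).filter fun v => cU U c (N b v) = some b).card : ℝ) =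
          ∑ x ∈ nod (nd j) i, (if cU U c (N b x) = some b then (1 : ℝ) else 0) := by
        intro b
        rw [Finset.card_filter]
        push_cast
        rfl
      rw [Finset.sum_congr rfl fun b _ => h3 b, Finset.sum_comm]
      apply Finset.sum_congr rfl
      intro x _
      rw [← Finset.filter_filter, Finset.card_filter]
      push_cast
      rfl
    rw [h2, ← sum_O]
    refine Finset.sum_le_sum fun x _ => ?_
    unfold f4
    by_cases hx : x ∈ nod (nd j) i
    · rw [if_pos hx, if_pos hx]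
      have h3 : ((univ.filter fun b => cl b = j ∧ cU U c (N b x) = some b).card : ℝ) ≤
          ((univ.filter fun b => Ac cl (j, i) b ∧ N b x ≠ x ∧ cU U c (N b x) = some b).card :
            ℝ) := by
        refine Nat.cast_le.mpr (Finset.card_le_card ?_)
        intro b hb
        obtain ⟨-, h4, h5⟩ := Finset.mem_filter.mp hb
        refine Finset.mem_filter.mpr ⟨Finset.mem_univ _, h4, ?_, h5⟩
        intro h6
        rw [h6] at h5
        exact hnO j i x hx (hUO (cU_eq.mp h5).1)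
      refine h3.trans (le_of_eq ?_)
      field_simp
    · rw [if_neg hx, if_neg hx, zero_mul, mul_zero]
  refine h1.trans ?_
  have h4 := gP_mean U N (Ac cl) (f4 nd Q) hF.NN h0 (j, i)
    (fun x => ((nb (H j) x).card : ℝ)) (by
    intro x _
    refine Nat.cast_le.mpr (le_trans (Finset.card_le_card ?_) (hF.inn hUO j x))
    intro b hb
    exact Finset.mem_filter.mpr ⟨Finset.mem_univ _, (Finset.mem_filter.mp hb).2⟩)
  have h5 : ∑ x, f4 nd Q (j, i) x * ((nb (H j) x).card : ℝ) =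
      (∑ v ∈ nod (nd j) i, ((nb (H j) v).card : ℝ)) / Q := by
    rw [Finset.sum_div, ← sum_O (nod (nd j) i)]
    apply Finset.sum_congr rfl
    intro x _
    unfold f4
    split_ifs
    · ring
    · ring
  rw [h5] at h4
  have h6 : 1 / (d : ℝ) * ∑ b, ∑ z ∈ U, |gP U N (Ac cl) (f4 nd Q) (j, i) b z| ≤
      1 / (d : ℝ) * ((∑ v ∈ nod (nd j) i, ((nb (H j) v).card : ℝ)) / Q) :=
    mul_le_mul_of_nonneg_left h4 (by positivity)
  calc Q * ∑ z ∈ U, |gP U N (Ac cl) (f4 nd Q) (j, i) (c z) z|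
      ≤ Q * (1 / (d : ℝ) * ((∑ v ∈ nod (nd j) i, ((nb (H j) v).card : ℝ)) / Q) + q) := by
        apply mul_le_mul_of_nonneg_left _ hQ.le
        linarith
    _ = (∑ v ∈ nod (nd j) i, ((nb (H j) v).card : ℝ)) / d + Q * q := by
        field_simp

end outp

end Pool.Agent.Work.MP_db9399_og.helper35
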