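import Pool.Agent.Work.MP_db9399_og_helper35.OG7

/-!
# MP_db9399, OWNG (helper35): own colours of `U`
-/

set_option autoImplicit false

namespace Pool.Agent.Work.MP_db9399_og.helper35

open Finset Classical
open Pool.Agent.Work.MP_db9399_all (nb mis)
open Pool.Agent.Work.MP_db9399_ow (Sig Upt)
open Pool.Agent.Work.MP_db9399_cg (sx sp pk)
open Pool.Agent.Work.MP_db9399_sg
open Pool.Agent.Work.MP_db9399_ox

universe u

section cnt

variable {V I J : Type u} [Fintype V] [Fintype I] [Fintype J] {P : ℕ}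
  {E : SimpleGraph V} {H S : J → SimpleGraph V} {cl : Fin P → J} {O U : Finset V}
  {nd : J → V → Option (I × Bool)} {N N0 : Fin P → V → V} {d : ℕ} {C X T : ℝ} {c : V → Fin P}

theorem t1_cnt (hF : Fct E H S cl O U nd N) (hJ : (Fintype.card J : ℝ) ≤ C) (x : V)
    (hA : ((univ.filter fun b => N b x ≠ x ∧ cU U c (N b x) = some b).card : ℝ) ≤ X) :
    ((univ.filter fun b => x ∈ tkN O (cU U c) N b).card : ℝ) ≤ 3 * C + X := by
  have hX0 : 0 ≤ X := (Nat.cast_nonneg _).trans hA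
  have hC0 : 0 ≤ C := (Nat.cast_nonneg _).trans hJ
  by_cases hx : x ∈ O
  · have h1 : (univ.filter fun b => x ∈ tkN O (cU U c) N b) ⊆
        (univ.filter fun b => N b x = x) ∪
        (univ.filter fun b => N b x ≠ x ∧ cU U c (N b x) = some b) := by
      intro b hb
      obtain ⟨-, h4, h5⟩ := Finset.mem_filter.mp (Finset.mem_filter.mp hb).2
      by_cases h6 : N b x = x
      · exact Finset.mem_union_left _ (Finset.mem_filter.mpr ⟨Finset.mem_univ _, h6⟩)
      · exact Finset.mem_union_right _ (Finset.mem_filter.mpr ⟨Finset.mem_univ _, h6,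
          h5.resolve_left h6⟩)
    have h2 := (Finset.card_le_card h1).trans (Finset.card_union_le _ _)
    have h3 : (univ.filter fun b => N b x = x).card =
        ∑ j, (univ.filter fun b => cl b = j ∧ N b x = x).card := by
      rw [Finset.card_eq_sum_card_fiberwise (f := cl) (t := (univ : Finset J))
        (fun b _ => Finset.mem_coe.2 (Finset.mem_univ _))]
      apply Finset.sum_congr rfl
      intro j _
      congr 1
      ext b
      simp only [Finset.mem_filter, Finset.mem_univ, true_and]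
      exact and_comm
    have h4 : ((univ.filter fun b => N b x = x).card : ℝ) ≤ 3 * C := by
      rw [h3]
      push_cast
      calc ∑ j, ((univ.filter fun b => cl b = j ∧ N b x = x).card : ℝ) ≤ ∑ _j : J, (3 : ℝ) :=
            Finset.sum_le_sum fun j _ => by exact_mod_cast hF.c3 j x hx
        _ = Fintype.card J * 3 := by rw [Finset.sum_const, Finset.card_univ, nsmul_eq_mul]
        _ ≤ 3 * C := by linarith
    have h5 : ((univ.filter fun b => x ∈ tkN O (cU U c) N b).card : ℝ) ≤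
        ((univ.filter fun b => N b x = x).card : ℝ) +
        ((univ.filter fun b => N b x ≠ x ∧ cU U c (N b x) = some b).card : ℝ) := by
      exact_mod_cast h2
    linarith
  · have h1 : (univ.filter fun b => x ∈ tkN O (cU U c) N b) = ∅ := by
      rw [Finset.filter_eq_empty_iff]
      intro b _ h
      exact hx (Finset.mem_filter.mp h).1
    rw [h1, Finset.card_empty]
    push_cast
    positivity

theorem t2_cnt (b : Fin P) (y : V)
    (hNN : ∀ x ∈ O, N b x = x → N0 b x = x)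
    (htok : (((nb (S (cl b)) y ∩ O).filter fun w => N0 b w = w).card : ℝ) ≤ T)
    (hB : (((nb (S (cl b)) y).filter fun x => N b x ≠ x ∧ cU U c (N b x) = some b).card : ℝ) ≤
      X) :
    (((nb (S (cl b)) y).filter fun x => x ∈ tkN O (cU U c) N b).card : ℝ) ≤ T + X := by
  have h1 : ((nb (S (cl b)) y).filter fun x => x ∈ tkN O (cU U c) N b) ⊆
      ((nb (S (cl b)) y ∩ O).filter fun w => N0 b w = w) ∪
      ((nb (S (cl b)) y).filter fun x => N b x ≠ x ∧ cU U c (N b x) = some b) := by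
    intro x hx
    obtain ⟨h2, h3⟩ := Finset.mem_filter.mp hx
    obtain ⟨h4, -, h5⟩ := Finset.mem_filter.mp h3
    by_cases h6 : N b x = x
    · exact Finset.mem_union_left _ (Finset.mem_filter.mpr ⟨Finset.mem_inter.mpr ⟨h2, h4⟩,
        hNN x h4 h6⟩)
    · exact Finset.mem_union_right _ (Finset.mem_filter.mpr ⟨h2, h6, h5.resolve_left h6⟩)
  have h2 := (Finset.card_le_card h1).trans (Finset.card_union_le _ _)
  have h3 : (((nb (S (cl b)) y).filter fun x => x ∈ tkN O (cU U c) N b).card : ℝ) ≤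
      (((nb (S (cl b)) y ∩ O).filter fun w => N0 b w = w).card : ℝ) +
      (((nb (S (cl b)) y).filter fun x => N b x ≠ x ∧ cU U c (N b x) = some b).card : ℝ) := by
    exact_mod_cast h2
  linarith

theorem ow_cnt (hUO : U ⊆ O) (b : Fin P) (y : V)
    (hB : (((nb (S (cl b)) y).filter fun x => N b x ≠ x ∧ cU U c (N b x) = some b).card : ℝ) ≤
      X)
    (hI : (((nb (S (cl b)) y).filter fun x => cU U c x = some b).card : ℝ) ≤ X) :
    (((nb (S (cl b)) y).filter fun x => cU U c x = some b ∨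
      (x ∉ O ∧ cU U c (N b x) = some b)).card : ℝ) ≤ 2 * X := by
  have h1 : ((nb (S (cl b)) y).filter fun x => cU U c x = some b ∨
      (x ∉ O ∧ cU U c (N b x) = some b)) ⊆
      ((nb (S (cl b)) y).filter fun x => N b x ≠ x ∧ cU U c (N b x) = some b) ∪
      ((nb (S (cl b)) y).filter fun x => cU U c x = some b) := by
    intro x hx
    obtain ⟨h2, h3⟩ := Finset.mem_filter.mp hx
    rcases h3 with h3 | ⟨h3, h4⟩
    · exact Finset.mem_union_right _ (Finset.mem_filter.mpr ⟨h2, h3⟩)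
    · refine Finset.mem_union_left _ (Finset.mem_filter.mpr ⟨h2, ?_, h4⟩)
      intro h5
      rw [h5] at h4
      exact h3 (hUO (cU_eq.mp h4).1)
  have h2 := (Finset.card_le_card h1).trans (Finset.card_union_le _ _)
  have h3 : (((nb (S (cl b)) y).filter fun x => cU U c x = some b ∨
      (x ∉ O ∧ cU U c (N b x) = some b)).card : ℝ) ≤
      (((nb (S (cl b)) y).filter fun x => N b x ≠ x ∧ cU U c (N b x) = some b).card : ℝ) +
      (((nb (S (cl b)) y).filter fun x => cU U c x = some b).card : ℝ) := by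
    exact_mod_cast h2
  linarith

theorem vdc_cnt (v : V)
    (hA : ((univ.filter fun b => N b v ≠ v ∧ cU U c (N b v) = some b).card : ℝ) ≤ X) :
    ((univ.filter fun b => cU U c (N b v) = some b).card : ℝ) ≤ 1 + X := by
  have h1 : (univ.filter fun b => cU U c (N b v) = some b) ⊆
      {c v} ∪ (univ.filter fun b => N b v ≠ v ∧ cU U c (N b v) = some b) := by
    intro b hb
    have h2 := (Finset.mem_filter.mp hb).2
    by_cases h3 : N b v = v
    · rw [h3] at h2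
      exact Finset.mem_union_left _ (Finset.mem_singleton.mpr (cU_eq.mp h2).2.symm)
    · exact Finset.mem_union_right _ (Finset.mem_filter.mpr ⟨Finset.mem_univ _, h3, h2⟩)
  have h2 := (Finset.card_le_card h1).trans (Finset.card_union_le _ _)
  rw [Finset.card_singleton] at h2
  have h3 : ((univ.filter fun b => cU U c (N b v) = some b).card : ℝ) ≤
      1 + ((univ.filter fun b => N b v ≠ v ∧ cU U c (N b v) = some b).card : ℝ) := by
    exact_mod_cast h2
  linarith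

theorem ndc_cnt (hUO : U ⊆ O) (hnO : ∀ j i, ∀ x ∈ nod (nd j) i, x ∉ O) (b : Fin P) (i : I)
    (hB : (((nod (nd (cl b)) i).filter fun x => N b x ≠ x ∧ cU U c (N b x) = some b).card :
      ℝ) ≤ X) :
    (((nod (nd (cl b)) i).filter fun v => cU U c (N b v) = some b).card : ℝ) ≤ X := by
  refine le_trans (Nat.cast_le.mpr (Finset.card_le_card ?_)) hB
  intro x hx
  obtain ⟨h1, h2⟩ := Finset.mem_filter.mp hx
  refine Finset.mem_filter.mpr ⟨h1, ?_, h2⟩
  intro h3
  rw [h3] at h2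
  exact hnO _ _ x h1 (hUO (cU_eq.mp h2).1)

end cnt

/-- the small number with the parameter `a1` -/
theorem sp_num (a C X : ℝ) (n' d : ℕ) (ha : 0 < a) (hd : 1 ≤ d)
    (hQ : 2 * (2 : ℝ) ^ n' + 3 * C + 2 ≤ (d : ℝ) ^ (a / 40)) (hC : 0 ≤ C)
    (hX : X ≤ 2 ^ n' * (d : ℝ) ^ (a / 40 * n')) :
    3 * C + 2 + 2 * X ≤ sp d (10 * ((n' : ℝ) / 40 + 1) * a) ∧
      sp d a ≤ sp d (10 * ((n' : ℝ) / 40 + 1) * a) := by
  have hd1 : (1 : ℝ) ≤ d := by exact_mod_cast hd
  have hdp : (0 : ℝ) < d := by linarith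
  have hn0 : (0 : ℝ) ≤ n' := Nat.cast_nonneg _
  unfold Pool.Agent.Work.MP_db9399_cg.sp
  constructor
  · have h1 : (d : ℝ) ^ (10 * ((n' : ℝ) / 40 + 1) * a / 10) =
        (d : ℝ) ^ (a / 40 * n') * (d : ℝ) ^ a := by
      rw [← Real.rpow_add hdp]
      congr 1
      ring
    have h2 : (d : ℝ) ^ (a / 40) ≤ (d : ℝ) ^ a :=
      Real.rpow_le_rpow_of_exponent_le hd1 (by linarith)
    have h3 : (1 : ℝ) ≤ (d : ℝ) ^ (a / 40 * n') := Real.one_le_rpow hd1 (by positivity)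
    rw [h1]
    have h4 : (d : ℝ) ^ (a / 40 * n') * (2 * (2 : ℝ) ^ n' + 3 * C + 2) ≤
        (d : ℝ) ^ (a / 40 * n') * (d : ℝ) ^ a :=
      mul_le_mul_of_nonneg_left (hQ.trans h2) (by positivity)
    nlinarith
  · apply Real.rpow_le_rpow_of_exponent_le hd1
    nlinarith [mul_nonneg hn0 ha.le]

/-- `OWNU` without forbidden colours -/
theorem ownu0 (C K1 K : ℕ) (hK1 : 1 ≤ K1) : ∃ (C' N x0 : ℕ),
    ∀ {V : Type u} [Fintype V] (G : SimpleGraph V) (U : Finset V) (d x P : ℕ) (J R : Type u)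
      [Fintype J] [Fintype R] (S : J → Finset V) (g : J → Fin P → V → ℝ) (e : J → ℝ)
      (Q : R → Finset (Fin P × V)), x0 ≤ x → Real.log d ≤ x →
      x ^ N ≤ d → P ≤ 2 * d → (d : ℝ) - d / (x : ℝ) ^ (C + 2 * K1 + 8) ≤ P →
      (∀ v, (nb G v).card ≤ d) →
      (∀ v ∈ U, 5 * ((d : ℝ) ^ 2 / (x : ℝ) ^ K1) ≤ ((mis G (nb G v)).card : ℝ)) →
      Sig ((x : ℝ) ^ K / d) (Real.exp ((x : ℝ) ^ C)) S g (fun j => e j / d) →
      Upt (d * (x : ℝ) ^ K) (Real.exp ((x : ℝ) ^ C)) Q →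
      ∃ c : V → Fin P, (∀ v ∈ U, ∀ w ∈ U, G.Adj v w → c v ≠ c w) ∧
        (∀ j, ∑ b, |∑ v ∈ U.filter (fun v => c v = b), g j b v| ≤
          1 / (d : ℝ) * ∑ b, |∑ v ∈ U, g j b v| + (130 * Real.sqrt (e j) + 1 / x)) ∧
        (∀ j, ∑ v ∈ U, |g j (c v) v| ≤ 1 / (d : ℝ) * ∑ b, ∑ v ∈ U, |g j b v| + 1 / x) ∧
        ∀ q, (((Q q).filter (fun y => y.2 ∈ U ∧ c y.2 = y.1)).card : ℝ) ≤ (x : ℝ) ^ C' := by
  obtain ⟨C', N, x0, h⟩ := ownu_hold.{u} C K1 K hK1
  refine ⟨C', N, x0, ?_⟩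
  intro V _ G U d x P J R _ _ S g e Q h1 h2 h3 h4 h5 h6 h7 h8 h9
  obtain ⟨Fb, hFb⟩ : ∃ Fb : V → Finset (Fin P), ∀ v, Fb v = ∅ := ⟨fun _ => ∅, fun _ => rfl⟩
  obtain ⟨c, hc, -, hs, hm, hu⟩ := h G U d x P J R S g e Q Fb h1 h2 h3 h4 h5 h6 h7 h8 h9
    (fun v => by
      rw [hFb, Finset.card_empty]
      push_cast
      positivity)
  refine ⟨c, hc, fun j => ?_, hm, hu⟩
  refine (hs j).trans (le_of_eq ?_)
  have h10 : ∀ b : Fin P, ∑ v ∈ U.filter (fun v => b ∈ Fb v), |g j b v| = 0 := by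
    intro b
    apply Finset.sum_eq_zero
    intro v hv
    have := (Finset.mem_filter.mp hv).2
    rw [hFb] at this
    simp at this
  have h11 : ∀ b : Fin P, |∑ v ∈ U, g j b v| + ∑ v ∈ U.filter (fun v => b ∈ Fb v), |g j b v| =
      |∑ v ∈ U, g j b v| := fun b => by rw [h10, add_zero]
  rw [Finset.sum_congr rfl fun b _ => h11 b, add_assoc]

theorem stmt_OWNG : Stmt_OWNG.{u} := by
  obtain ⟨n', Nn, x0, hown⟩ := ownu0.{u} 3 1 40 (by norm_num)
  refine ⟨(n' : ℝ) / 40 + 1, 20 / (Nn + 1), ?_, by positivity, ?_⟩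
  · have : (0 : ℝ) ≤ n' := Nat.cast_nonneg _
    linarith
  intro a C C1 e2 ha haN ha1 hC hC1 he2
  obtain ⟨e, he, hee, hCe, hse⟩ := exE C e2 hC he2
  refine ⟨e, he, ?_⟩
  intro MS δ β c1 C' ρ0 ρ2 hρ0
  obtain ⟨C2, hC2, hC'2⟩ : ∃ C2 : ℝ, 1 ≤ C2 ∧ C' ≤ C2 := ⟨max C' 1, le_max_right _ _, le_max_left _ _⟩
  have hC0 : 0 < C := by linarith
  have hCC2 : 0 < C * C2 := by positivity
  obtain ⟨Q1, q1, q2, q3, q4, q5, q6, q7, q8, q9⟩ : ∃ Q1 : ℝ, (x0 : ℝ) ≤ Q1 ∧ 200 ≤ Q1 ∧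
      72 / e2 ≤ Q1 ∧ 2 * C2 / e2 ≤ Q1 ∧ C * C1 ≤ Q1 ∧ (C * C1) ^ 2 ≤ Q1 ∧ 2 * C2 ≤ Q1 ∧
      15 * (C * C2) ≤ Q1 ∧ 2 * (2 : ℝ) ^ n' + 3 * C + 2 ≤ Q1 := by
    have p1 : (0 : ℝ) ≤ x0 := Nat.cast_nonneg _
    have p2 : 0 < 72 / e2 := by positivity
    have p3 : 0 < 2 * C2 / e2 := by positivity
    have p4 : 0 < C * C1 := by positivity
    have p5 : 0 < (C * C1) ^ 2 := by positivity
    have p6 : 0 < 2 * (2 : ℝ) ^ n' + 3 * C + 2 := by positivity
    refine ⟨x0 + 200 + 72 / e2 + 2 * C2 / e2 + C * C1 + (C * C1) ^ 2 + 2 * C2 +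
      15 * (C * C2) + (2 * (2 : ℝ) ^ n' + 3 * C + 2), ?_, ?_, ?_, ?_, ?_, ?_, ?_, ?_, ?_⟩
    all_goals linarith
  obtain ⟨d0, hd0⟩ := largeG a C Q1 Nn ha
  refine ⟨d0, ?_⟩
  intro V I I' J _ _ _ _ P cl E H Gh S O W U K A Ex Exc nd pr d D r g L N0 N hd hCls hcr hsum
    hUO hEd hEW hHE hmis hS hK hfl h0 h1
  obtain ⟨h100, hQd, hlog, hNn, h8⟩ := hd0 d hd
  have haN' : a * (Nn + 1) ≤ 20 := by
    have : (0 : ℝ) < (Nn : ℝ) + 1 := by positivity
    rwa [le_div_iff₀ this] at haN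
  obtain ⟨x, hx1, hx2, hx3, hx4, hx5, hx6, hx7, hx8, hx9⟩ :=
    xnum a C Q1 Nn n' d ha ha1 hC haN' q2 h100 hQd hlog hNn h8
  have hd1 : 1 ≤ d := by omega
  have hd' : (0 : ℝ) < d := by exact_mod_cast (show 0 < d by omega)
  have hd1' : (1 : ℝ) ≤ d := by exact_mod_cast hd1
  have hxx : (200 : ℝ) ≤ x := by linarith
  have hxp : (0 : ℝ) < x := by linarith
  obtain ⟨hP, hP2⟩ := P_bd cl D r d C a ha ha1 hd1 hcr hsum hCls.Jc (fun j => (hCls.Dd j).1)
    (fun j => (hCls.rr j).2.2)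
  have hF : Fct E H S cl O U nd N := Fct.of hCls hS h0 h1
  have hS2 : ∀ j v, (nb (S j) v).card ≤ r j + 2 := fun j v => (hS j).cl.hi v
  have hrD : ∀ j, r j ≤ d := fun j => by
    have := hcr j
    have := (hCls.Dd j).1
    omega
  have hnd : ∀ j, ∀ y ∈ O, nd j y = none := fun j y hy =>
    ((hCls.wld j).cov y ((hCls.wld j).OA hy)).mp hy
  have hnO : ∀ j i, ∀ y ∈ nod (nd j) i, y ∉ O := by
    intro j i y hy hyO
    obtain ⟨-, s, hs⟩ := Finset.mem_filter.mp hy
    rw [hnd j y hyO] at hs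
    exact absurd hs (by simp)
  have hn : ∀ j i, ((nod (nd j) i).card : ℝ) ≤ 2 * C2 * d := by
    intro j i
    have h2 : nod (nd j) i ⊆ nsd (nd j) i false ∪ nsd (nd j) i true := by
      intro y hy
      obtain ⟨-, s, hs⟩ := Finset.mem_filter.mp hy
      cases s
      · exact Finset.mem_union_left _ (Finset.mem_filter.mpr ⟨Finset.mem_univ _, hs⟩)
      · exact Finset.mem_union_right _ (Finset.mem_filter.mpr ⟨Finset.mem_univ _, hs⟩)
    have h3 : ((nod (nd j) i).card : ℝ) ≤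
        ((nsd (nd j) i false).card : ℝ) + ((nsd (nd j) i true).card : ℝ) := by
      exact_mod_cast (Finset.card_le_card h2).trans (Finset.card_union_le _ _)
    have h4 := (hCls.wld j).sz2 i false
    have h5 := (hCls.wld j).sz2 i true
    have h6 : C' * (D j : ℝ) ≤ C2 * d :=
      mul_le_mul hC'2 (by exact_mod_cast (hCls.Dd j).1) (Nat.cast_nonneg _) (by linarith)
    linarith
  have hx8' : (d : ℝ) - d / (x : ℝ) ^ (3 + 2 * 1 + 8) ≤ P := by
    refine le_trans ?_ hP2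
    have h2 : (3 + 2 * 1 + 8 : ℕ) = 13 := by norm_num
    rw [h2]
    have h3 : C * (d : ℝ) ^ (1 - a / 3) ≤ d / (x : ℝ) ^ 13 := by
      rw [le_div_iff₀ (by positivity)]
      exact hx7
    linarith
  have hmis' : ∀ v ∈ U, 5 * ((d : ℝ) ^ 2 / (x : ℝ) ^ 1) ≤ ((mis E (nb E v)).card : ℝ) := by
    intro v hv
    refine le_trans ?_ (hmis v hv)
    have h2 : (d : ℝ) ^ 2 = (d : ℝ) ^ (2 - a / 100) * (d : ℝ) ^ (a / 100) := by
      rw [← Real.rpow_add hd', ← Real.rpow_natCast]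
      congr 1
      push_cast
      ring
    rw [pow_one, ← mul_div_assoc, div_le_iff₀ hxp, h2]
    have h4 : (0 : ℝ) ≤ (d : ℝ) ^ (2 - a / 100) := by positivity
    have h5 : (0 : ℝ) ≤ (d : ℝ) ^ (a / 100) := by positivity
    have h3 := mul_le_mul_of_nonneg_left hx5 h4
    have h6 := mul_nonneg h4 h5
    linarith
  have hsig := sig_all (P := P) (r := r) (D := D) (L := L) (d := d) (a := a) (x := (x : ℝ)) hF hUO hHE
    hEd hK ha hC hC2 hC1 he hCe hd1 hCls.Dd hCls.Jc hS2 hrD hCls.rd hn (by linarith)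
    (q5.trans hx1) (q6.trans hx1) hx6
  have hupt := upt_all (a := a) (x := (x : ℝ)) hF hP hd1 hS2 hrD hn (by linarith) (q7.trans hx1)
  have hsx1 := one_le_sx d a
  have hsxd : 0 ≤ sx d a * (d : ℝ) ^ 2 := by positivity
  have hsig' := Sig.mono hsig le_rfl
    ((mul_le_mul_of_nonneg_right q8 hsxd).trans hx9)
    (fun _ => le_rfl)
  have hupt' := Upt.mono hupt le_rfl
    ((mul_le_mul_of_nonneg_right (show (8 : ℝ) ≤ Q1 by linarith) hsxd).trans hx9)
  have hx0 : x0 ≤ x := by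
    exact_mod_cast q1.trans hx1
  obtain ⟨c, hc, hs, hm, hu⟩ := hown E U d x P _ _ _ _ _ _
    hx0 hx2 hx4 (by omega) hx8' hEd hmis' hsig' hupt'
  clear hsig' hupt' hsig hupt hown hd0
  have hxi : (0 : ℝ) ≤ 1 / x := by positivity
  have hx13 : 1 / (x : ℝ) ≤ e2 / 72 := by
    rw [div_le_div_iff₀ hxp (by norm_num), one_mul]
    have := q3.trans hx1
    rwa [div_le_iff₀ he2, mul_comm] at this
  have hd72 : 18 / (d : ℝ) ≤ e2 / 4 := by
    rw [div_le_div_iff₀ hd' (by norm_num)]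
    have := (q3.trans hx1).trans hx3
    rw [div_le_iff₀ he2] at this
    linarith
  have h2C2 : 2 * C2 ≤ e2 * x := by
    have := q4.trans hx1
    rw [div_le_iff₀ he2] at this
    linarith
  -- upper tests
  have hA : ∀ y, ((univ.filter fun b => N b y ≠ y ∧ cU U c (N b y) = some b).card : ℝ) ≤
      (x : ℝ) ^ n' := fun y =>
    le_trans (Nat.cast_le.mpr (cntA hF.NN y)) (hu (Sum.inl y))
  have hB : ∀ b y, (((nb (S (cl b)) y).filter fun z => N b z ≠ z ∧
      cU U c (N b z) = some b).card : ℝ) ≤ (x : ℝ) ^ n' := fun b y =>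
    le_trans (Nat.cast_le.mpr (cntN (τ := Fin P × V) hF.NN Prod.fst
      (fun t => nb (S (cl t.1)) t.2) (b, y))) (hu (Sum.inr (Sum.inl (b, y))))
  have hI : ∀ b y, (((nb (S (cl b)) y).filter fun z => cU U c z = some b).card : ℝ) ≤
      (x : ℝ) ^ n' := fun b y =>
    le_trans (Nat.cast_le.mpr (cntI (τ := Fin P × V) Prod.fst
      (fun t => nb (S (cl t.1)) t.2) (b, y))) (hu (Sum.inr (Sum.inr (Sum.inl (b, y)))))
  have hNo : ∀ b i, (((nod (nd (cl b)) i).filter fun z => N b z ≠ z ∧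
      cU U c (N b z) = some b).card : ℝ) ≤ (x : ℝ) ^ n' := fun b i =>
    le_trans (Nat.cast_le.mpr (cntN (τ := Fin P × I) hF.NN Prod.fst
      (fun t => nod (nd (cl t.1)) t.2) (b, i))) (hu (Sum.inr (Sum.inr (Sum.inr (b, i)))))
  obtain ⟨hsp1, hsp2⟩ := sp_num a C ((x : ℝ) ^ n') n' d ha hd1 (q9.trans hQd) hC0.le hx8
  have hX0 : (0 : ℝ) ≤ (x : ℝ) ^ n' := by positivity
  have hNN : ∀ b, ∀ z ∈ O, N b z = z → N0 b z = z := by
    intro b z _ h2
    by_contra h3
    have h4 := h1.ext b z h3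
    rw [h2] at h4
    exact h3 h4.symm
  have hr2 : ∀ j, (2 : ℝ) ≤ r j := by
    intro j
    have h2 := hCls.rd j
    have h3 : (2 : ℝ) ≤ (d : ℝ) ^ (1 - a) := by
      have h4 : (d : ℝ) ^ (1 / 2 : ℝ) ≤ (d : ℝ) ^ (1 - a) :=
        Real.rpow_le_rpow_of_exponent_le hd1' (by linarith)
      have h5 : (2 : ℝ) ≤ (d : ℝ) ^ (1 / 2 : ℝ) := by
        rw [← Real.sqrt_eq_rpow]
        apply Real.le_sqrt_of_sq_le
        have : (100 : ℝ) ≤ d := by exact_mod_cast h100
        linarith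
      linarith
    linarith
  refine ⟨cU U c, ?_⟩
  refine ⟨hUO, ?_, ?_, ⟨?_, ?_, ?_⟩, ?_, ?_, ?_, ?_, ?_, ?_⟩
  · intro v
    unfold cU
    split_ifs with h
    · simp [h]
    · simp [h]
  · intro v w hvw hcv hcw
    unfold cU at hcv hcw
    split_ifs at hcv hcw with h2 h3
    · exact hc v h2 w h3 hvw (Option.some.inj hcw)
    · exact hcv rfl
  · intro y
    refine (t1_cnt hF hCls.Jc y (hA y)).trans ?_
    linarith
  · intro b y
    refine (t2_cnt b y (hNN b) (h0.tok b y) (hB b y)).trans ?_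
    linarith
  · intro j y
    refine (out3 hF hP hd1 hS2 j y (1 / x) (hm (Sum.inr (Sum.inr (Sum.inl (j, y)))))).trans ?_
    have h2 := hr2 j
    have h3 : (1 : ℝ) / x ≤ 1 := by
      rw [div_le_one hxp]
      linarith
    nlinarith
  · intro b y
    refine (ow_cnt hUO b y (hB b y) (hI b y)).trans ?_
    linarith
  · intro j v
    have h2 : ∑ b, |∑ y ∈ U.filter (fun y => c y = b),
        gS U N (Ac cl) (f1 S O r L) (j, v) b y| ≤
        1 / (d : ℝ) * ∑ b, |∑ y ∈ U, gS U N (Ac cl) (f1 S O r L) (j, v) b y| +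
          (130 * Real.sqrt (C * e) + 1 / x) := hs (Sum.inl (j, v))
    refine (out1 hF hUO hHE hc hK he hP hd1 j v (hfl j) _ h2).trans ?_
    apply add_le_add le_rfl
    have h4 : 8 * e ≤ e2 := by nlinarith
    linarith
  · intro j v
    refine (out2 hF hUO hHE hEd hK hC0 he hd1 (fun j => (hCls.Dd j).2) j v (1 / x)
      (hm (Sum.inr (Sum.inl (j, v))))).trans ?_
    apply div_le_div_of_nonneg_right _ hd'.le
    linarith
  · intro v
    refine (vdc_cnt v (hA v)).trans ?_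
    linarith
  · intro b i
    refine (ndc_cnt hUO hnO b i (hNo b i)).trans ?_
    linarith
  · intro j i
    have h2q : 0 < 2 * C2 * d := by positivity
    refine (out4 hF hUO hd1 hnO h2q j i (1 / x)
      (hm (Sum.inr (Sum.inr (Sum.inr (j, i)))))).trans ?_
    have h3 : 0 ≤ (∑ v ∈ nod (nd j) i, ((nb (H j) v).card : ℝ)) / d :=
      div_nonneg (Finset.sum_nonneg fun _ _ => Nat.cast_nonneg _) hd'.le
    have h4 : 2 * C2 * d * (1 / (x : ℝ)) ≤ e2 * d := by
      rw [mul_one_div, div_le_iff₀ hxp]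
      have := mul_le_mul_of_nonneg_right h2C2 hd'.le
      linarith
    linarith

end Pool.Agent.Work.MP_db9399_og.helper35
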