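import Pool.Agent.Work.MP_db9399_ow_helper6.Hold
import Pool.Agent.Work.MP_db9399_as_helper6.EMB

/-!
# MP_db9399: own colours of a set `U` of vertices (helper35)

`Stmt_OWNU` is `ow.Stmt_OWN` for the vertices of `U` in a graph of maximum degree `d`: the graph
induced on `U` is embedded in a `d`-regular graph (`EMB.ext`).
-/

set_option autoImplicit false

namespace Pool.Agent.Work.MP_db9399_og.helper35

open Finset Classical
open Pool.Agent.Work.MP_db9399_all (nb mis)
open Pool.Agent.Work.MP_db9399_ow (Sig Upt)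
open Pool.Agent.Work.MP_db9399_as.helper6

universe u

/-- own colours of the vertices of `U` -/
def Stmt_OWNU : Prop :=
  ∀ (C K1 K : ℕ), 1 ≤ K1 → ∃ (C' N x0 : ℕ),
    ∀ {V : Type u} [Fintype V] (G : SimpleGraph V) (U : Finset V) (d x P : ℕ) (J R : Type u)
      [Fintype J] [Fintype R] (S : J → Finset V) (g : J → Fin P → V → ℝ) (e : J → ℝ)
      (Q : R → Finset (Fin P × V)) (Fb : V → Finset (Fin P)), x0 ≤ x → Real.log d ≤ x →
      x ^ N ≤ d → P ≤ 2 * d → (d : ℝ) - d / (x : ℝ) ^ (C + 2 * K1 + 8) ≤ P →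
      (∀ v, (nb G v).card ≤ d) →
      (∀ v ∈ U, 5 * ((d : ℝ) ^ 2 / (x : ℝ) ^ K1) ≤ ((mis G (nb G v)).card : ℝ)) →
      Sig ((x : ℝ) ^ K / d) (Real.exp ((x : ℝ) ^ C)) S g (fun j => e j / d) →
      Upt (d * (x : ℝ) ^ K) (Real.exp ((x : ℝ) ^ C)) Q →
      (∀ v, ((Fb v).card : ℝ) ≤ d / (x : ℝ) ^ (C + 2 * K1 + 8)) →
      ∃ c : V → Fin P, (∀ v ∈ U, ∀ w ∈ U, G.Adj v w → c v ≠ c w) ∧ (∀ v, c v ∉ Fb v) ∧
        (∀ j, ∑ b, |∑ v ∈ U.filter (fun v => c v = b), g j b v| ≤
          1 / (d : ℝ) * ∑ b, (|∑ v ∈ U, g j b v| +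
            ∑ v ∈ U.filter (fun v => b ∈ Fb v), |g j b v|) + 130 * Real.sqrt (e j) + 1 / x) ∧
        (∀ j, ∑ v ∈ U, |g j (c v) v| ≤ 1 / (d : ℝ) * ∑ b, ∑ v ∈ U, |g j b v| + 1 / x) ∧
        ∀ q, (((Q q).filter (fun y => y.2 ∈ U ∧ c y.2 = y.1)).card : ℝ) ≤ (x : ℝ) ^ C'

/-- the graph induced on `U` -/
def rU {V : Type u} (G : SimpleGraph V) (U : Finset V) : SimpleGraph V where
  Adj v w := G.Adj v w ∧ v ∈ U ∧ w ∈ U
  symm := ⟨fun _ _ h => ⟨h.1.symm, h.2.2, h.2.1⟩⟩
  loopless := ⟨fun v h => G.loopless.irrefl v h.1⟩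

theorem mem_nb {V : Type u} [Fintype V] {G : SimpleGraph V} {v w : V} :
    w ∈ nb G v ↔ G.Adj v w := by
  unfold nb
  rw [Finset.mem_filter]
  exact ⟨fun h => h.2, fun h => ⟨Finset.mem_univ _, h⟩⟩

theorem mem_mis {V : Type u} {G : SimpleGraph V} {A : Finset V} {p : V × V} :
    p ∈ mis G A ↔ p.1 ∈ A ∧ p.2 ∈ A ∧ p.1 ≠ p.2 ∧ ¬ G.Adj p.1 p.2 := by
  unfold mis
  rw [Finset.mem_filter, Finset.mem_product, and_assoc]

theorem nb_deg {V : Type u} [Fintype V] (G : SimpleGraph V) (v : V)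
    [Fintype (G.neighborSet v)] : (nb G v).card = G.degree v := by
  rw [← SimpleGraph.card_neighborFinset_eq_degree]
  congr 1
  ext w
  rw [mem_nb, SimpleGraph.mem_neighborFinset]

section Emb

variable {V : Type u} [Fintype V] (G : SimpleGraph V) {q : ℕ} [hq : Fact q.Prime]

/-- non-adjacent pairs in the neighbourhoods of the extended graph -/
theorem mis_ext (d : ℕ) (hd : ∀ v, (nb G v).card ≤ d) (hdq : d ≤ q) (a : V × EMB.Cp q) :
    (mis G (nb G a.1)).card + (d - (nb G a.1).card) * (d - 1) ≤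
      (mis (EMB.ext G d q) (nb (EMB.ext G d q) a)).card := by
  obtain ⟨v, c⟩ := a
  dsimp only
  have hne : NeZero q := ⟨hq.out.ne_zero⟩
  set H := EMB.ext G d q with hH
  have hdeg : ∀ w, G.degree w ≤ d := fun w => by rw [← nb_deg]; exact hd w
  have hN : (nb H (v, c)).card = d :=
    (nb_deg H (v, c)).trans (EMB.ext_regular G d hdeg hdq (v, c))
  set B : Finset (V × EMB.Cp q) := (nb H (v, c)).filter fun y => y.2 ≠ c with hB
  have hadj : ∀ y, H.Adj (v, c) y ↔ (c = y.2 ∧ G.Adj v y.1) ∨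
      (v = y.1 ∧ EMB.cinc (d - G.degree v) c y.2) := fun y => Iff.rfl
  have hB1 : ∀ y ∈ B, y.1 = v ∧ EMB.cinc (d - G.degree v) c y.2 := by
    intro y hy
    rw [hB, Finset.mem_filter, mem_nb, hadj] at hy
    rcases hy.1 with h | h
    · exact absurd h.1.symm hy.2
    · exact ⟨h.1.symm, h.2⟩
  have hA : ((nb H (v, c)).filter fun y => y.2 = c).card = (nb G v).card := by
    have e : ((nb H (v, c)).filter fun y => y.2 = c) = (nb G v).map (EMB.emb c) := ?_
    · rw [e, Finset.card_map]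
    ext y
    rw [Finset.mem_filter, Finset.mem_map, mem_nb, hadj]
    constructor
    · rintro ⟨h | h, h'⟩
      · exact ⟨y.1, mem_nb.mpr h.2, Prod.ext rfl h.1⟩
      · rw [h'] at h
        exact absurd rfl (EMB.cinc_ne h.2)
    · rintro ⟨w, hw, rfl⟩
      exact ⟨Or.inl ⟨rfl, mem_nb.mp hw⟩, rfl⟩
  have hBc : B.card = d - (nb G v).card := by
    have h1 := Finset.card_filter_add_card_filter_not (s := nb H (v, c)) (fun y => y.2 = c)
    rw [hA, hN] at h1
    rw [hB]
    simp only [ne_eq]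
    omega
  -- the new vertices are not adjacent to the others
  have hBn : ∀ y ∈ B, ∀ z ∈ nb H (v, c), ¬ H.Adj y z := by
    intro y hy z hz hyz
    obtain ⟨h1, h2⟩ := hB1 y hy
    have h3 : (y.2 = z.2 ∧ G.Adj y.1 z.1) ∨
        (y.1 = z.1 ∧ EMB.cinc (d - G.degree y.1) y.2 z.2) := hyz
    rw [mem_nb, hadj] at hz
    rcases h3 with ⟨h3, h4⟩ | ⟨h3, h4⟩
    · rcases hz with ⟨h5, h6⟩ | ⟨h5, h6⟩
      · rw [← h5] at h3
        rw [h3] at h2
        exact EMB.cinc_ne h2 rfl
      · rw [h1, ← h5] at h4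
        exact G.loopless.irrefl _ h4
    · rcases hz with ⟨h5, h6⟩ | ⟨h5, h6⟩
      · rw [h1] at h3
        rw [← h3] at h6
        exact G.loopless.irrefl _ h6
      · rcases h2 with ⟨h7, h8, _⟩ | ⟨h7, h8, _⟩
        · rcases h6 with ⟨_, h9, _⟩ | ⟨h9, _, _⟩
          · rcases h4 with ⟨h10, _, _⟩ | ⟨_, h10, _⟩
            · rw [h8] at h10
              exact Bool.noConfusion h10
            · rw [h9] at h10
              exact Bool.noConfusion h10
          · rw [h7] at h9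
            exact Bool.noConfusion h9
        · rcases h6 with ⟨h9, _, _⟩ | ⟨_, h9, _⟩
          · rw [h7] at h9
            exact Bool.noConfusion h9
          · rcases h4 with ⟨_, h10, _⟩ | ⟨h10, _, _⟩
            · rw [h9] at h10
              exact Bool.noConfusion h10
            · rw [h8] at h10
              exact Bool.noConfusion h10
  set P1 : Finset ((V × EMB.Cp q) × (V × EMB.Cp q)) :=
    (mis G (nb G v)).image fun p => ((p.1, c), (p.2, c)) with hP1
  set P2 : Finset ((V × EMB.Cp q) × (V × EMB.Cp q)) :=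
    (B ×ˢ nb H (v, c)) \ (B.image fun y => (y, y)) with hP2
  have hc1 : P1.card = (mis G (nb G v)).card := by
    rw [hP1]
    apply Finset.card_image_of_injective
    intro p p' h
    have h1 := Prod.mk.inj h
    exact Prod.ext (Prod.mk.inj h1.1).1 (Prod.mk.inj h1.2).1
  have hc2 : (d - (nb G v).card) * (d - 1) ≤ P2.card := by
    have h1 := Finset.le_card_sdiff (B.image fun y => (y, y)) (B ×ˢ nb H (v, c))
    have h2 : (B.image fun y => (y, y)).card ≤ B.card := Finset.card_image_le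
    rw [Finset.card_product, hBc, hN] at h1
    rw [hBc] at h2
    have h3 : (d - (nb G v).card) * (d - 1) = (d - (nb G v).card) * d - (d - (nb G v).card) := by
      rw [Nat.mul_sub, mul_one]
    rw [h3]
    refine le_trans ?_ h1
    exact Nat.sub_le_sub_left h2 _
  have hdis : Disjoint P1 P2 := by
    rw [Finset.disjoint_left]
    intro p h1 h2
    rw [hP1, Finset.mem_image] at h1
    obtain ⟨p', -, rfl⟩ := h1
    rw [hP2, Finset.mem_sdiff, Finset.mem_product, hB, Finset.mem_filter] at h2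
    exact h2.1.1.2 rfl
  have hsub : P1 ∪ P2 ⊆ mis H (nb H (v, c)) := by
    intro p hp
    rw [mem_mis]
    rcases Finset.mem_union.mp hp with hp | hp
    · rw [hP1, Finset.mem_image] at hp
      obtain ⟨p', hp', rfl⟩ := hp
      rw [mem_mis] at hp'
      obtain ⟨h1, h2, h3, h4⟩ := hp'
      refine ⟨mem_nb.mpr (Or.inl ⟨rfl, mem_nb.mp h1⟩), mem_nb.mpr (Or.inl ⟨rfl, mem_nb.mp h2⟩),
        fun h => h3 (Prod.mk.inj h).1, ?_⟩
      rintro (⟨_, h5⟩ | ⟨_, h5⟩)
      · exact h4 h5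
      · exact EMB.cinc_ne h5 rfl
    · rw [hP2, Finset.mem_sdiff, Finset.mem_product, Finset.mem_image] at hp
      obtain ⟨⟨h1, h2⟩, h3⟩ := hp
      refine ⟨(Finset.mem_filter.mp h1).1, h2, fun h => h3 ⟨p.1, h1, Prod.ext rfl h⟩,
        hBn _ h1 _ h2⟩
  have h1 := Finset.card_le_card hsub
  rw [Finset.card_union_of_disjoint hdis, hc1] at h1
  omega

theorem sum_cp {F : V × EMB.Cp q → ℝ} (c0 : EMB.Cp q)
    (h : ∀ a, a.2 ≠ c0 → F a = 0) : ∑ a, F a = ∑ v, F (v, c0) := by
  have hne : NeZero q := ⟨hq.out.ne_zero⟩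
  have h1 : ∑ v, F (v, c0) = ∑ a ∈ univ.map (EMB.emb c0), F a := by
    rw [Finset.sum_map]
    rfl
  rw [h1]
  symm
  apply Finset.sum_subset (Finset.subset_univ _)
  intro a _ ha
  apply h
  intro h2
  exact ha (Finset.mem_map.mpr ⟨a.1, Finset.mem_univ _, Prod.ext rfl h2.symm⟩)

end Emb

/-- non-adjacent pairs of a neighbourhood, all or most of it in `U` -/
theorem mis_rU {V : Type u} [Fintype V] (G : SimpleGraph V) (U : Finset V) (d : ℕ) (v : V)
    (hv : v ∈ U) (hd : (nb G v).card ≤ d) :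
    (mis G (nb G v)).card ≤ (mis (rU G U) (nb (rU G U) v)).card +
      2 * ((d - (nb (rU G U) v).card) * d) := by
  have hA : nb (rU G U) v = nb G v ∩ U := by
    ext w
    rw [mem_nb, Finset.mem_inter, mem_nb]
    exact ⟨fun h => ⟨h.1, h.2.2⟩, fun h => ⟨h.1, hv, h.2⟩⟩
  have hc : (nb G v \ U).card + (nb G v ∩ U).card = (nb G v).card :=
    Finset.card_sdiff_add_card_inter _ _
  have hsub : mis G (nb G v) ⊆ mis (rU G U) (nb (rU G U) v) ∪
      (((nb G v \ U) ×ˢ nb G v) ∪ (nb G v ×ˢ (nb G v \ U))) := by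
    intro p hp
    rw [mem_mis] at hp
    obtain ⟨h1, h2, h3, h4⟩ := hp
    rw [Finset.mem_union, Finset.mem_union, Finset.mem_product, Finset.mem_product, mem_mis, hA,
      Finset.mem_inter, Finset.mem_inter, Finset.mem_sdiff, Finset.mem_sdiff]
    by_cases h5 : p.1 ∈ U
    · by_cases h6 : p.2 ∈ U
      · exact Or.inl ⟨⟨h1, h5⟩, ⟨h2, h6⟩, h3, fun h => h4 h.1⟩
      · exact Or.inr (Or.inr ⟨h1, h2, h6⟩)
    · exact Or.inr (Or.inl ⟨⟨h1, h5⟩, h2⟩)
  have h1 := Finset.card_le_card hsub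
  have h2 := Finset.card_union_le (mis (rU G U) (nb (rU G U) v))
    (((nb G v \ U) ×ˢ nb G v) ∪ (nb G v ×ˢ (nb G v \ U)))
  have h3 := Finset.card_union_le ((nb G v \ U) ×ˢ nb G v) (nb G v ×ˢ (nb G v \ U))
  rw [Finset.card_product, Finset.card_product] at h3
  have h4 : (nb G v \ U).card * (nb G v).card ≤ (d - (nb (rU G U) v).card) * d := by
    apply Nat.mul_le_mul _ hd
    rw [hA]
    omega
  have h5 : (nb G v).card * (nb G v \ U).card = (nb G v \ U).card * (nb G v).card := by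
    rw [mul_comm]
  omega

theorem mis_bound {V : Type u} [Fintype V] (G : SimpleGraph V) (U : Finset V) (d : ℕ)
    (hd : ∀ v, (nb G v).card ≤ d) (h2 : 2 ≤ d) {q : ℕ} [hq : Fact q.Prime] (hdq : d ≤ q) (m : ℝ)
    (hm : 5 * m ≤ d ^ 2) (hG : ∀ v ∈ U, 5 * m ≤ ((mis G (nb G v)).card : ℝ))
    (a : V × EMB.Cp q) :
    m ≤ ((mis (EMB.ext (rU G U) d q) (nb (EMB.ext (rU G U) d q) a)).card : ℝ) := by
  have hd' : ∀ v, (nb (rU G U) v).card ≤ d := fun v => by
    refine (Finset.card_le_card ?_).trans (hd v)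
    intro w hw
    exact mem_nb.mpr (mem_nb.mp hw).1
  have h1 := mis_ext (rU G U) d hd' hdq a
  obtain ⟨M, hM⟩ : ∃ M : ℕ, M = (mis (EMB.ext (rU G U) d q) (nb (EMB.ext (rU G U) d q) a)).card :=
    ⟨_, rfl⟩
  obtain ⟨k, hk⟩ : ∃ k : ℕ, k = (nb (rU G U) a.1).card := ⟨_, rfl⟩
  have hkd := hd' a.1
  rw [← hk] at hkd h1
  have h3 : (mis (rU G U) (nb (rU G U) a.1)).card + (d - k) * (d - 1) ≤ M := by
    rw [hM]
    exact h1
  have h4 : (d - k) * d ≤ 2 * ((d - k) * (d - 1)) := by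
    have : d ≤ 2 * (d - 1) := by omega
    calc (d - k) * d ≤ (d - k) * (2 * (d - 1)) := Nat.mul_le_mul_left _ this
      _ = 2 * ((d - k) * (d - 1)) := by ring
  rw [← hM]
  by_cases hv : a.1 ∈ U
  · have h5 := mis_rU G U d a.1 hv (hd a.1)
    rw [← hk] at h5
    have h6 : (mis G (nb G a.1)).card ≤ 5 * M := by omega
    have h7 := hG a.1 hv
    have h8 : ((mis G (nb G a.1)).card : ℝ) ≤ 5 * M := by exact_mod_cast h6
    linarith
  · have h5 : k = 0 := by
      rw [hk, Finset.card_eq_zero, Finset.eq_empty_iff_forall_notMem]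
      intro w hw
      exact hv (mem_nb.mp hw).2.1
    subst h5
    rw [Nat.sub_zero] at h3 h4
    have h6 : (d : ℝ) ^ 2 ≤ 5 * M := by
      have : d * d ≤ 5 * M := by omega
      rw [sq]
      exact_mod_cast this
    linarith

/-- **own colours of a set of vertices** -/
theorem ownu_hold : Stmt_OWNU.{u} := by
  intro C K1 K hK1
  obtain ⟨C', N0, N, x0, H⟩ := MP_db9399_ow.helper6.own_hold.{u} C K1 K
  refine ⟨C', max N 2, max x0 5, ?_⟩
  intro V _ G U d x P J R _ _ S g e Q Fb hx hlog hxd hP hP' hdeg hmis hSig hUpt hFb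
  have hx0 : x0 ≤ x := le_trans (le_max_left _ _) hx
  have hx5 : 5 ≤ x := le_trans (le_max_right _ _) hx
  have hx1 : 1 ≤ x := by omega
  have hx5r : (5 : ℝ) ≤ x := by exact_mod_cast hx5
  have hxN : x ^ N ≤ d := (Nat.pow_le_pow_right hx1 (le_max_left _ _)).trans hxd
  have hd2 : 2 ≤ d := by
    have h1 : x ^ 2 ≤ d := (Nat.pow_le_pow_right hx1 (le_max_right _ _)).trans hxd
    nlinarith
  have hxp : (0 : ℝ) < (x : ℝ) ^ K1 := by positivity
  obtain ⟨q, hq1, hq2⟩ := Nat.exists_infinite_primes d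
  have hqf : Fact q.Prime := ⟨hq2⟩
  have hne : NeZero q := ⟨hq2.ne_zero⟩
  obtain ⟨c0, -⟩ : ∃ c0 : EMB.Cp q, c0 = (true, 0, 0) := ⟨_, rfl⟩
  set Gx := EMB.ext (rU G U) d q with hGx
  obtain ⟨g', hg'⟩ : ∃ g' : J → Fin P → V × EMB.Cp q → ℝ, ∀ j b a, g' j b a =
      if a.2 = c0 ∧ a.1 ∈ U then g j b a.1 else 0 := ⟨_, fun _ _ _ => rfl⟩
  obtain ⟨S', hS'⟩ : ∃ S' : J → Finset (V × EMB.Cp q), ∀ j a, a ∈ S' j ↔ a.2 = c0 ∧ a.1 ∈ S j :=
    ⟨fun j => univ.filter fun a => a.2 = c0 ∧ a.1 ∈ S j, fun j a => by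
      rw [Finset.mem_filter]
      exact ⟨fun h => h.2, fun h => ⟨Finset.mem_univ _, h⟩⟩⟩
  obtain ⟨Q', hQ'⟩ : ∃ Q' : R → Finset (Fin P × (V × EMB.Cp q)), ∀ t z, z ∈ Q' t ↔
      z.2.2 = c0 ∧ z.2.1 ∈ U ∧ (z.1, z.2.1) ∈ Q t :=
    ⟨fun t => univ.filter fun z => z.2.2 = c0 ∧ z.2.1 ∈ U ∧ (z.1, z.2.1) ∈ Q t, fun t z => by
      rw [Finset.mem_filter]
      exact ⟨fun h => h.2, fun h => ⟨Finset.mem_univ _, h⟩⟩⟩
  have hg0 : ∀ j b a, a.2 ≠ c0 → g' j b a = 0 := fun j b a h => by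
    rw [hg', if_neg (fun h' => h h'.1)]
  have hg1 : ∀ j b v, g' j b (v, c0) = if v ∈ U then g j b v else 0 := by
    intro j b v
    rw [hg']
    simp
  have hgabs : ∀ j b v, |g' j b (v, c0)| ≤ |g j b v| := by
    intro j b v
    rw [hg1]
    split_ifs
    · exact le_rfl
    · rw [abs_zero]
      exact abs_nonneg _
  have hdegU : ∀ v, (nb (rU G U) v).card ≤ d := fun v => by
    refine (Finset.card_le_card ?_).trans (hdeg v)
    intro w hw
    exact mem_nb.mpr (mem_nb.mp hw).1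
  have hreg : ∀ a, (nb Gx a).card = d := fun a =>
    (nb_deg Gx a).trans (EMB.ext_regular (rU G U) d (fun w => by
      rw [← nb_deg]; exact hdegU w) hq1 a)
  have hsum : ∀ (f : V × EMB.Cp q → ℝ), (∀ a, a.2 ≠ c0 → f a = 0) → ∑ a, f a = ∑ v, f (v, c0) :=
    fun f hf => sum_cp (q := q) c0 hf
  have hSig' : Sig ((x : ℝ) ^ K / d) (Real.exp ((x : ℝ) ^ C)) S' g' (fun j => e j / d) := by
    refine ⟨?_, ?_, ?_, ?_, hSig.e0, ?_, ?_⟩
    · intro j b a ha
      rw [hg']
      split_ifs with h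
      · apply hSig.sup
        intro h'
        exact ha ((hS' j a).mpr ⟨h.1, h'⟩)
      · rfl
    · intro j b a
      rw [hg']
      split_ifs with h
      · exact hSig.le j b a.1
      · rw [abs_zero]
        exact (abs_nonneg _).trans (hSig.le j b a.1)
    · intro j b
      rw [hsum (fun a => |g' j b a|) (fun a ha => by rw [hg0 j b a ha, abs_zero])]
      exact (Finset.sum_le_sum fun v _ => hgabs j b v).trans (hSig.sum j b)
    · intro j b
      rw [hsum (fun a => g' j b a ^ 2) (fun a ha => by rw [hg0 j b a ha]; ring)]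
      refine (Finset.sum_le_sum fun v _ => ?_).trans (hSig.sq j b)
      exact sq_le_sq.mpr (hgabs j b v)
    · intro j
      refine le_trans ?_ (hSig.card j)
      have : (S' j).card ≤ (S j).card := by
        apply Finset.card_le_card_of_injOn (fun a => a.1)
        · intro a ha
          exact ((hS' j a).mp ha).2
        · intro a ha b hb hab
          exact Prod.ext hab (((hS' j a).mp ha).1.trans ((hS' j b).mp hb).1.symm)
      exact_mod_cast this
    · intro a
      refine le_trans (Nat.cast_le.mpr (Finset.card_le_card ?_)) (hSig.mul a.1)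
      intro j hj
      simp only [Finset.mem_filter, Finset.mem_univ, true_and] at hj ⊢
      exact ((hS' j a).mp hj).2
  have hUpt' : Upt (d * (x : ℝ) ^ K) (Real.exp ((x : ℝ) ^ C)) Q' := by
    constructor
    · intro t
      refine le_trans ?_ (hUpt.card t)
      have : (Q' t).card ≤ (Q t).card := by
        apply Finset.card_le_card_of_injOn (fun z => (z.1, z.2.1))
        · intro z hz
          exact ((hQ' t z).mp hz).2.2
        · intro z hz z' hz' hzz
          have h1 := Prod.mk.inj hzz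
          exact Prod.ext h1.1 (Prod.ext h1.2
            (((hQ' t z).mp hz).1.trans ((hQ' t z').mp hz').1.symm))
      exact_mod_cast this
    · intro a
      refine le_trans (Nat.cast_le.mpr (Finset.card_le_card ?_)) (hUpt.mul a.1)
      intro t ht
      simp only [Finset.mem_filter, Finset.mem_univ, true_and] at ht ⊢
      obtain ⟨b, hb⟩ := ht
      exact ⟨b, ((hQ' t _).mp hb).2.2⟩
  obtain ⟨c, hc1, hc2, hc3, hc4, hc5⟩ := H Gx d x P J R S' g' e Q' (fun a => Fb a.1) hx0 hlog hxN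
    hP hP' (fun a => by
      rw [hreg a, sub_self, abs_zero]
      positivity)
    (fun a => by
      refine mis_bound G U d hdeg hd2 hq1 ((d : ℝ) ^ 2 / (x : ℝ) ^ K1) ?_ hmis a
      rw [mul_div_assoc', div_le_iff₀ hxp]
      have h1 : (x : ℝ) ≤ (x : ℝ) ^ K1 := le_self_pow₀ (by linarith) (by omega)
      have h2 : (0 : ℝ) ≤ (d : ℝ) ^ 2 := by positivity
      nlinarith)
    hSig' hUpt' (fun a => hFb a.1)
  have hU : ∀ (p : V → Prop) [DecidablePred p] (f : V → ℝ),
      ∑ v, (if p v then (if v ∈ U then f v else 0) else 0) = ∑ v ∈ U.filter (fun v => p v), f v := by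
    intro p _ f
    rw [Finset.sum_filter, ← Finset.sum_filter_add_sum_filter_not univ (fun v => v ∈ U)]
    have h1 : ∑ v ∈ univ.filter (fun v => v ∉ U),
        (if p v then (if v ∈ U then f v else 0) else 0) = 0 := by
      apply Finset.sum_eq_zero
      intro v hv
      rw [Finset.mem_filter] at hv
      simp [hv.2]
    have h2 : univ.filter (fun v => v ∈ U) = U := by
      ext v
      simp
    rw [h1, add_zero, h2]
    apply Finset.sum_congr rfl
    intro v hv
    simp [hv]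
  have hU' : ∀ f : V → ℝ, ∑ v, (if v ∈ U then f v else 0) = ∑ v ∈ U, f v := by
    intro f
    rw [← Finset.sum_filter]
    congr 1
    ext v
    simp
  have e1 : ∀ j b, ∑ a ∈ univ.filter (fun a => c a = b), g' j b a =
      ∑ v ∈ U.filter (fun v => c (v, c0) = b), g j b v := by
    intro j b
    rw [Finset.sum_filter, hsum (fun a => if c a = b then g' j b a else 0)
      (fun a ha => by rw [hg0 j b a ha, ite_self]), ← hU (fun v => c (v, c0) = b) (fun v => g j b v)]
    apply Finset.sum_congr rfl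
    intro v _
    rw [hg1]
  have e2 : ∀ j b, ∑ a, g' j b a = ∑ v ∈ U, g j b v := by
    intro j b
    rw [hsum (fun a => g' j b a) (fun a ha => hg0 j b a ha), ← hU']
    apply Finset.sum_congr rfl
    intro v _
    rw [hg1]
  have habs : ∀ j b v, |g' j b (v, c0)| = if v ∈ U then |g j b v| else 0 := by
    intro j b v
    rw [hg1]
    split_ifs
    · rfl
    · exact abs_zero
  have e3 : ∀ j b, ∑ a ∈ univ.filter (fun a : V × EMB.Cp q => b ∈ Fb a.1), |g' j b a| =
      ∑ v ∈ U.filter (fun v => b ∈ Fb v), |g j b v| := by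
    intro j b
    rw [Finset.sum_filter, hsum (fun a => if b ∈ Fb a.1 then |g' j b a| else 0)
      (fun a ha => by rw [hg0 j b a ha, abs_zero, ite_self]),
      ← hU (fun v => b ∈ Fb v) (fun v => |g j b v|)]
    apply Finset.sum_congr rfl
    intro v _
    rw [habs]
  have e4 : ∀ j b, ∑ a, |g' j b a| = ∑ v ∈ U, |g j b v| := by
    intro j b
    rw [hsum (fun a => |g' j b a|) (fun a ha => by rw [hg0 j b a ha, abs_zero]), ← hU']
    apply Finset.sum_congr rfl
    intro v _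
    rw [habs]
  have e5 : ∀ j, ∑ a, |g' j (c a) a| = ∑ v ∈ U, |g j (c (v, c0)) v| := by
    intro j
    rw [hsum (fun a => |g' j (c a) a|) (fun a ha => by rw [hg0 j _ a ha, abs_zero]), ← hU']
    apply Finset.sum_congr rfl
    intro v _
    rw [habs]
  refine ⟨fun v => c (v, c0), ?_, fun v => hc2 (v, c0), ?_, ?_, ?_⟩
  · intro v hv w hw hvw
    exact hc1 (v, c0) (w, c0) (Or.inl ⟨rfl, hvw, hv, hw⟩)
  · intro j
    have h1 := hc3 j
    simp_rw [e1, e2, e3] at h1
    exact h1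
  · intro j
    have h1 := hc4 j
    rw [e5] at h1
    simp_rw [e4] at h1
    exact h1
  · intro t
    refine le_trans ?_ (hc5 t)
    have : ((Q t).filter fun y => y.2 ∈ U ∧ c (y.2, c0) = y.1).card ≤
        ((Q' t).filter fun y => c y.2 = y.1).card := by
      apply Finset.card_le_card_of_injOn (fun y => (y.1, (y.2, c0)))
      · intro y hy
        have hy' := Finset.mem_filter.mp (Finset.mem_coe.mp hy)
        apply Finset.mem_coe.mpr
        rw [Finset.mem_filter, hQ']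
        exact ⟨⟨rfl, hy'.2.1, hy'.1⟩, hy'.2.2⟩
      · intro y _ y' _ hyy
        have h1 := Prod.mk.inj hyy
        exact Prod.ext h1.1 (Prod.mk.inj h1.2).1
    exact_mod_cast this

end Pool.Agent.Work.MP_db9399_og.helper35
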